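import Pool.Agent.P8H55.SM.Cut

/-!
# Reduction to 2-connected graphs
-/

open SimpleGraph Cardinal
open scoped Classical

set_option linter.unusedSectionVars false

namespace Pool.Agent.P8H55.SM

open Pool.Agent.Results.MP_fc2b6d_co.Forests Pool.Agent.H165R2.SM

/-- a cycle: nonempty set of vertices with two neighbours in the set -/
theorem exists_core {W : Type*} {H : SimpleGraph W} (hac : ¬ H.IsAcyclic) :
    ∃ C : Set W, C.Nonempty ∧ ∀ a ∈ C, ∃ b ∈ C, ∃ c ∈ C, b ≠ c ∧ H.Adj a b ∧ H.Adj a c := by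
  unfold SimpleGraph.IsAcyclic at hac
  push Not at hac
  obtain ⟨v, p, hp⟩ := hac
  refine ⟨{w | w ∈ p.support}, ⟨v, p.start_mem_support⟩, ?_⟩
  intro a ha
  have hr := hp.rotate ha
  have hnil : ¬ (p.rotate a ha).Nil := hr.not_nil
  have hsup : ∀ w, w ∈ (p.rotate a ha).support → w ∈ p.support := by
    intro w hw
    exact (SimpleGraph.Walk.mem_support_rotate_iff p a ha).1 hw
  refine ⟨(p.rotate a ha).snd, hsup _ ((p.rotate a ha).getVert_mem_support _),
    (p.rotate a ha).penultimate, hsup _ ((p.rotate a ha).getVert_mem_support _),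
    hr.snd_ne_penultimate, (p.rotate a ha).adj_snd hnil, ((p.rotate a ha).adj_penultimate hnil).symm⟩

theorem core_not_star {W : Type*} {H : SimpleGraph W} {C U : Set W} (hne : C.Nonempty)
    (hC : ∀ a ∈ C, ∃ b ∈ C, ∃ c ∈ C, b ≠ c ∧ H.Adj a b ∧ H.Adj a c) (hCU : C ⊆ U) :
    ¬ IsStar (H.induce U) := by
  rintro ⟨z, hz⟩
  obtain ⟨a0, ha0⟩ := hne
  obtain ⟨a, ha, haz⟩ : ∃ a ∈ C, a ≠ z.1 := by
    by_cases h : a0 = z.1
    · obtain ⟨b, hb, _, _, _, hab, _⟩ := hC a0 ha0
      exact ⟨b, hb, fun h' => hab.ne (h.trans h'.symm)⟩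
    · exact ⟨a0, ha0, h⟩
  obtain ⟨b, hb, c, hc, hbc, hab, hac⟩ := hC a ha
  have key : ∀ b ∈ C, H.Adj a b → b = z.1 := by
    intro b hb hab
    rcases hz ⟨a, hCU ha⟩ ⟨b, hCU hb⟩ hab with h | h
    · exact absurd (congrArg Subtype.val h) haz
    · exact congrArg Subtype.val h
  exact hbc ((key b hb hab).trans (key c hc hac).symm)

/-- the 2-connected case with induction hypothesis -/
def TwoCase : Prop :=
  ∀ (W : Type) [Finite W] (H : SimpleGraph W), (∃ a b c : W, a ≠ b ∧ a ≠ c ∧ b ≠ c) →
    H.Preconnected → (∀ v, (H.induce {v}ᶜ).Preconnected) →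
    (∀ v, ∃ a b, a ≠ b ∧ H.Adj v a ∧ H.Adj v b) →
    (∀ U : Set W, U ≠ Set.univ → ¬ IsStar (H.induce U) → Fail (H.induce U)) → Fail H

theorem fail_aux (h2 : TwoCase) (n : ℕ) : ∀ (W : Type) [Finite W] (H : SimpleGraph W),
    Nat.card W = n → ¬ IsStar H → Fail H := by
  induction n using Nat.strong_induction_on with
  | _ n ih =>
    intro W _ H hn hs
    have IH : ∀ U : Set W, U ≠ Set.univ → ¬ IsStar (H.induce U) → Fail (H.induce U) := by
      intro U hU hns
      refine ih (Nat.card U) ?_ U (H.induce U) rfl hns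
      rw [← hn]
      have h1 : U.ncard < (Set.univ : Set W).ncard := Set.ncard_lt_ncard
        ⟨Set.subset_univ _, fun h => hU (Set.eq_univ_of_univ_subset h)⟩ (Set.toFinite _)
      rw [Set.ncard_univ] at h1
      exact h1
    by_cases hemp : IsEmpty W
    · refine ⟨Empty, ⊥, fun F _ hfree => ?_⟩
      exact absurd (contained_of (fun w => (hemp.false w).elim) (fun a => (hemp.false a).elim)
        (fun a => (hemp.false a).elim)) hfree
    rw [not_isEmpty_iff] at hemp
    by_cases hac : H.IsAcyclic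
    · exact forest_fail hac hs
    by_cases hconn : H.Preconnected
    swap
    · -- disconnected
      by_cases hall : ∀ C : H.ConnectedComponent, IsStar C.toSimpleGraph
      · exact star_forest_fail hall hs
      push Not at hall
      have hfinC : Finite H.ConnectedComponent :=
        Finite.of_surjective H.connectedComponentMk Quot.mk_surjective
      obtain ⟨C1, hC1, hmax⟩ : ∃ C1 : H.ConnectedComponent, ¬ IsStar C1.toSimpleGraph ∧
          ∀ C : H.ConnectedComponent, ¬ IsStar C.toSimpleGraph →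
            C1.toSimpleGraph ⊑ C.toSimpleGraph → C.toSimpleGraph ⊑ C1.toSimpleGraph := by
        let _ : Preorder H.ConnectedComponent :=
          { le := fun C C' => C.toSimpleGraph ⊑ C'.toSimpleGraph
            le_refl := fun C => IsContained.refl _
            le_trans := fun _ _ _ h h' => IsContained.trans h h' }
        obtain ⟨C1, h1⟩ := Set.Finite.exists_maximal
          (s := {C : H.ConnectedComponent | ¬ IsStar C.toSimpleGraph}) (Set.toFinite _) hall
        exact ⟨C1, h1.1, fun C hC hle => h1.2 hC hle⟩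
      have hcc := C1.connected_toSimpleGraph
      have hedge : ∃ a b, C1.toSimpleGraph.Adj a b := by
        by_contra hc
        push Not at hc
        obtain ⟨a⟩ := hcc.nonempty
        exact hC1 ⟨a, fun x y hxy => absurd hxy (hc x y)⟩
      have hsupp : C1.supp ≠ Set.univ := by
        intro hu
        apply hconn
        intro a b
        have ha : a ∈ C1.supp := hu ▸ trivial
        have hb : b ∈ C1.supp := hu ▸ trivial
        rw [ConnectedComponent.mem_supp_iff] at ha hb
        exact ConnectedComponent.exact (ha.trans hb.symm)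
      refine comp_step C1 hedge (IH C1.supp hsupp hC1) fun C hC => ?_
      apply hmax C _ hC
      intro hst
      have := hcc.nonempty
      exact hC1 (star_of_contained hC hst)
    -- connected with a cycle
    obtain ⟨C, hCne, hC⟩ := exists_core hac
    by_cases hU : {w : W | 2 ≤ (H.neighborSet w).ncard} = Set.univ
    swap
    · have hCU : C ⊆ {w : W | 2 ≤ (H.neighborSet w).ncard} := by
        intro a ha
        obtain ⟨b, -, c, -, hbc, hab, hac⟩ := hC a ha
        change 2 ≤ (H.neighborSet a).ncard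
        rw [← Set.ncard_pair hbc]
        refine Set.ncard_le_ncard ?_ (Set.toFinite _)
        rintro x (rfl | rfl)
        · exact hab
        · exact hac
      have hns := core_not_star hCne hC hCU
      obtain ⟨a, ha⟩ := hCne
      obtain ⟨b, hb, _, _, _, hab, _⟩ := hC a ha
      exact degree_step 2 _ (fun w => Iff.rfl) ⟨⟨a, hCU ha⟩, ⟨b, hCU hb⟩, hab⟩ (IH _ hU hns)
    have hdeg : ∀ v, ∃ a b, a ≠ b ∧ H.Adj v a ∧ H.Adj v b := by
      intro v
      have h1 : v ∈ {w : W | 2 ≤ (H.neighborSet w).ncard} := hU ▸ trivial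
      have h3 : 1 < (H.neighborSet v).ncard := h1
      obtain ⟨a, b, ha, hb, hab⟩ := (Set.one_lt_ncard_iff (Set.toFinite _)).1 h3
      exact ⟨a, b, hab, ha, hb⟩
    by_cases hcut : ∃ c : W, ¬ (H.induce {c}ᶜ).Preconnected
    · obtain ⟨c, hc⟩ := hcut
      exact cut_step hconn hdeg c hc IH
    push Not at hcut
    refine h2 W H ?_ hconn hcut hdeg IH
    obtain ⟨w⟩ := hemp
    obtain ⟨a, b, hab, ha, hb⟩ := hdeg w
    exact ⟨w, a, b, ha.ne, hb.ne, hab⟩

end Pool.Agent.P8H55.SM
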