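import Pool.Agent.P8H55.SM.Slot

/-!
# A vertex joined to several connected graphs of the same size
-/

open SimpleGraph Cardinal
open scoped Classical

set_option linter.unusedSectionVars false

namespace Pool.Agent.P8H55.SM

open Pool.Agent.Results.MP_fc2b6d_co.Forests

/-- an injective endomorphism of a finite graph is surjective on adjacent pairs -/
theorem endo_surj {W : Type*} [Finite W] {H : SimpleGraph W} (g : W → W)
    (hg : Function.Injective g) (hadj : ∀ a b, H.Adj a b → H.Adj (g a) (g b)) {a b : W}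
    (hab : H.Adj a b) : ∃ a' b', H.Adj a' b' ∧ g a' = a ∧ g b' = b := by
  let G : {p : W × W // H.Adj p.1 p.2} → {p : W × W // H.Adj p.1 p.2} :=
    fun p => ⟨(g p.1.1, g p.1.2), hadj _ _ p.2⟩
  have hG : Function.Injective G := by
    rintro ⟨⟨a, b⟩, h⟩ ⟨⟨a', b'⟩, h'⟩ e
    have e1 := congrArg Subtype.val e
    have e2 := Prod.mk.inj e1
    apply Subtype.ext
    exact Prod.ext (hg e2.1) (hg e2.2)
  obtain ⟨⟨⟨a', b'⟩, h⟩, e⟩ := Finite.surjective_of_injective hG ⟨(a, b), hab⟩
  have e1 := Prod.mk.inj (congrArg Subtype.val e)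
  exact ⟨a', b', h, e1.1, e1.2⟩

/-- pairs of slots of different classes -/
abbrev Tp : Type := {p : Slot × Slot // p.1.1 ≠ p.2.1}

/-- the base graph of the cone host -/
def cbase (Y : Set Slot) : SimpleGraph (Slot × Bool) where
  Adj a b := a.1 = b.1 ∧ a.2 ≠ b.2 ∧ a.1 ∈ Y
  symm := ⟨fun a b h => ⟨h.1.symm, h.2.1.symm, h.1 ▸ h.2.2⟩⟩
  loopless := ⟨fun a h => h.2.1 rfl⟩

theorem cone_fail {W : Type} [Finite W] {H : SimpleGraph W} (r : W)
    (hr : ∀ w, w ≠ r → H.Adj r w) (q : ℕ) (hq : 2 ≤ q)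
    (hcomp : ∀ w, w ≠ r → (cmp H {r}ᶜ w).ncard = q) (a1 a2 : W) (h1 : a1 ≠ r) (h2 : a2 ≠ r)
    (hne : a2 ∉ cmp H {r}ᶜ a1) : Fail H := by
  have hcsub : ∀ w, w ≠ r → ∀ v ∈ cmp H {r}ᶜ w, v ≠ r := fun w hw v hv => cmp_sub (D := {r}ᶜ) hw hv
  have hpart : ∀ w, w ≠ r → ∃ v ∈ cmp H {r}ᶜ w, H.Adj w v := by
    intro w hw
    have hcn := cmp_cn (H := H) (D := {r}ᶜ) hw
    obtain ⟨a, -, ha, b, hb, hbn, hab⟩ := hcn.cross (Y := {w}) ⟨w, mem_cmp, rfl⟩ (by
      intro h
      have := Set.ncard_le_ncard h (Set.toFinite _)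
      rw [hcomp w hw, Set.ncard_singleton] at this
      omega)
    have : a = w := ha
    subst this
    exact ⟨b, hb, hab⟩
  obtain ⟨b1, hb1, hab1⟩ := hpart a1 h1
  obtain ⟨b2, hb2, hab2⟩ := hpart a2 h2
  have hb1r : b1 ≠ r := hcsub a1 h1 b1 hb1
  have hb2r : b2 ≠ r := hcsub a2 h2 b2 hb2
  -- the two components are disjoint
  have hdisj : ∀ v ∈ cmp H {r}ᶜ a1, v ∉ cmp H {r}ᶜ a2 := by
    intro v hv hv'
    exact hne (Relation.ReflTransGen.trans hv (cmp_symm hv'))
  have hnadj : ∀ v ∈ cmp H {r}ᶜ a1, ∀ u ∈ cmp H {r}ᶜ a2, ¬ H.Adj v u := by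
    intro v hv u hu hvu
    exact hdisj u (cmp_closed (D := {r}ᶜ) h1 hv (hcsub a2 h2 u hu) hvu) hu
  have ha1 : a1 ∈ cmp H {r}ᶜ a1 := mem_cmp
  have ha2 : a2 ∈ cmp H {r}ᶜ a2 := mem_cmp
  have n12 : a1 ≠ a2 := fun h => hdisj a1 ha1 (h ▸ ha2)
  have n1b2 : a1 ≠ b2 := fun h => hdisj a1 ha1 (h ▸ hb2)
  have nb12 : b1 ≠ a2 := fun h => hdisj b1 hb1 (h ▸ ha2)
  have nb1b2 : b1 ≠ b2 := fun h => hdisj b1 hb1 (h ▸ hb2)
  set U : Set W := {a1, b1, a2, b2} with hU
  -- the attaching maps
  set θ : Tp → U → Slot × Bool := fun t u =>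
    if u.1 = a1 then (t.1.1, false) else if u.1 = b1 then (t.1.1, true) else
      if u.1 = a2 then (t.1.2, false) else (t.1.2, true) with hθ
  have mU1 : a1 ∈ U := by simp [hU]
  have mU2 : b1 ∈ U := by simp [hU]
  have mU3 : a2 ∈ U := by simp [hU]
  have mU4 : b2 ∈ U := by simp [hU]
  have t1 : ∀ t (h : a1 ∈ U), θ t ⟨a1, h⟩ = (t.1.1, false) := fun t h => by simp [hθ]
  have t2 : ∀ t (h : b1 ∈ U), θ t ⟨b1, h⟩ = (t.1.1, true) := fun t h => by
    simp [hθ, hab1.ne']
  have t3 : ∀ t (h : a2 ∈ U), θ t ⟨a2, h⟩ = (t.1.2, false) := fun t h => by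
    simp [hθ, n12.symm, nb12.symm]
  have t4 : ∀ t (h : b2 ∈ U), θ t ⟨b2, h⟩ = (t.1.2, true) := fun t h => by
    simp [hθ, n1b2.symm, nb1b2.symm, hab2.ne']
  have hUc : ∀ u : U, u.1 = a1 ∨ u.1 = b1 ∨ u.1 = a2 ∨ u.1 = b2 := by
    rintro ⟨u, hu⟩
    simpa [hU] using hu
  have hθinj : ∀ t, Function.Injective (θ t) := by
    rintro t ⟨u, hu⟩ ⟨v, hv⟩ huv
    have ht : t.1.1 ≠ t.1.2 := fun h => t.2 (congrArg Sigma.fst h)
    have ht' := ht.symm
    rcases hUc ⟨u, hu⟩ with h | h | h | h <;> rcases hUc ⟨v, hv⟩ with h' | h' | h' | h' <;>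
      (simp only at h h'; subst h; subst h';
       simp only [t1, t2, t3, t4] at huv;
       first
        | rfl
        | exact absurd (congrArg Prod.snd huv) Bool.false_ne_true
        | exact absurd (congrArg Prod.snd huv).symm Bool.false_ne_true
        | exact absurd (congrArg Prod.fst huv) ht
        | exact absurd (congrArg Prod.fst huv) ht')
  -- adjacent pairs in `U`
  have hUadj : ∀ u u' : U, H.Adj u u' → (u.1 = a1 ∧ u'.1 = b1) ∨ (u.1 = b1 ∧ u'.1 = a1) ∨
      (u.1 = a2 ∧ u'.1 = b2) ∨ (u.1 = b2 ∧ u'.1 = a2) := by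
    rintro ⟨u, hu⟩ ⟨v, hv⟩ huv
    change H.Adj u v at huv
    rcases hUc ⟨u, hu⟩ with h | h | h | h <;> rcases hUc ⟨v, hv⟩ with h' | h' | h' | h' <;>
      (simp only at h h'; subst h; subst h';
       first
        | exact .inl ⟨rfl, rfl⟩
        | exact .inr (.inl ⟨rfl, rfl⟩)
        | exact .inr (.inr (.inl ⟨rfl, rfl⟩))
        | exact .inr (.inr (.inr ⟨rfl, rfl⟩))
        | exact absurd huv (H.loopless.irrefl _)
        | exact absurd huv (hnadj _ (by assumption) _ (by assumption))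
        | exact absurd huv.symm (hnadj _ (by assumption) _ (by assumption)))
  -- base edges project to edges of `H`
  have hproj : ∀ (t : Tp) (Y : Set Slot) (u u' : U), (cbase Y).Adj (θ t u) (θ t u') →
      H.Adj u u' := by
    rintro t Y ⟨u, hu⟩ ⟨v, hv⟩ huv
    have ht : t.1.1 ≠ t.1.2 := fun h => t.2 (congrArg Sigma.fst h)
    have ht' := ht.symm
    change H.Adj u v
    obtain ⟨e1, e2, -⟩ := huv
    rcases hUc ⟨u, hu⟩ with h | h | h | h <;> rcases hUc ⟨v, hv⟩ with h' | h' | h' | h' <;>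
      (simp only at h h'; subst h; subst h';
       first
        | exact hab1
        | exact hab1.symm
        | exact hab2
        | exact hab2.symm
        | exact absurd rfl e2
        | (simp only [t1, t2, t3, t4] at e1; exact absurd e1 ht)
        | (simp only [t1, t2, t3, t4] at e1; exact absurd e1 ht'))
  refine att_fail U θ cbase (fun x => (x, false)) (fun x => (x, true)) ?_ ?_ hθinj ?_ ?_
  · intro x y hxy
    have hxy' : s((x, false), (x, true)) = s((y, false), (y, true)) := hxy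
    rw [Sym2.eq_iff] at hxy'
    simp only [Prod.mk.injEq] at hxy'
    rcases hxy' with h | h
    · exact h.1.1
    · exact h.1.1
  · rintro Y ⟨x, i⟩ ⟨y, j⟩
    constructor
    · rintro ⟨h1, h2, h3⟩
      simp only at h1 h2 h3
      subst h1
      refine ⟨x, h3, ?_⟩
      cases i <;> cases j
      · exact absurd rfl h2
      · rfl
      · exact Sym2.eq_swap
      · exact absurd rfl h2
    · rintro ⟨z, hz, h⟩
      simp only [Sym2.eq_iff, Prod.mk.injEq] at h
      rcases h with ⟨⟨rfl, rfl⟩, rfl, rfl⟩ | ⟨⟨rfl, rfl⟩, rfl, rfl⟩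
      · exact ⟨rfl, by simp, hz⟩
      · exact ⟨rfl, by simp, hz⟩
  · -- freeness
    rintro n ⟨f⟩
    have hf := f.injective
    have hfadj : ∀ a b, H.Adj a b → (att H U (Set ℕ) θ (cbase {x | x.1 = n})).Adj (f a) (f b) :=
      fun a b hab => f.toHom.map_adj hab
    rcases hfr : f r with ⟨x, i⟩ | ⟨t, κ, w0⟩
    · -- the centre is a slot vertex
      have key : ∀ w, w ≠ r → ∃ v ∈ cmp H {r}ᶜ w, f v = .inl (x, !i) := by
        intro w hw
        by_contra hno
        push Not at hno
        have hpriv : ∀ v ∈ cmp H {r}ᶜ w, ∃ t κ p, f v = .inr (t, κ, p) ∧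
            ∃ u : U, θ t u = (x, i) ∧ H.Adj u p := by
          intro v hv
          have h3 := hfadj r v (hr v (hcsub w hw v hv))
          rw [hfr] at h3
          rcases hfv : f v with ⟨y, j⟩ | ⟨t, κ, p⟩
          · exfalso
            rw [hfv] at h3
            obtain ⟨e1, e2, -⟩ := h3
            simp only at e1 e2
            apply hno v hv
            rw [hfv, e1]
            congr 2
            cases i <;> cases j
            · exact absurd rfl e2
            · rfl
            · rfl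
            · exact absurd rfl e2
          · rw [hfv] at h3
            exact ⟨t, κ, p, rfl, h3⟩
        obtain ⟨t, κ, p, hp, u, hu, -⟩ := hpriv w mem_cmp
        have hall : ∀ v ∈ cmp H {r}ᶜ w, ∃ p : ↥Uᶜ, f v = .inr (t, κ, p) := by
          refine (cmp_cn (H := H) (D := {r}ᶜ) hw).2 {v | ∃ p : ↥Uᶜ, f v = .inr (t, κ, p)}
            ⟨w, mem_cmp, p, hp⟩ ?_
          rintro a - ⟨pa, hpa⟩ b hb hab
          obtain ⟨t', κ', pb, hpb, -⟩ := hpriv b hb
          have h3 := hfadj a b hab
          rw [hpa, hpb] at h3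
          obtain ⟨rfl, rfl, -⟩ := h3
          exact ⟨pb, hpb⟩
        -- all private vertices are adjacent to `u`
        have hall2 : ∀ v ∈ cmp H {r}ᶜ w, ∃ p : ↥Uᶜ, f v = .inr (t, κ, p) ∧ H.Adj u p := by
          intro v hv
          obtain ⟨p', hp'⟩ := hall v hv
          obtain ⟨t', κ', p'', hp'', u', hu', hadj⟩ := hpriv v hv
          have h3 := Sum.inr_injective (hp'.symm.trans hp'')
          have h4 := Prod.mk.inj h3
          have h5 := Prod.mk.inj h4.2
          have e1 : t' = t := h4.1.symm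
          have e2 : p'' = p' := h5.2.symm
          rw [e1, ← hu] at hu'
          have e3 := hθinj t hu'
          rw [e2, e3] at hadj
          exact ⟨p', hp', hadj⟩
        have : Nonempty ↥Uᶜ := ⟨p⟩
        choose! g hg hgadj using hall2
        -- count
        have hur : u.1 ≠ r := by
          rcases hUc u with h | h | h | h <;> rw [h]
          exacts [h1, hb1r, h2, hb2r]
        obtain ⟨p', hp'U, hp'c, hp'u⟩ : ∃ p' ∈ U, p' ∈ cmp H {r}ᶜ u.1 ∧ p' ≠ u.1 := by
          rcases hUc u with h | h | h | h <;> rw [h]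
          · exact ⟨b1, mU2, hb1, hab1.ne'⟩
          · exact ⟨a1, mU1, cmp_symm hb1, hab1.ne⟩
          · exact ⟨b2, mU4, hb2, hab2.ne'⟩
          · exact ⟨a2, mU3, cmp_symm hb2, hab2.ne⟩
        have hcount : (cmp H {r}ᶜ w).ncard ≤ (insert r (cmp H {r}ᶜ u.1 \ {u.1, p'})).ncard := by
          refine Set.ncard_le_ncard_of_injOn (fun v => (g v).1) ?_ ?_ (Set.toFinite _)
          · intro v hv
            have h3 := hgadj v hv
            by_cases h4 : (g v).1 = r
            · exact .inl h4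
            · right
              refine ⟨cmp_closed (D := {r}ᶜ) hur mem_cmp h4 h3, ?_⟩
              rintro (h5 | h5)
              · exact h3.ne' h5
              · have h6 : (g v).1 = p' := h5
                exact (g v).2 (h6 ▸ hp'U)
          · intro v hv v' hv' h
            apply hf
            change f v = f v'
            rw [hg v hv, hg v' hv', Subtype.ext h]
        have h3 := Set.ncard_insert_le r (cmp H {r}ᶜ u.1 \ {u.1, p'})
        have h4 : (cmp H {r}ᶜ u.1 \ {u.1, p'}).ncard + 2 = (cmp H {r}ᶜ u.1).ncard := by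
          rw [← Set.ncard_pair hp'u.symm]
          refine Set.ncard_sdiff_add_ncard_of_subset ?_ (Set.toFinite _)
          rintro v (rfl | rfl)
          · exact mem_cmp
          · exact hp'c
        rw [hcomp w hw] at hcount
        rw [hcomp u.1 hur] at h4
        omega
      obtain ⟨v1, hv1, e1⟩ := key a1 h1
      obtain ⟨v2, hv2, e2⟩ := key a2 h2
      have : v1 = v2 := hf (e1.trans e2.symm)
      exact hdisj v1 hv1 (this ▸ hv2)
    · -- the centre is a private vertex
      have hex : ∀ w, ∃ g : W, (w = r → g = w0.1) ∧ (w ≠ r → H.Adj w0 g) ∧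
          ((∃ h : g ∈ U, f w = .inl (θ t ⟨g, h⟩)) ∨ (∃ h : g ∈ Uᶜ, f w = .inr (t, κ, ⟨g, h⟩))) := by
        intro w
        by_cases hw : w = r
        · subst hw
          exact ⟨w0.1, fun _ => rfl, fun h => absurd rfl h, .inr ⟨w0.2, hfr⟩⟩
        · have h3 := hfadj r w (hr w hw)
          rw [hfr] at h3
          rcases hfw : f w with y | ⟨t', κ', p⟩
          · rw [hfw] at h3
            obtain ⟨u, rfl, hadj⟩ := h3
            exact ⟨u.1, fun h => absurd h hw, fun _ => hadj.symm, .inl ⟨u.2, rfl⟩⟩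
          · rw [hfw] at h3
            obtain ⟨rfl, rfl, hadj⟩ := h3
            exact ⟨p.1, fun h => absurd h hw, fun _ => hadj, .inr ⟨p.2, rfl⟩⟩
      choose g hg1 hg2 hg3 using hex
      have hginj : Function.Injective g := by
        intro a b hab
        apply hf
        change f a = f b
        rcases hg3 a with ⟨ha, ea⟩ | ⟨ha, ea⟩ <;> rcases hg3 b with ⟨hb, eb⟩ | ⟨hb, eb⟩
        · rw [ea, eb]
          congr 3
        · exact absurd (hab ▸ ha) hb
        · exact absurd (hab.symm ▸ hb) ha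
        · rw [ea, eb]
          congr 4
      by_cases hw0 : w0.1 = r
      · -- a full private copy
        have hgadj : ∀ a b, H.Adj a b → H.Adj (g a) (g b) := by
          intro a b hab
          have h3 := hfadj a b hab
          rcases hg3 a with ⟨ha, ea⟩ | ⟨ha, ea⟩ <;> rcases hg3 b with ⟨hb, eb⟩ | ⟨hb, eb⟩
          · rw [ea, eb] at h3
            exact hproj t _ _ _ h3
          · rw [ea, eb] at h3
            obtain ⟨u, hu, hadj⟩ := h3
            rw [hθinj t hu] at hadj
            exact hadj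
          · rw [ea, eb] at h3
            obtain ⟨u, hu, hadj⟩ := h3
            rw [hθinj t hu] at hadj
            exact hadj.symm
          · rw [ea, eb] at h3
            exact h3.2.2
        have hU' : ∀ w (h : g w ∈ U), f w = .inl (θ t ⟨g w, h⟩) := by
          intro w h
          rcases hg3 w with ⟨_, e⟩ | ⟨h', _⟩
          · exact e
          · exact absurd h h'
        obtain ⟨c, d, hcd, hc, hd⟩ := endo_surj g hginj hgadj hab1
        obtain ⟨c', d', hcd', hc', hd'⟩ := endo_surj g hginj hgadj hab2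
        have e1 : t.1.1.1 = n := by
          have h3 := hfadj c d hcd
          rw [hU' c (hc ▸ mU1), hU' d (hd ▸ mU2)] at h3
          have h4 : (cbase {x | x.1 = n}).Adj (θ t ⟨g c, hc ▸ mU1⟩) (θ t ⟨g d, hd ▸ mU2⟩) := h3
          have h5 : θ t ⟨g c, hc ▸ mU1⟩ = (t.1.1, false) := by
            rw [← t1 t mU1]
            congr 1
            exact Subtype.ext hc
          rw [h5] at h4
          exact h4.2.2
        have e2 : t.1.2.1 = n := by
          have h3 := hfadj c' d' hcd'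
          rw [hU' c' (hc' ▸ mU3), hU' d' (hd' ▸ mU4)] at h3
          have h4 : (cbase {x | x.1 = n}).Adj (θ t ⟨g c', hc' ▸ mU3⟩) (θ t ⟨g d', hd' ▸ mU4⟩) := h3
          have h5 : θ t ⟨g c', hc' ▸ mU3⟩ = (t.1.2, false) := by
            rw [← t3 t mU3]
            congr 1
            exact Subtype.ext hc'
          rw [h5] at h4
          exact h4.2.2
        exact t.2 (e1.trans e2.symm)
      · -- too few neighbours
        have h3 : ({r}ᶜ : Set W).ncard ≤ (insert r (cmp H {r}ᶜ w0.1 \ {w0.1})).ncard := by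
          refine Set.ncard_le_ncard_of_injOn g ?_ hginj.injOn (Set.toFinite _)
          intro w hw
          have h4 := hg2 w hw
          by_cases h5 : g w = r
          · exact .inl h5
          · exact .inr ⟨cmp_closed (D := {r}ᶜ) hw0 mem_cmp h5 h4, h4.ne'⟩
        have h4 := Set.ncard_insert_le r (cmp H {r}ᶜ w0.1 \ {w0.1})
        have h5 : (cmp H {r}ᶜ w0.1 \ {w0.1}).ncard + 1 = (cmp H {r}ᶜ w0.1).ncard :=
          Set.ncard_sdiff_singleton_add_one mem_cmp (Set.toFinite _)
        rw [hcomp _ hw0] at h5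
        have h6 : (cmp H {r}ᶜ a1 ∪ cmp H {r}ᶜ a2).ncard ≤ ({r}ᶜ : Set W).ncard := by
          refine Set.ncard_le_ncard ?_ (Set.toFinite _)
          rintro v (hv | hv)
          · exact hcsub a1 h1 v hv
          · exact hcsub a2 h2 v hv
        have h7 : (cmp H {r}ᶜ a1 ∪ cmp H {r}ᶜ a2).ncard = q + q := by
          rw [Set.ncard_union_eq ?_ (Set.toFinite _) (Set.toFinite _), hcomp a1 h1, hcomp a2 h2]
          rw [Set.disjoint_left]
          exact hdisj
        omega
  · -- the base condition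
    intro Y hY
    obtain ⟨n1, ⟨x, hx, rfl⟩, n2, ⟨y, hy, rfl⟩, hxy⟩ := (classes_infinite hY).nontrivial
    refine ⟨⟨(x, y), hxy⟩, ?_⟩
    intro u u' huu
    obtain ⟨u, hu⟩ := u
    obtain ⟨v, hv⟩ := u'
    rcases hUadj ⟨u, hu⟩ ⟨v, hv⟩ huu with ⟨h, h'⟩ | ⟨h, h'⟩ | ⟨h, h'⟩ | ⟨h, h'⟩ <;>
      (simp only at h h'; subst h; subst h')
    · exact ⟨x, hx, by rw [t1, t2]⟩
    · exact ⟨x, hx, by rw [t1, t2]; exact Sym2.eq_swap⟩
    · exact ⟨y, hy, by rw [t3, t4]⟩
    · exact ⟨y, hy, by rw [t3, t4]; exact Sym2.eq_swap⟩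

end Pool.Agent.P8H55.SM
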