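import Pool.Agent.P8H55.SM.Wind
import Pool.Agent.P8H55.SM.Cone
import Pool.Agent.Y587.FL.Hang

/-!
# Graphs with a cut vertex
-/

open SimpleGraph Cardinal
open scoped Classical

set_option linter.unusedSectionVars false

namespace Pool.Agent.P8H55.SM

open Pool.Agent.Results.MP_fc2b6d_co.Forests Pool.Agent.H165R2.SM

theorem Cn.preconnected2 {W : Type*} {H : SimpleGraph W} {Z : Set W} {v : Z}
    (h : Cn H (Z \ {v.1})) : ((H.induce Z).induce {v}ᶜ).Preconnected := by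
  intro u w
  have hmem : ∀ u : ↥({v}ᶜ : Set Z), u.1.1 ∈ Z \ {v.1} := by
    intro u
    refine ⟨u.1.2, fun h' => u.2 ?_⟩
    exact Subtype.ext h'
  have h1 := h.2 {x | ∃ (hx : x ∈ Z) (hv : (⟨x, hx⟩ : Z) ∈ ({v}ᶜ : Set Z)),
    ((H.induce Z).induce {v}ᶜ).Reachable u ⟨⟨x, hx⟩, hv⟩} ⟨u.1.1, hmem u, u.1.2, u.2, ?_⟩ ?_
    (hmem w)
  · obtain ⟨_, _, h1⟩ := h1
    exact h1
  · exact Reachable.refl _
  · rintro a ha ⟨_, _, hr⟩ b hb hab
    refine ⟨hb.1, fun h' => hb.2 (Subtype.mk.inj h'), hr.trans (Adj.reachable ?_)⟩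
    exact hab

section
variable {W : Type} [Finite W] {H : SimpleGraph W} {k : ℕ}

theorem no_small (S : Setup H k) {Q : Set W} {w : W} (hne : Q.Nonempty) (hk : Q.ncard < k)
    (hw : w ∉ Q) (hcl : ∀ a ∈ Q, ∀ b, H.Adj a b → b ∈ Q ∨ b = w) : False := by
  obtain ⟨q, hq⟩ := hne
  have hsub := cmp_sub (H := H) hq
  have hnb : ∀ a ∈ Nb H (cmp H Q q), a = w := by
    rintro a ⟨ha, b, hb, hba⟩
    rcases hcl b (hsub hb) a hba with h | h
    · exact absurd (cmp_closed hq hb h hba) ha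
    · exact h
  obtain ⟨x, hx⟩ := fr_of S.conn (cmp_cn hq) (fun h => hw (hsub (h ▸ trivial)))
    (fun a ha b hb => (hnb a ha).trans (hnb b hb).symm)
  have h1 := S.min x _ hx
  have h2 := Set.ncard_le_ncard hsub (Set.toFinite _)
  omega

/-- all parts are attached at the vertex `z`, one of them has a vertex not adjacent to `z` -/
theorem hang_case (S : Setup H k) {z : W} (T : Str H k z) (hall : ∀ w ∈ Inn H k, w = z)
    {X1 X2 : Set W} (hX1 : Mb H k z X1) (hX2 : Mb H k z X2) (hne : X1 ≠ X2) {c : W} (hc : c ∈ X1)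
    (hzc : ¬ H.Adj z c) : Fail H := by
  set Z : Set W := insert z X1 with hZ
  have hmem : ∀ a : Z, a.1 = z ∨ a.1 ∈ X1 := fun a => a.2
  obtain ⟨a0, ha0, ha0z⟩ := hX1.1.nb
  have hZcn : Cn H Z := by
    refine ⟨⟨z, .inl rfl⟩, ?_⟩
    rintro Y ⟨a, ha, haY⟩ hY
    have h1 : X1 ⊆ Y := by
      refine hX1.1.cn.2 Y ?_ (fun a ha haY b hb hab => hY a (.inr ha) haY b (.inr hb) hab)
      rcases ha with rfl | ha
      · exact ⟨a0, ha0, hY a (.inl rfl) haY a0 (.inr ha0) ha0z.symm⟩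
      · exact ⟨a, ha, haY⟩
    rintro b (rfl | hb)
    · exact hY a0 (.inr ha0) (h1 ha0) b (.inl rfl) ha0z
    · exact h1 hb
  have hcut : ∀ v : Z, ((H.induce Z).induce {v}ᶜ).Preconnected := by
    intro v
    apply Cn.preconnected2
    rcases hmem v with hv | hv
    · have : Z \ {v.1} = X1 := by
        rw [hv, hZ, Set.insert_sdiff_self_of_notMem hX1.1.out]
      rw [this]
      exact hX1.1.cn
    · have hvz : v.1 ≠ z := fun h => hX1.1.out (h ▸ hv)
      have hzZ : z ∈ Z \ {v.1} := ⟨.inl rfl, fun h => hvz h.symm⟩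
      refine ⟨⟨z, hzZ⟩, ?_⟩
      intro Y hYm hY
      -- a closed part without `z` is impossible
      have key : ∀ Q ⊆ Z \ {v.1}, z ∉ Q → Q.Nonempty →
          (∀ a ∈ Q, ∀ b ∈ Z \ {v.1}, H.Adj a b → b ∈ Q) → False := by
        intro Q hQ hzQ hQne hQcl
        have hQX : Q ⊆ X1 \ {v.1} := by
          intro a ha
          rcases (hQ ha).1 with h | h
          · exact absurd (h ▸ ha) hzQ
          · exact ⟨h, (hQ ha).2⟩
        refine no_small S (w := v.1) hQne ?_ (fun h => (hQX h).2 rfl) ?_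
        · rw [← hX1.2]
          refine Set.ncard_lt_ncard ⟨fun a ha => (hQX ha).1, fun h => ?_⟩ (Set.toFinite _)
          exact (hQX (h hv)).2 rfl
        · intro a ha b hab
          by_cases hbv : b = v.1
          · exact .inr hbv
          · left
            rcases hX1.1.cl a (hQX ha).1 b hab with h | h
            · exact hQcl a ha b ⟨.inr h, hbv⟩ hab
            · exact hQcl a ha b (h ▸ hzZ) hab
      by_contra hno
      obtain ⟨b, hbZ, hbY⟩ := Set.not_subset.1 hno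
      obtain ⟨a, haZ, haY⟩ := hYm
      by_cases hzY : z ∈ Y
      · refine key ((Z \ {v.1}) \ Y) Set.sdiff_subset (fun h => h.2 hzY) ⟨b, hbZ, hbY⟩ ?_
        rintro a ⟨ha, haY⟩ b hb hab
        exact ⟨hb, fun hbY => haY (hY b hb hbY a ha hab.symm)⟩
      · refine key ((Z \ {v.1}) ∩ Y) Set.inter_subset_left (fun h => hzY h.2) ⟨a, haZ, haY⟩ ?_
        rintro a ⟨ha, haY⟩ b hb hab
        exact ⟨hb, hY a ha haY b hb hab⟩
  -- the copies
  choose φ h1 h2 h3 h4 using fun X : {X // Mb H k z X} => T.le z X1 z X.1 hX1 X.2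
  have hcl1 : ∀ a : Z, a.1 ≠ z → a.1 ∈ X1 := fun a h => (hmem a).resolve_left h
  have hadj : ∀ (i : {X // Mb H k z X}) (a b : Z), (H.induce Z).Adj a b →
      H.Adj (φ i a.1) (φ i b.1) := by
    intro i a b hab
    have hab' : H.Adj a.1 b.1 := hab
    by_cases ha : a.1 = z
    · have hb : b.1 ≠ z := fun h => hab'.ne (ha.trans h.symm)
      exact (h4 i b.1 (hcl1 b hb) a.1 hab'.symm).symm
    · exact h4 i a.1 (hcl1 a ha) b.1 hab'
  -- every edge is in a copy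
  have hin : ∀ w, w ≠ z → ∃ X, Mb H k z X ∧ w ∈ X := by
    intro w hw
    by_contra hno
    apply hw
    apply hall
    intro x X hX hwX
    have hxz : x = z := hall x (root_inn S hX)
    subst hxz
    exact hno ⟨X, hX, hwX⟩
  have hsurj : ∀ (i : {X // Mb H k z X}), ∀ x ∈ i.1, ∃ a ∈ X1, φ i a = x := by
    intro i x hx
    have h5 : φ i '' X1 = i.1 := by
      refine Set.eq_of_subset_of_ncard_le ?_ ?_ (Set.toFinite _)
      · rintro _ ⟨a, ha, rfl⟩
        exact h2 i a ha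
      · rw [(h1 i).ncard_image, hX1.2, i.2.2]
    rw [← h5] at hx
    exact hx
  have hedge : ∀ x y, x ≠ z → H.Adj x y → ∃ (i : {X // Mb H k z X}) (a b : Z),
      (H.induce Z).Adj a b ∧ x = φ i a.1 ∧ y = φ i b.1 := by
    intro x y hxz hxy
    obtain ⟨X, hX, hxX⟩ := hin x hxz
    obtain ⟨a, ha, hax⟩ := hsurj ⟨X, hX⟩ x hxX
    obtain ⟨b, hb, hby⟩ : ∃ b ∈ Z, φ ⟨X, hX⟩ b = y := by
      rcases hX.1.cl x hxX y hxy with h | h
      · obtain ⟨b, hb, hb'⟩ := hsurj ⟨X, hX⟩ y h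
        exact ⟨b, .inr hb, hb'⟩
      · exact ⟨z, .inl rfl, (h3 ⟨X, hX⟩).trans h.symm⟩
    refine ⟨⟨X, hX⟩, ⟨a, .inr ha⟩, ⟨b, hb⟩, ?_, hax.symm, hby.symm⟩
    change H.Adj a b
    obtain ⟨ψ, g1, g2, g3, g4⟩ := T.le z X z X1 hX hX1
    have hθ : ∀ w ∈ Z, ψ (φ ⟨X, hX⟩ w) ∈ Z := by
      rintro w (rfl | hw)
      · rw [h3, g3]
        exact .inl rfl
      · exact .inr (g2 _ (h2 ⟨X, hX⟩ w hw))
    have hθX : ∀ w ∈ X1, ψ (φ ⟨X, hX⟩ w) ∈ X1 := fun w hw => g2 _ (h2 ⟨X, hX⟩ w hw)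
    have hθinj : Function.Injective (fun w : Z => (⟨ψ (φ ⟨X, hX⟩ w.1), hθ w.1 w.2⟩ : Z)) := by
      rintro ⟨w, hw⟩ ⟨w', hw'⟩ h
      have h' : ψ (φ ⟨X, hX⟩ w) = ψ (φ ⟨X, hX⟩ w') := Subtype.mk.inj h
      apply Subtype.ext
      change w = w'
      rcases hw with hw | hw <;> rcases hw' with hw' | hw'
      · exact hw.trans hw'.symm
      · rw [hw, h3, g3] at h'
        exact absurd (h' ▸ hθX w' hw') hX1.1.out
      · rw [hw', h3, g3] at h'
        exact absurd (h' ▸ hθX w hw) hX1.1.out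
      · exact h1 ⟨X, hX⟩ hw hw' (g1 (h2 ⟨X, hX⟩ w hw) (h2 ⟨X, hX⟩ w' hw') h')
    have hθadj : ∀ u v : Z, (H.induce Z).Adj u v →
        (H.induce Z).Adj ⟨ψ (φ ⟨X, hX⟩ u.1), hθ u.1 u.2⟩ ⟨ψ (φ ⟨X, hX⟩ v.1), hθ v.1 v.2⟩ := by
      intro u v huv
      change H.Adj (ψ (φ ⟨X, hX⟩ u.1)) (ψ (φ ⟨X, hX⟩ v.1))
      have h5 := hadj ⟨X, hX⟩ u v huv
      have huv' : H.Adj u.1 v.1 := huv
      by_cases hu : u.1 = z
      · have hv : v.1 ≠ z := fun h => huv'.ne (hu.trans h.symm)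
        exact (g4 _ (h2 ⟨X, hX⟩ v.1 (hcl1 v hv)) _ h5.symm).symm
      · exact g4 _ (h2 ⟨X, hX⟩ u.1 (hcl1 u hu)) _ h5
    have h6 : (H.induce Z).Adj ⟨ψ (φ ⟨X, hX⟩ a), hθ a (.inr ha)⟩ ⟨ψ (φ ⟨X, hX⟩ b), hθ b hb⟩ := by
      change H.Adj (ψ (φ ⟨X, hX⟩ a)) (ψ (φ ⟨X, hX⟩ b))
      rw [hax, hby]
      exact g4 x hxX y hxy
    obtain ⟨a', b', h7, h8, h9⟩ := endo_surj _ hθinj hθadj h6
    have h10 : a' = ⟨a, .inr ha⟩ := hθinj h8
    have h11 : b' = ⟨b, hb⟩ := hθinj h9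
    rw [h10, h11] at h7
    exact h7
  have hcz : c ≠ z := fun h => hX1.1.out (h ▸ hc)
  have hH : Pool.Agent.Y587.FL.Hang H (H.induce Z) ⟨z, .inl rfl⟩ z
      (fun (i : {X // Mb H k z X}) (a : Z) => φ i a.1) := by
    refine ⟨fun i => h3 i, ?_, hadj, ?_⟩
    · intro i j a b hab
      change φ i a.1 = φ j b.1 at hab
      by_cases ha : a.1 = z <;> by_cases hb : b.1 = z
      · exact .inr ⟨Subtype.ext ha, Subtype.ext hb⟩
      · rw [ha, h3 i] at hab
        have m2 := h2 j b.1 (hcl1 b hb)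
        rw [← hab] at m2
        exact absurd m2 j.2.1.out
      · rw [hb, h3 j] at hab
        have m2 := h2 i a.1 (hcl1 a ha)
        rw [hab] at m2
        exact absurd m2 i.2.1.out
      · left
        have m1 := h2 i a.1 (hcl1 a ha)
        have m2 := h2 j b.1 (hcl1 b hb)
        rw [← hab] at m2
        have hij : i = j := Subtype.ext (i.2.disj S j.2 ⟨_, m1, m2⟩)
        subst hij
        exact ⟨rfl, Subtype.ext (h1 i (hcl1 a ha) (hcl1 b hb) hab)⟩
    · intro x y hxy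
      left
      by_cases hx : x = z
      · have hy : y ≠ z := fun h => hxy.ne (hx.trans h.symm)
        obtain ⟨i, a, b, hab, e1, e2⟩ := hedge y x hy hxy.symm
        exact ⟨i, b, a, hab.symm, e2, e1⟩
      · exact hedge x y hx hxy
  refine Pool.Agent.Y587.FL.hang_step (H := H) (K := H.induce Z) ?_ hcut ?_
    (⟨z, .inl rfl⟩ : Z) (⟨c, .inr hc⟩ : Z) ?_ ?_ z _ hH ⟨X1, hX1⟩ ⟨X2, hX2⟩ ?_ ?_
  · have : Nonempty Z := ⟨⟨z, .inl rfl⟩⟩
    exact ⟨hZcn.preconnected⟩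
  · exact ⟨⟨a0, .inr ha0⟩, ⟨z, .inl rfl⟩, ha0z⟩
  · intro h
    exact hcz (Subtype.mk.inj h).symm
  · exact hzc
  · intro h
    exact hne (Subtype.mk.inj h)
  · rintro ⟨f⟩
    have h5 := f.toHom.map_adj (show (H.induce Z).Adj ⟨a0, .inr ha0⟩ ⟨z, .inl rfl⟩ from ha0z)
    obtain ⟨h6, h7, h8⟩ := h5
    rcases hH.dec _ _ h6 with ⟨i, a, b, hab, e1, e2⟩ | ⟨h9, h10⟩
    · have e3 := h7 i a e1
      have e4 := h8 i b e2
      rw [e3, e4] at hab
      exact hab.ne rfl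
    · -- impossible: every edge is in a copy
      by_cases hx : f.toHom ⟨a0, .inr ha0⟩ = z
      · have hy : f.toHom ⟨z, .inl rfl⟩ ≠ z := fun h => h6.ne (hx.trans h.symm)
        obtain ⟨i, a, b, hab, e1, e2⟩ := hedge _ _ hy h6.symm
        have e3 := h7 i b e2
        have e4 := h8 i a e1
        rw [e3, e4] at hab
        exact hab.ne rfl
      · obtain ⟨i, a, b, hab, e1, e2⟩ := hedge _ _ hx h6
        have e3 := h7 i a e1
        have e4 := h8 i b e2
        rw [e3, e4] at hab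
        exact hab.ne rfl

/-- connected graphs with a cut vertex -/
theorem cut_step (hconn : H.Preconnected) (hdeg : ∀ v, ∃ a b, a ≠ b ∧ H.Adj v a ∧ H.Adj v b)
    (c : W) (hcut : ¬ (H.induce {c}ᶜ).Preconnected)
    (IH : ∀ U : Set W, U ≠ Set.univ → ¬ IsStar (H.induce U) → Fail (H.induce U)) : Fail H := by
  -- parts at the cut vertex
  have hfr : ∀ u, u ≠ c → Fr H c (cmp H {c}ᶜ u) := by
    intro u hu
    have hcn := cmp_cn (H := H) (D := {c}ᶜ) hu
    have hout : c ∉ cmp H {c}ᶜ u := fun h => cmp_sub (D := {c}ᶜ) hu h rfl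
    have hcl : ∀ a ∈ cmp H {c}ᶜ u, ∀ b, H.Adj a b → b ∈ cmp H {c}ᶜ u ∨ b = c := by
      intro a ha b hab
      by_cases hb : b = c
      · exact .inr hb
      · exact .inl (cmp_closed (D := {c}ᶜ) hu ha hb hab)
    refine ⟨hcn, hout, ?_, hcl⟩
    by_contra hno
    apply hout
    have : cmp H {c}ᶜ u = Set.univ := by
      refine closed_univ hconn hcn.1 ?_
      intro a ha b hab
      rcases hcl a ha b hab with h | h
      · exact h
      · subst h
        exact absurd ⟨a, ha, hab⟩ hno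
    rw [this]
    trivial
  obtain ⟨X, hX, hX2⟩ : ∃ X, Fr H c X ∧ 2 * X.ncard < Nat.card W := by
    unfold SimpleGraph.Preconnected at hcut
    push Not at hcut
    obtain ⟨u, v, huv⟩ := hcut
    have hdisj : Disjoint (cmp H {c}ᶜ u.1) (cmp H {c}ᶜ v.1) := by
      rw [Set.disjoint_left]
      intro w hwu hwv
      apply huv
      have hr : ∀ w (h : w ∈ cmp H {c}ᶜ u.1), ∃ hw : w ∈ ({c}ᶜ : Set W),
          (H.induce {c}ᶜ).Reachable u ⟨w, hw⟩ := by
        intro w h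
        induction h with
        | refl => exact ⟨u.2, Reachable.refl _⟩
        | tail _ h ih =>
          obtain ⟨_, ih⟩ := ih
          exact ⟨h.2.2, ih.trans (Adj.reachable h.1)⟩
      have : v.1 ∈ cmp H {c}ᶜ u.1 := Relation.ReflTransGen.trans hwu (cmp_symm hwv)
      obtain ⟨_, h⟩ := hr _ this
      exact h
    have h1 : (cmp H {c}ᶜ u.1 ∪ cmp H {c}ᶜ v.1).ncard < Nat.card W := by
      rw [← Set.ncard_univ]
      refine Set.ncard_lt_ncard ⟨Set.subset_univ _, fun h => ?_⟩ (Set.toFinite _)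
      rcases h (trivial : c ∈ Set.univ) with h | h
      · exact (hfr u.1 u.2).out h
      · exact (hfr v.1 v.2).out h
    rw [Set.ncard_union_eq hdisj (Set.toFinite _) (Set.toFinite _)] at h1
    by_cases h : (cmp H {c}ᶜ u.1).ncard ≤ (cmp H {c}ᶜ v.1).ncard
    · exact ⟨_, hfr u.1 u.2, by omega⟩
    · exact ⟨_, hfr v.1 v.2, by omega⟩
  have hex : ∃ n, ∃ x X, Fr H x X ∧ X.ncard = n := ⟨_, c, X, hX, rfl⟩
  set k := Nat.find hex with hk
  have S : Setup H k := by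
    refine ⟨hconn, hdeg, Nat.find_spec hex, ?_, ?_⟩
    · intro x Y hY
      exact Nat.find_min' hex ⟨x, Y, hY, rfl⟩
    · have := Nat.find_min' hex ⟨c, X, hX, rfl⟩
      omega
  by_contra hfail
  obtain ⟨x0, X0, h0, h0k⟩ := S.ex
  have h00 : Mb H k x0 X0 := ⟨h0, h0k⟩
  have hle : ∀ x X y Y, Mb H k x X → Mb H k y Y → Le H x X y Y :=
    fun x X y Y hX hY => (step1 S IH hfail hY).2 x X hX
  obtain ⟨⟨z, hz⟩, hstar⟩ := (step1 S IH hfail h00).1
  have hInn : ∀ w, w ∈ Inn H k → w ∈ (Pd H k x0 X0)ᶜ := by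
    rintro w hw ⟨x, X, hX, -, hwX⟩
    exact hw x X hX hwX
  have hzI : z ∈ Inn H k := by
    intro x X hX hzX
    exact hz ⟨x, X, hX, hle _ _ _ _ hX h00, hzX⟩
  have T : Str H k z := by
    refine ⟨hzI, ?_, hle⟩
    intro a ha b hb hab
    rcases hstar ⟨a, hInn a ha⟩ ⟨b, hInn b hb⟩ hab with h | h
    · exact .inl (Subtype.mk.inj h)
    · exact .inr (Subtype.mk.inj h)
  by_cases hall : ∀ w ∈ Inn H k, w = z
  swap
  · push Not at hall
    obtain ⟨l0, hl0, hl0z⟩ := hall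
    exact hfail (wind_step S T IH hl0 hl0z)
  have hroot : ∀ x X, Mb H k x X → x = z := fun x X hX => hall x (root_inn S hX)
  have hin : ∀ w, w ≠ z → ∃ X, Mb H k z X ∧ w ∈ X := by
    intro w hw
    by_contra hno
    apply hw
    apply hall
    intro x X hX hwX
    have hxz := hroot x X hX
    subst hxz
    exact hno ⟨X, hX, hwX⟩
  have hx0 := hroot x0 X0 h00
  subst hx0
  -- every part has a second one
  have htwo : ∀ X, Mb H k x0 X → ∃ Y, Mb H k x0 Y ∧ X ≠ Y := by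
    intro X hX
    by_contra hno
    push Not at hno
    have hu : insert x0 X = Set.univ := by
      apply Set.eq_univ_of_forall
      intro w
      by_cases hw : w = x0
      · exact .inl hw
      · obtain ⟨Y, hY, hwY⟩ := hin w hw
        rw [← hno Y hY] at hwY
        exact .inr hwY
    have h1 := Set.ncard_insert_le x0 X
    rw [hu, Set.ncard_univ, hX.2] at h1
    have h2 := S.big
    obtain ⟨a, ha⟩ := hX.1.cn.1
    have h3 : 0 < X.ncard := (Set.ncard_pos (Set.toFinite _)).2 ⟨a, ha⟩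
    rw [hX.2] at h3
    omega
  by_cases hdom : ∃ X, Mb H k x0 X ∧ ∃ c ∈ X, ¬ H.Adj x0 c
  · obtain ⟨X, hX, c, hc, hzc⟩ := hdom
    obtain ⟨Y, hY, hXY⟩ := htwo X hX
    exact hfail (hang_case S T hall hX hY hXY hc hzc)
  · push Not at hdom
    have hcmp : ∀ X, Mb H k x0 X → ∀ w ∈ X, cmp H {x0}ᶜ w = X := by
      intro X hX w hw
      have hwz : w ≠ x0 := fun h => hX.1.out (h ▸ hw)
      apply Set.Subset.antisymm
      · refine (cmp_cn (H := H) (D := {x0}ᶜ) hwz).2 X ⟨w, mem_cmp, hw⟩ ?_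
        intro a _ haX b hb hab
        rcases hX.1.cl a haX b hab with h | h
        · exact h
        · exact absurd h (cmp_sub (D := {x0}ᶜ) hwz hb)
      · refine hX.1.cn.2 _ ⟨w, hw, mem_cmp⟩ ?_
        intro a _ hac b hb hab
        exact cmp_closed (D := {x0}ᶜ) hwz hac (fun h => hX.1.out (h ▸ hb)) hab
    obtain ⟨Y, hY, hXY⟩ := htwo X0 h00
    obtain ⟨a1, ha1⟩ := h00.1.cn.1
    obtain ⟨a2, ha2⟩ := hY.1.cn.1
    apply hfail
    refine cone_fail x0 ?_ k ?_ ?_ a1 a2 (fun h => h00.1.out (h ▸ ha1))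
      (fun h => hY.1.out (h ▸ ha2)) ?_
    · intro w hw
      obtain ⟨X, hX, hwX⟩ := hin w hw
      exact hdom X hX w hwX
    · obtain ⟨b, hb, hba⟩ := h00.two_le S ha1
      rw [← h00.2]
      rw [← Set.ncard_pair hba]
      refine Set.ncard_le_ncard ?_ (Set.toFinite _)
      rintro x (rfl | rfl)
      · exact hb
      · exact ha1
    · intro w hw
      obtain ⟨X, hX, hwX⟩ := hin w hw
      rw [hcmp X hX w hwX]
      exact hX.2
    · rw [hcmp X0 h00 a1 ha1]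
      intro h
      exact hXY (h00.disj S hY ⟨a2, h, ha2⟩)

end

end Pool.Agent.P8H55.SM
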