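import Pool.Agent.P8H55.SM.Asm
import Pool.Agent.P8H52.SM.TwoConn

/-!
# All finite graphs which are not stars fail
-/

open SimpleGraph

namespace Pool.Agent.P8H55.SM

open Pool.Agent.Results.MP_fc2b6d_co.Forests

theorem finite_fail {W : Type} [Finite W] (H : SimpleGraph W) (hs : ¬ IsStar H) : Fail H := by
  have htwo : TwoCase := by
    intro W _ H h3 hconn hcut _ IH
    exact Pool.Agent.P8H52.SM.twoconn_step h3 hconn hcut IH
  exact fail_aux htwo (Nat.card W) W H rfl hs

end Pool.Agent.P8H55.SM
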