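import Pool.Agent.P8H55.SM.PP

/-!
# Smallest parts behind a cut vertex
-/

open SimpleGraph
open scoped Classical

set_option linter.unusedSectionVars false

namespace Pool.Agent.P8H55.SM

open Pool.Agent.Results.MP_fc2b6d_co.Forests Pool.Agent.H165R2.SM

/-- `X` is connected and `x` is its only outer neighbour -/
structure Fr {W : Type*} (H : SimpleGraph W) (x : W) (X : Set W) : Prop where
  cn : Cn H X
  out : x ∉ X
  nb : ∃ a ∈ X, H.Adj a x
  cl : ∀ a ∈ X, ∀ b, H.Adj a b → b ∈ X ∨ b = x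

/-- the standing assumptions; `k` is the smallest size of a part -/
structure Setup {W : Type*} (H : SimpleGraph W) (k : ℕ) : Prop where
  conn : H.Preconnected
  deg : ∀ v, ∃ a b, a ≠ b ∧ H.Adj v a ∧ H.Adj v b
  ex : ∃ x X, Fr H x X ∧ X.ncard = k
  min : ∀ x X, Fr H x X → k ≤ X.ncard
  big : 2 * k < Nat.card W

/-- a smallest part -/
def Mb {W : Type*} (H : SimpleGraph W) (k : ℕ) (x : W) (X : Set W) : Prop :=
  Fr H x X ∧ X.ncard = k

section
variable {W : Type*} [Finite W] {H : SimpleGraph W} {k : ℕ}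

theorem closed_univ (h : H.Preconnected) {Q : Set W} (hne : Q.Nonempty)
    (hcl : ∀ a ∈ Q, ∀ b, H.Adj a b → b ∈ Q) : Q = Set.univ := by
  obtain ⟨a, ha⟩ := hne
  apply Set.eq_univ_of_univ_subset
  exact (cn_univ h a).2 Q ⟨a, trivial, ha⟩ fun a _ ha b _ hab => hcl a ha b hab

/-- a connected set with at most one outer neighbour which is not everything -/
theorem fr_of (h : H.Preconnected) {X : Set W} (hX : Cn H X) (hne : X ≠ Set.univ)
    (h1 : ∀ a ∈ Nb H X, ∀ b ∈ Nb H X, a = b) : ∃ x, Fr H x X := by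
  by_cases hn : (Nb H X).Nonempty
  · obtain ⟨x, hx⟩ := hn
    refine ⟨x, hX, hx.1, ?_, ?_⟩
    · obtain ⟨-, a, ha, hax⟩ := hx
      exact ⟨a, ha, hax⟩
    · intro a ha b hab
      by_cases hb : b ∈ X
      · exact .inl hb
      · exact .inr (h1 b ⟨hb, a, ha, hab⟩ x hx)
  · exfalso
    apply hne
    refine closed_univ h hX.1 ?_
    intro a ha b hab
    by_contra hb
    exact hn ⟨b, hb, a, ha, hab⟩

theorem Fr.ne_univ {x : W} {X : Set W} (h : Fr H x X) : X ≠ Set.univ := by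
  intro e
  exact h.out (e ▸ trivial)

variable (S : Setup H k)
include S

theorem Mb.disj {x y : W} {X Y : Set W} (hX : Mb H k x X) (hY : Mb H k y Y)
    (hXY : ∃ a ∈ X, a ∈ Y) : X = Y := by
  by_contra hne
  have h1 : ¬ X ⊆ Y := fun h => hne (Set.eq_of_subset_of_ncard_le h (by rw [hX.2, hY.2]))
  have h2 : ¬ Y ⊆ X := fun h => hne (Set.eq_of_subset_of_ncard_le h (by rw [hX.2, hY.2])).symm
  obtain ⟨a, ha, haY, b, hb, hbY, hab⟩ := hX.1.cn.cross hXY h1
  obtain ⟨a', ha', haX, b', hb', hbX, hab'⟩ := hY.1.cn.cross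
    (by obtain ⟨a, h, h'⟩ := hXY; exact ⟨a, h', h⟩) h2
  have hyX : y ∈ X := by
    rcases hY.1.cl a haY b hab with h | h
    · exact absurd h hbY
    · exact h ▸ hb
  have hxY : x ∈ Y := by
    rcases hX.1.cl a' haX b' hab' with h | h
    · exact absurd h hbX
    · exact h ▸ hb'
  have hu : X ∪ Y = Set.univ := by
    refine closed_univ S.conn ⟨a, .inl ha⟩ ?_
    rintro c (hc | hc) d hcd
    · rcases hX.1.cl c hc d hcd with h | h
      · exact .inl h
      · exact .inr (h ▸ hxY)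
    · rcases hY.1.cl c hc d hcd with h | h
      · exact .inr h
      · exact .inl (h ▸ hyX)
  have h3 := Set.ncard_union_le X Y
  rw [hu, Set.ncard_univ, hX.2, hY.2] at h3
  have := S.big
  omega

theorem Mb.root_notMem {x y : W} {X Y : Set W} (hX : Mb H k x X) (hY : Mb H k y Y) : x ∉ Y := by
  intro hxY
  have hd : ¬ ∃ a ∈ X, a ∈ Y := by
    intro h
    have := hX.disj S hY h
    exact hX.1.out (this ▸ hxY)
  obtain ⟨a, ha, hax⟩ := hX.1.nb
  have hyX : y ∈ X := by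
    rcases hY.1.cl x hxY a hax.symm with h | h
    · exact absurd ⟨a, ha, h⟩ hd
    · exact h ▸ ha
  have hu : X ∪ Y = Set.univ := by
    refine closed_univ S.conn ⟨a, .inl ha⟩ ?_
    rintro c (hc | hc) d hcd
    · rcases hX.1.cl c hc d hcd with h | h
      · exact .inl h
      · exact .inr (h ▸ hxY)
    · rcases hY.1.cl c hc d hcd with h | h
      · exact .inr h
      · exact .inl (h ▸ hyX)
  have h3 := Set.ncard_union_le X Y
  rw [hu, Set.ncard_univ, hX.2, hY.2] at h3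
  have := S.big
  omega

theorem Mb.two_le {x : W} {X : Set W} (hX : Mb H k x X) {a : W} (ha : a ∈ X) :
    ∃ b ∈ X, b ≠ a := by
  obtain ⟨b, c, hbc, hb, hc⟩ := S.deg a
  rcases hX.1.cl a ha b hb with h | h
  · exact ⟨b, h, hb.ne'⟩
  · rcases hX.1.cl a ha c hc with h' | h'
    · exact ⟨c, h', hc.ne'⟩
    · exact absurd (h.trans h'.symm) hbc

/-- the root has two neighbours in the part -/
theorem Mb.two_nb {x : W} {X : Set W} (hX : Mb H k x X) :
    ∃ a ∈ X, ∃ b ∈ X, a ≠ b ∧ H.Adj x a ∧ H.Adj x b := by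
  by_contra hcon
  obtain ⟨w, hw, hwx⟩ := hX.1.nb
  have huniq : ∀ b ∈ X, H.Adj x b → b = w := by
    intro b hb hxb
    by_contra hne
    exact hcon ⟨b, hb, w, hw, hne, hxb, hwx.symm⟩
  obtain ⟨z, hz, hzw⟩ := hX.two_le S hw
  have hzD : z ∈ X \ {w} := ⟨hz, hzw⟩
  set Z := cmp H (X \ {w}) z with hZ
  have hZsub : Z ⊆ X \ {w} := cmp_sub hzD
  have hZcn : Cn H Z := cmp_cn hzD
  have hnb : ∀ a ∈ Nb H Z, a = w := by
    rintro a ⟨haZ, b, hb, hba⟩
    have hbX := hZsub hb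
    rcases hX.1.cl b hbX.1 a hba with h | h
    · by_contra hne
      exact haZ (cmp_closed hzD hb ⟨h, hne⟩ hba)
    · subst h
      exact absurd (huniq b hbX.1 hba.symm) hbX.2
  have hlt : Z.ncard < X.ncard := by
    refine Set.ncard_lt_ncard ⟨fun a ha => (hZsub ha).1, fun h => ?_⟩ (Set.toFinite _)
    exact (hZsub (h hw)).2 rfl
  obtain ⟨v, hv⟩ := fr_of S.conn hZcn (by
    intro h
    exact (hZsub (h ▸ trivial : w ∈ Z)).2 rfl) (fun a ha b hb => (hnb a ha).trans (hnb b hb).symm)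
  have := S.min v Z hv
  rw [hX.2] at hlt
  omega

/-- a set containing a part and its root does not induce a star -/
theorem not_star_of_mb {x : W} {X U : Set W} (hX : Mb H k x X) (hXU : X ⊆ U) (hxU : x ∈ U) :
    ¬ IsStar (H.induce U) := by
  rintro ⟨c, hc⟩
  obtain ⟨a0, ha0⟩ := hX.1.cn.1
  obtain ⟨a, ha, hac⟩ : ∃ a ∈ X, a ≠ c.1 := by
    by_cases h : a0 = c.1
    · obtain ⟨b, hb, hba⟩ := hX.two_le S ha0
      exact ⟨b, hb, fun h' => hba (h'.trans h.symm)⟩
    · exact ⟨a0, ha0, h⟩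
  have hnb : ∀ b, H.Adj a b → b = c.1 := by
    intro b hab
    have hbU : b ∈ U := by
      rcases hX.1.cl a ha b hab with h | h
      · exact hXU h
      · exact h ▸ hxU
    rcases hc ⟨a, hXU ha⟩ ⟨b, hbU⟩ hab with h | h
    · exact absurd (congrArg Subtype.val h) hac
    · exact congrArg Subtype.val h
  obtain ⟨b, b', hbb, hb, hb'⟩ := S.deg a
  exact hbb ((hnb b hb).trans (hnb b' hb').symm)

end

/-- rooted embeddings of parts -/
def Le {W : Type*} (H : SimpleGraph W) (x : W) (X : Set W) (y : W) (Y : Set W) : Prop :=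
  ∃ φ : W → W, Set.InjOn φ X ∧ (∀ a ∈ X, φ a ∈ Y) ∧ φ x = y ∧
    ∀ a ∈ X, ∀ b, H.Adj a b → H.Adj (φ a) (φ b)

section
variable {W : Type*} [Finite W] {H : SimpleGraph W} {k : ℕ}

theorem Le.refl (x : W) (X : Set W) : Le H x X x X :=
  ⟨id, Function.injective_id.injOn, fun _ h => h, rfl, fun _ _ _ h => h⟩

theorem Le.trans {x y z : W} {X Y Z : Set W} (h : Le H x X y Y) (h' : Le H y Y z Z) :
    Le H x X z Z := by
  obtain ⟨φ, h1, h2, h3, h4⟩ := h
  obtain ⟨ψ, g1, g2, g3, g4⟩ := h'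
  refine ⟨ψ ∘ φ, g1.comp h1 h2, fun a ha => g2 _ (h2 a ha), ?_, ?_⟩
  · simp only [Function.comp_apply, h3, g3]
  · intro a ha b hab
    exact g4 _ (h2 a ha) _ (h4 a ha b hab)

/-- union of the parts below `(x0, X0)` -/
def Pd (H : SimpleGraph W) (k : ℕ) (x0 : W) (X0 : Set W) : Set W :=
  {w | ∃ x X, Mb H k x X ∧ Le H x X x0 X0 ∧ w ∈ X}

/-- if the set of `Emb`-connected sets ... all are parts below `(x0, X0)` -/
theorem emb_Pd (S : Setup H k) {x0 : W} {X0 X : Set W} (hX : Cn H X)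
    (hE : Emb H X (Pd H k x0 X0)) : X ⊆ Pd H k x0 X0 := by
  obtain ⟨φ, h1, h2, h3, h4⟩ := hE
  obtain ⟨d, hd⟩ := hX.1
  obtain ⟨y, Y, hY, hYle, hdY⟩ := h1 d hd
  have hYP : ∀ w ∈ Y, w ∈ Pd H k x0 X0 := fun w hw => ⟨y, Y, hY, hYle, hw⟩
  have hyP : y ∉ Pd H k x0 X0 := by
    rintro ⟨x, X', hX', -, hy⟩
    exact hY.root_notMem S hX' hy
  have hall : ∀ a ∈ X, φ a ∈ Y := by
    refine hX.2 {a | φ a ∈ Y} ⟨d, hd, hdY⟩ ?_
    intro a ha haY b hb hab
    rcases hY.1.cl _ haY _ (h4 a ha b hab) with h | h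
    · exact h
    · exact absurd (h ▸ h1 b hb) hyP
  have hnb : ∀ b ∈ Nb H X, φ b = y := by
    rintro b hb
    obtain ⟨hbX, a, ha, hab⟩ := hb
    rcases hY.1.cl _ (hall a ha) _ (h4 a ha b hab) with h | h
    · exact absurd (hYP _ h) (h2 b ⟨hbX, a, ha, hab⟩)
    · exact h
  have hcard : X.ncard ≤ k := by
    rw [← hY.2]
    exact Set.ncard_le_ncard_of_injOn φ hall
      (h3.mono Set.subset_union_left) (Set.toFinite _)
  obtain ⟨v, hv⟩ := fr_of S.conn hX (by
    intro h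
    rw [h, Set.ncard_univ] at hcard
    have := S.big
    omega) (fun a ha b hb => h3 (.inr ha) (.inr hb) ((hnb a ha).trans (hnb b hb).symm))
  have hXm : Mb H k v X := ⟨hv, le_antisymm hcard (S.min v X hv)⟩
  have hvN : v ∈ Nb H X := by
    obtain ⟨a, ha, hav⟩ := hv.nb
    exact ⟨hv.out, a, ha, hav⟩
  intro w hw
  refine ⟨v, X, hXm, Le.trans ⟨φ, h3.mono Set.subset_union_left, hall, hnb v hvN,
    h4⟩ hYle, hw⟩

/-- first step: all parts are below each other -/
theorem step1 {W : Type} [Finite W] {H : SimpleGraph W} {k : ℕ} (S : Setup H k)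
    (IH : ∀ U : Set W, U ≠ Set.univ → ¬ IsStar (H.induce U) → Fail (H.induce U))
    (hfail : ¬ Fail H) {x0 : W} {X0 : Set W} (h0 : Mb H k x0 X0) :
    IsStar (H.induce (Pd H k x0 X0)ᶜ) ∧ ∀ x X, Mb H k x X → Le H x X x0 X0 := by
  have hstar : IsStar (H.induce (Pd H k x0 X0)ᶜ) := by
    by_contra hns
    apply hfail
    have hx0 : x0 ∈ (Pd H k x0 X0)ᶜ := by
      rintro ⟨x, X', hX', -, hy⟩
      exact h0.root_notMem S hX' hy
    refine pp_step (Pd H k x0 X0)ᶜ ?_ (IH _ ?_ hns) ?_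
    · by_contra hno
      apply hns
      refine ⟨⟨x0, hx0⟩, fun a b hab => ?_⟩
      exact absurd ⟨a, b, hab⟩ hno
    · intro h
      obtain ⟨a, ha⟩ := h0.1.cn.1
      have : a ∈ (Pd H k x0 X0)ᶜ := h ▸ trivial
      exact this ⟨x0, X0, h0, Le.refl _ _, ha⟩
    · intro D hD
      rw [compl_compl] at hD
      have hDP : D ⊆ Pd H k x0 X0 := by
        intro d hd
        have h1 := hD (cmp H D d) (cmp_sub hd) (cmp_cn hd)
          (fun x hx y hy hxy => cmp_closed hd hx hy hxy)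
        exact emb_Pd S (cmp_cn hd) h1 mem_cmp
      refine contained_of (fun w => ⟨w.1, fun h => w.2 (hDP h)⟩) ?_ ?_
      · intro a b hab
        exact Subtype.ext (Subtype.mk.inj hab)
      · intro a b hab
        exact hab
  refine ⟨hstar, ?_⟩
  intro x X hX
  by_contra hle
  refine not_star_of_mb S hX ?_ ?_ hstar
  · rintro a ha ⟨y, Y, hY, hYle, haY⟩
    have : X = Y := hX.disj S hY ⟨a, ha, haY⟩
    subst this
    -- the root of a part is unique
    have hxy : x = y := by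
      obtain ⟨b, hb, hbx⟩ := hX.1.nb
      rcases hY.1.cl b hb x hbx with h | h
      · exact absurd h hX.1.out
      · exact h
    subst hxy
    exact hle hYle
  · rintro ⟨y, Y, hY, -, hxY⟩
    exact hX.root_notMem S hY hxY

end

end Pool.Agent.P8H55.SM
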