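import Pool.Agent.P8H55.SM.PP
import Pool.Agent.Results.MP_fc2b6d_co.InfiniteGraphs

/-!
# Locally finite graphs: tools
-/

open SimpleGraph Cardinal
open scoped Classical

set_option linter.unusedSectionVars false

namespace Pool.Agent.P8H55.SM

open Pool.Agent.Results.MP_fc2b6d_co.Forests Pool.Agent.H165R2.SM
open Pool.Agent.Results.MP_fc2b6d_co

theorem fail_of_not_exists {W : Type} {H : SimpleGraph W}
    (h : ∃ (V : Type) (G : SimpleGraph V), ¬ ∃ F : Set (Sym2 V),
      InfiniteGraphs.IsStronglyMaximal H G F) : Fail H := by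
  obtain ⟨V, G, hG⟩ := h
  refine ⟨V, G, fun F hF hfree => ?_⟩
  by_contra hcon
  apply hG
  refine ⟨F.edgeSet, ⟨edgeSet_mono hF, by rwa [fromEdgeSet_edgeSet]⟩, ?_⟩
  rintro I ⟨hI, hIfree⟩
  have hle : fromEdgeSet I ≤ G := by
    intro a b hab
    rw [fromEdgeSet_adj] at hab
    exact hI hab.1
  have hedge : (fromEdgeSet I).edgeSet = I := by
    rw [edgeSet_fromEdgeSet]
    ext e
    constructor
    · exact fun he => he.1
    · exact fun he => ⟨he, fun hd => G.not_isDiag_of_mem_edgeSet (hI he) hd⟩
  by_contra hlt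
  apply hcon
  refine ⟨fromEdgeSet I, hle, hIfree, ?_⟩
  rw [hedge]
  exact not_le.1 hlt

section
variable {W : Type} {H : SimpleGraph W}

/-- the reduction to the vertices of degree at least `κ` -/
theorem deg_card_step (κ : Cardinal) (U : Set W) (hU : ∀ w, w ∈ U ↔ κ ≤ #(H.neighborSet w))
    (hedge : ∃ a b : U, H.Adj a b) (hfail : Fail (H.induce U)) : Fail H := by
  refine robust U hedge hfail ?_
  rintro V0 K I0 ⟨f⟩
  have hin : ∀ w ∈ U, ∃ v, f w = .inl v := by
    intro w hw
    rcases hfw : f w with v | ⟨θ, k, z⟩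
    · exact ⟨v, rfl⟩
    · exfalso
      have hz : ¬ κ ≤ #(H.neighborSet z.1) := fun h => z.2 ((hU _).2 h)
      apply hz
      refine ((hU w).1 hw).trans ?_
      -- map a neighbour of `w` to a neighbour of `z`
      have hstep : ∀ x : H.neighborSet w, ∃ y : H.neighborSet z.1,
          f x = if hy : y.1 ∈ U then .inl (θ ⟨y, hy⟩) else .inr (θ, k, ⟨y, hy⟩) := by
        rintro ⟨x, hx⟩
        have h1 := f.toHom.map_adj hx
        change (rob H U V0 K I0).Adj (f w) (f x) at h1
        rw [hfw] at h1
        rcases hfx : f x with v | ⟨θ', κ', y⟩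
        · rw [hfx] at h1
          obtain ⟨u, hu, hadj⟩ := h1
          refine ⟨⟨u.1, hadj.symm⟩, ?_⟩
          rw [dif_pos u.2, ← hu]
        · rw [hfx] at h1
          obtain ⟨rfl, rfl, hadj⟩ := h1
          refine ⟨⟨y.1, hadj⟩, ?_⟩
          rw [dif_neg y.2]
      choose g hg using hstep
      refine Cardinal.mk_le_of_injective (f := g) ?_
      intro x x' h
      apply Subtype.ext
      apply f.injective
      change f x = f x'
      rw [hg x, hg x', h]
  choose g hg using fun u : U => hin u.1 u.2
  refine contained_of g ?_ ?_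
  · intro a b hab
    apply Subtype.ext
    apply f.injective
    change f a.1 = f b.1
    rw [hg a, hg b, hab]
  · intro a b hab
    have h1 := f.toHom.map_adj (show H.Adj a.1 b.1 from hab)
    change (rob H U V0 K I0).Adj (f a.1) (f b.1) at h1
    rw [hg a, hg b] at h1
    exact h1

/-- the reduction to a set of components which is closed upwards -/
theorem up_step (A : Set H.ConnectedComponent)
    (hup : ∀ C ∈ A, ∀ D : H.ConnectedComponent, C.toSimpleGraph ⊑ D.toSimpleGraph → D ∈ A)
    (hedge : ∃ a b : {w | H.connectedComponentMk w ∈ A}, H.Adj a b)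
    (hfail : Fail (H.induce {w | H.connectedComponentMk w ∈ A})) : Fail H := by
  set U : Set W := {w | H.connectedComponentMk w ∈ A} with hU
  have hUadj : ∀ a b, H.Adj a b → (a ∈ U ↔ b ∈ U) := by
    intro a b hab
    simp only [hU, Set.mem_setOf_eq, ConnectedComponent.sound hab.reachable]
  refine robust U hedge hfail ?_
  rintro V0 K I0 ⟨f⟩
  have hin : ∀ w ∈ U, ∃ v, f w = .inl v := by
    intro w hw
    rcases hfw : f w with v | ⟨θ, k, z⟩
    · exact ⟨v, rfl⟩
    · exfalso
      have hall : ∀ a, H.Reachable w a → ∃ y : ↥Uᶜ, f a = .inr (θ, k, y) ∧ H.Reachable z.1 y.1 := by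
        have key : ∀ (u v : W) (p : H.Walk u v),
            (∃ y : ↥Uᶜ, f u = .inr (θ, k, y) ∧ H.Reachable z.1 y.1) →
            ∃ y : ↥Uᶜ, f v = .inr (θ, k, y) ∧ H.Reachable z.1 y.1 := by
          intro u v p
          induction p with
          | nil => exact id
          | @cons u v _ h _ ih =>
            rintro ⟨y, hy, hr⟩
            apply ih
            have h1 := f.toHom.map_adj h
            change (rob H U V0 K I0).Adj (f u) (f v) at h1
            rw [hy] at h1
            rcases hfv : f v with v0 | ⟨θ', κ', y'⟩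
            · rw [hfv] at h1
              obtain ⟨x, -, hadj⟩ := h1
              exact absurd ((hUadj _ _ hadj).1 x.2) y.2
            · rw [hfv] at h1
              obtain ⟨rfl, rfl, hadj⟩ := h1
              exact ⟨y', rfl, hr.trans hadj.reachable⟩
        intro a ha
        obtain ⟨p⟩ := ha
        exact key w a p ⟨z, hfw, Reachable.refl _⟩
      apply z.2
      refine hup _ hw (H.connectedComponentMk z.1) ?_
      have hrw : ∀ a : (H.connectedComponentMk w), H.Reachable w a.1 := by
        intro a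
        exact (ConnectedComponent.exact a.2).symm
      choose g hg hgr using fun a : (H.connectedComponentMk w) => hall a.1 (hrw a)
      refine contained_of (fun a => (⟨(g a).1, ?_⟩ : (H.connectedComponentMk z.1))) ?_ ?_
      · exact (ConnectedComponent.sound (hgr a).symm)
      · intro a b hab
        have h1 : (g a).1 = (g b).1 := Subtype.mk.inj hab
        apply Subtype.ext
        apply f.injective
        change f a.1 = f b.1
        rw [hg a, hg b, Subtype.ext h1]
      · intro a b hab
        have h1 := f.toHom.map_adj (show H.Adj a.1 b.1 from hab)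
        change (rob H U V0 K I0).Adj (f a.1) (f b.1) at h1
        rw [hg a, hg b] at h1
        exact h1.2.2
  choose g hg using fun u : U => hin u.1 u.2
  refine contained_of g ?_ ?_
  · intro a b hab
    apply Subtype.ext
    apply f.injective
    change f a.1 = f b.1
    rw [hg a, hg b, hab]
  · intro a b hab
    have h1 := f.toHom.map_adj (show H.Adj a.1 b.1 from hab)
    change (rob H U V0 K I0).Adj (f a.1) (f b.1) at h1
    rw [hg a, hg b] at h1
    exact h1

/-- if above every component of `A` with an edge there are infinitely many components of `A`, then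
`H` embeds into itself avoiding any given edge in `A` -/
theorem shift (A : Set H.ConnectedComponent)
    (hinf : ∀ C ∈ A, (∃ a b, C.toSimpleGraph.Adj a b) →
      {D | D ∈ A ∧ C.toSimpleGraph ⊑ D.toSimpleGraph}.Infinite)
    {x y : W} (hxy : H.Adj x y) (hx : H.connectedComponentMk x ∈ A) :
    ∃ f : W → W, Function.Injective f ∧
      (∀ w, H.connectedComponentMk w ∈ A → H.connectedComponentMk (f w) ∈ A) ∧
      (∀ w, H.connectedComponentMk w ∉ A → f w = w) ∧
      ∀ a b, H.Adj a b → H.Adj (f a) (f b) ∧ s(f a, f b) ≠ s(x, y) := by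
  -- the chain
  let St : Type := {p : H.ConnectedComponent × Finset H.ConnectedComponent //
    p.1 ∈ A ∧ (∃ a b, p.1.toSimpleGraph.Adj a b) ∧ p.1 ∈ p.2}
  have hnext : ∀ p : St, ∃ q : St, p.1.1.toSimpleGraph ⊑ q.1.1.toSimpleGraph ∧
      q.1.1 ∉ p.1.2 ∧ q.1.2 = insert q.1.1 p.1.2 := by
    rintro ⟨⟨C, S⟩, hCA, hCe, hCS⟩
    obtain ⟨D, ⟨hDA, hCD⟩, hDS⟩ := (hinf C hCA hCe).exists_notMem_finset S
    refine ⟨⟨⟨D, insert D S⟩, hDA, ?_, Finset.mem_insert_self _ _⟩, hCD, hDS, rfl⟩
    obtain ⟨a, b, hab⟩ := hCe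
    obtain ⟨g⟩ := hCD
    exact ⟨g a, g b, g.toHom.map_adj hab⟩
  choose nx hnx1 hnx2 hnx3 using hnext
  have hxC : ∃ a b, (H.connectedComponentMk x).toSimpleGraph.Adj a b :=
    ⟨⟨x, rfl⟩, ⟨y, (ConnectedComponent.sound hxy.reachable).symm⟩, hxy⟩
  let p0 : St := ⟨⟨H.connectedComponentMk x, {H.connectedComponentMk x}⟩, hx, hxC,
    Finset.mem_singleton_self _⟩
  let q : ℕ → St := fun n => Nat.rec p0 (fun _ p => nx p) n
  have hqs : ∀ n, q (n + 1) = nx (q n) := fun n => rfl
  have hsub : ∀ m n, m ≤ n → (q m).1.1 ∈ (q n).1.2 := by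
    intro m n hmn
    induction n, hmn using Nat.le_induction with
    | base => exact (q m).2.2.2
    | succ n _ ih =>
      rw [hqs, hnx3]
      exact Finset.mem_insert_of_mem ih
  have hinj : ∀ m n, (q m).1.1 = (q n).1.1 → m = n := by
    have key : ∀ m n, m < n → (q m).1.1 ≠ (q n).1.1 := by
      intro m n hmn h
      obtain ⟨k, rfl⟩ : ∃ k, n = k + 1 := ⟨n - 1, by omega⟩
      apply hnx2 (q k)
      rw [← hqs, ← h]
      exact hsub m k (by omega)
    intro m n h
    rcases lt_trichotomy m n with h1 | h1 | h1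
    · exact absurd h (key m n h1)
    · exact h1
    · exact absurd h.symm (key n m h1)
  -- the shift
  set σ : H.ConnectedComponent → H.ConnectedComponent := fun C =>
    if h : ∃ n, (q n).1.1 = C then (q (Classical.choose h + 1)).1.1 else C with hσ
  have hσq : ∀ n, σ (q n).1.1 = (q (n + 1)).1.1 := by
    intro n
    have hex : ∃ m, (q m).1.1 = (q n).1.1 := ⟨n, rfl⟩
    have h1 := hinj _ _ (Classical.choose_spec hex)
    simp only [hσ, dif_pos hex, h1]
  have hσn : ∀ C, (¬ ∃ n, (q n).1.1 = C) → σ C = C := by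
    intro C hC
    simp only [hσ, dif_neg hC]
  have hσinj : Function.Injective σ := by
    intro C D hCD
    by_cases hC : ∃ n, (q n).1.1 = C <;> by_cases hD : ∃ n, (q n).1.1 = D
    · obtain ⟨n, rfl⟩ := hC
      obtain ⟨m, rfl⟩ := hD
      rw [hσq, hσq] at hCD
      have := hinj (n + 1) (m + 1) hCD
      rw [show n = m by omega]
    · obtain ⟨n, rfl⟩ := hC
      rw [hσq, hσn D hD] at hCD
      exact absurd ⟨n + 1, hCD⟩ hD
    · obtain ⟨m, rfl⟩ := hD
      rw [hσq, hσn C hC] at hCD
      exact absurd ⟨m + 1, hCD.symm⟩ hC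
    · rw [hσn C hC, hσn D hD] at hCD
      exact hCD
  have hσA : ∀ C ∈ A, σ C ∈ A := by
    intro C hC
    by_cases h : ∃ n, (q n).1.1 = C
    · obtain ⟨n, rfl⟩ := h
      rw [hσq]
      exact (q (n + 1)).2.1
    · rw [hσn C h]
      exact hC
  have hσx : ∀ C, σ C ≠ H.connectedComponentMk x := by
    intro C h
    by_cases hC : ∃ n, (q n).1.1 = C
    · obtain ⟨n, rfl⟩ := hC
      rw [hσq] at h
      have := hinj (n + 1) 0 h
      omega
    · rw [hσn C hC] at h
      exact hC ⟨0, h.symm⟩
  have hemb : ∀ C, C.toSimpleGraph ⊑ (σ C).toSimpleGraph := by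
    intro C
    by_cases h : ∃ n, (q n).1.1 = C
    · obtain ⟨n, rfl⟩ := h
      rw [hσq, hqs]
      exact hnx1 (q n)
    · rw [hσn C h]
      exact IsContained.refl _
  have hg : ∀ C : H.ConnectedComponent, ∃ g : C → W, Function.Injective g ∧
      (∀ a, H.connectedComponentMk (g a) = σ C) ∧ (∀ a b : C, H.Adj a b → H.Adj (g a) (g b)) ∧
      (C ∉ A → ∀ a, g a = a.1) := by
    intro C
    by_cases hC : C ∈ A
    · obtain ⟨g⟩ := hemb C
      refine ⟨fun a => (g a).1, ?_, ?_, ?_, fun h => absurd hC h⟩
      · intro a b hab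
        exact g.injective (Subtype.ext hab)
      · exact fun a => (g a).2
      · intro a b hab
        exact g.toHom.map_adj (show C.toSimpleGraph.Adj a b from hab)
    · have hn : ¬ ∃ n, (q n).1.1 = C := by
        rintro ⟨n, rfl⟩
        exact hC (q n).2.1
      refine ⟨fun a => a.1, Subtype.val_injective, ?_, fun _ _ h => h, fun _ _ => rfl⟩
      intro a
      rw [hσn C hn]
      exact a.2
  choose g hg1 hg2 hg3 hg4 using hg
  have hgeq : ∀ (C : H.ConnectedComponent) (w : W) (h : H.connectedComponentMk w = C),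
      g (H.connectedComponentMk w) ⟨w, rfl⟩ = g C ⟨w, h⟩ := by
    intro C w h
    subst h
    rfl
  refine ⟨fun w => g (H.connectedComponentMk w) ⟨w, rfl⟩, ?_, ?_, ?_, ?_⟩
  · intro a b hab
    have hab' : g (H.connectedComponentMk a) ⟨a, rfl⟩ = g (H.connectedComponentMk b) ⟨b, rfl⟩ := hab
    have h1 := congrArg H.connectedComponentMk hab'
    rw [hg2, hg2] at h1
    have h2 := hσinj h1
    rw [hgeq _ b h2.symm] at hab'
    exact Subtype.mk.inj (hg1 _ hab')
  · intro w hw
    change H.connectedComponentMk (g (H.connectedComponentMk w) ⟨w, rfl⟩) ∈ A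
    rw [hg2]
    exact hσA _ hw
  · intro w hw
    exact hg4 _ hw _
  · intro a b hab
    have h2 : H.connectedComponentMk b = H.connectedComponentMk a :=
      (ConnectedComponent.sound hab.reachable).symm
    have h3 : H.Adj (g (H.connectedComponentMk a) ⟨a, rfl⟩)
        (g (H.connectedComponentMk b) ⟨b, rfl⟩) := by
      rw [hgeq _ b h2]
      exact hg3 _ ⟨a, rfl⟩ ⟨b, h2⟩ hab
    refine ⟨h3, ?_⟩
    intro h
    have h4 : H.connectedComponentMk (g (H.connectedComponentMk a) ⟨a, rfl⟩) =
        H.connectedComponentMk x := by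
      rw [Sym2.eq_iff] at h
      rcases h with ⟨h, -⟩ | ⟨h, -⟩
      · exact congrArg _ h
      · exact (congrArg _ h).trans (ConnectedComponent.sound hxy.reachable).symm
    rw [hg2] at h4
    exact hσx _ h4

/-- König's lemma -/
theorem exists_ray (hlf : ∀ v, (H.neighborSet v).Finite) {v0 : W}
    (hinf : (cmp H Set.univ v0).Infinite) :
    ∃ r : ℕ → W, Function.Injective r ∧ ∀ n, H.Adj (r n) (r (n + 1)) := by
  let St : Type := {p : W × Finset W // p.1 ∉ p.2 ∧ (cmp H {w | w ∉ p.2} p.1).Infinite}
  have hnext : ∀ p : St, ∃ q : St, H.Adj p.1.1 q.1.1 ∧ q.1.2 = insert p.1.1 p.1.2 := by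
    rintro ⟨⟨v, X⟩, hv, hcmp⟩
    have hsub : cmp H {w | w ∉ X} v ⊆
        {v} ∪ ⋃ w ∈ H.neighborSet v ∩ {w | w ∉ insert v X}, cmp H {w | w ∉ insert v X} w := by
      intro y hy
      induction hy with
      | refl => exact .inl rfl
      | @tail b c hb hbc ih =>
        obtain ⟨hadj, hbX, hcX⟩ := hbc
        by_cases hcv : c = v
        · exact .inl hcv
        right
        have hc : c ∈ {w | w ∉ insert v X} := by
          intro h
          rcases Finset.mem_insert.1 h with h | h
          · exact hcv h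
          · exact hcX h
        simp only [Set.mem_iUnion]
        rcases ih with hbv | ih
        · have hbv' : b = v := hbv
          subst hbv'
          exact ⟨c, ⟨hadj, hc⟩, mem_cmp⟩
        · simp only [Set.mem_iUnion] at ih
          obtain ⟨w, hw, hwb⟩ := ih
          exact ⟨w, hw, cmp_closed hw.2 hwb hc hadj⟩
    have hex : ∃ w ∈ H.neighborSet v ∩ {w | w ∉ insert v X},
        (cmp H {w | w ∉ insert v X} w).Infinite := by
      by_contra hno
      push Not at hno
      apply hcmp
      refine Set.Finite.subset ?_ hsub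
      refine (Set.finite_singleton v).union (Set.Finite.biUnion ((hlf v).inter_of_left _) ?_)
      intro w hw
      exact hno w hw
    obtain ⟨w, ⟨hvw, hwX⟩, hwinf⟩ := hex
    exact ⟨⟨⟨w, insert v X⟩, hwX, hwinf⟩, hvw, rfl⟩
  choose nx hnx1 hnx2 using hnext
  let p0 : St := ⟨⟨v0, ∅⟩, Finset.notMem_empty _, by
    have : {w : W | w ∉ (∅ : Finset W)} = Set.univ := by ext; simp
    rw [this]
    exact hinf⟩
  let q : ℕ → St := fun n => Nat.rec p0 (fun _ p => nx p) n
  have hqs : ∀ n, q (n + 1) = nx (q n) := fun n => rfl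
  have hsub : ∀ m n, m < n → (q m).1.1 ∈ (q n).1.2 := by
    intro m n hmn
    induction n, hmn using Nat.le_induction with
    | base =>
      rw [hqs, hnx2]
      exact Finset.mem_insert_self _ _
    | succ n _ ih =>
      rw [hqs, hnx2]
      exact Finset.mem_insert_of_mem ih
  refine ⟨fun n => (q n).1.1, ?_, ?_⟩
  · have key : ∀ m n, m < n → (q m).1.1 ≠ (q n).1.1 := by
      intro m n hmn h
      exact (q n).2.1 (h ▸ hsub m n hmn)
    intro m n h
    rcases lt_trichotomy m n with h1 | h1 | h1
    · exact absurd h (key m n h1)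
    · exact h1
    · exact absurd h.symm (key n m h1)
  · intro n
    change H.Adj (q n).1.1 (q (n + 1)).1.1
    rw [hqs]
    exact hnx1 (q n)

end

end Pool.Agent.P8H55.SM
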