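import Pool.Agent.P8H55.SM.LFa
import Pool.Agent.P8H55.SM.Fin

/-!
# Locally finite graphs
-/

open SimpleGraph Cardinal
open scoped Classical

set_option linter.unusedSectionVars false

namespace Pool.Agent.P8H55.SM

open Pool.Agent.Results.MP_fc2b6d_co.Forests Pool.Agent.H165R2.SM
open Pool.Agent.Results.MP_fc2b6d_co

/-- the host for one star component: the rest of `H` and a large star -/
def sahost {W : Type} (H : SimpleGraph W) (C : Set W) (K : Type) :
    SimpleGraph (W ⊕ Option K) where
  Adj a b := match a, b with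
    | .inl a, .inl b => H.Adj a b ∧ a ∉ C ∧ b ∉ C
    | .inr a, .inr b => (a = none ∧ b ≠ none) ∨ (b = none ∧ a ≠ none)
    | _, _ => False
  symm := ⟨by
    rintro (a | a) (b | b) h
    · exact ⟨h.1.symm, h.2.2, h.2.1⟩
    · exact h
    · exact h
    · exact h.symm⟩
  loopless := ⟨by
    rintro (a | a) h
    · exact H.loopless.irrefl a h.1
    · rcases h with ⟨h, h'⟩ | ⟨h, h'⟩
      · exact h' h
      · exact h' h⟩

section
variable {W : Type} {H : SimpleGraph W}

theorem star_add (C : Set W) (c : W) (hC : ∀ a b, H.Adj a b → (a ∈ C ↔ b ∈ C))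
    (hstar : ∀ a ∈ C, a = c ∨ H.Adj c a) (hstar2 : ∀ a ∈ C, ∀ b, H.Adj a b → a = c ∨ b = c)
    (hc : c ∈ C) (hfin : (H.neighborSet c).Finite)
    (hdeg : ∀ v ∉ C, ¬ ∃ g : H.neighborSet c → H.neighborSet v, Function.Injective g)
    {x0 y0 : W} (hxy0 : H.Adj x0 y0) (hx0 : x0 ∉ C) (hce : ∃ b, H.Adj c b)
    (hadd : ∀ x y, H.Adj x y → x ∉ C → ∃ f : W → W, Function.Injective f ∧
      (∀ w, w ∉ C → f w ∉ C) ∧ ∀ a b, H.Adj a b → H.Adj (f a) (f b) ∧ s(f a, f b) ≠ s(x, y)) :
    Fail H := by
  set K : Type := Set (Sym2 W ⊕ W ⊕ ℕ) with hK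
  have hKbig : ∀ (T : Type) (g : T → Sym2 W ⊕ W ⊕ ℕ), Function.Injective g → #T < #K := by
    intro T g hg
    calc #T ≤ #(Sym2 W ⊕ W ⊕ ℕ) := mk_le_of_injective hg
      _ < #K := by rw [hK, mk_set]; exact cantor _
  have hKinf : ℵ₀ ≤ #K := by
    have := hKbig ℕ (fun n => .inr (.inr n)) (fun a b h => by simpa using h)
    rw [mk_nat] at this
    exact this.le
  have hKinf' : Infinite K := infinite_iff.2 hKinf
  -- two neighbours of the centre
  have htwo : ∃ a b, a ≠ b ∧ H.Adj c a ∧ H.Adj c b := by
    by_contra hno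
    push Not at hno
    apply hdeg x0 hx0
    refine ⟨fun _ => ⟨y0, hxy0⟩, ?_⟩
    rintro ⟨a, ha⟩ ⟨b, hb⟩ _
    by_contra hab
    exact hno a b (fun h => hab (Subtype.ext h)) ha hb
  refine ⟨_, sahost H C K, fun F hF hfree => ?_⟩
  set S : Set K := {k | F.Adj (.inr none) (.inr (some k))} with hS
  -- embeddings of `H`
  have hP : (∃ ι : H.neighborSet c → S, Function.Injective ι) →
      ∀ g : W → W, (∀ a b, a ∉ C → b ∉ C → (∃ d, H.Adj a d) → (∃ d, H.Adj b d) → g a = g b → a = b) →
      (∀ a b, H.Adj a b → a ∉ C → F.Adj (.inl (g a)) (.inl (g b))) → False := by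
    rintro ⟨ι, hι⟩ g hg hgadj
    apply hfree
    -- room for the isolated vertices
    have hT : #↥((Set.range (fun a => (ι a).1))ᶜ) = #K := by
      refine mk_compl_of_infinite _ ?_
      have : (Set.range (fun a => (ι a).1)).Finite := by
        have := hfin.to_subtype
        exact Set.finite_range _
      exact this.lt_aleph0.trans_le hKinf
    obtain ⟨j⟩ : Nonempty (W ↪ ↥((Set.range (fun a => (ι a).1))ᶜ)) := by
      rw [← Cardinal.le_def, hT]
      exact (hKbig W (fun w => .inr (.inl w)) (fun a b h => by simpa using h)).le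
    set Φ : W → W ⊕ Option K := fun w =>
      if h : w ∈ C then (if h' : H.Adj c w then .inr (some (ι ⟨w, h'⟩).1) else .inr none) else
        if ∃ d, H.Adj w d then .inl (g w) else .inr (some (j w).1) with hΦ
    have e1 : ∀ (w : W) (h' : H.Adj c w), Φ w = .inr (some (ι ⟨w, h'⟩).1) := by
      intro w h'
      have h := (hC c w h').1 hc
      simp only [hΦ, dif_pos h, dif_pos h']
    have e2 : Φ c = .inr none := by
      simp only [hΦ, dif_pos hc, dif_neg (H.loopless.irrefl c)]
    have e3 : ∀ w, w ∉ C → (∃ d, H.Adj w d) → Φ w = .inl (g w) := by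
      intro w h h'
      simp only [hΦ, dif_neg h, if_pos h']
    have e4 : ∀ w, w ∉ C → (¬ ∃ d, H.Adj w d) → Φ w = .inr (some (j w).1) := by
      intro w h h'
      simp only [hΦ, dif_neg h, if_neg h']
    have hcase : ∀ w, w = c ∨ H.Adj c w ∨ (w ∉ C ∧ ∃ d, H.Adj w d) ∨ (w ∉ C ∧ ¬ ∃ d, H.Adj w d) := by
      intro w
      by_cases h : w ∈ C
      · rcases hstar w h with h' | h'
        · exact .inl h'
        · exact .inr (.inl h')
      · by_cases h' : ∃ d, H.Adj w d
        · exact .inr (.inr (.inl ⟨h, h'⟩))
        · exact .inr (.inr (.inr ⟨h, h'⟩))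
    refine contained_of Φ ?_ ?_
    · intro a b hab
      rcases hcase a with rfl | ha | ⟨ha, ha'⟩ | ⟨ha, ha'⟩ <;>
        rcases hcase b with rfl | hb | ⟨hb, hb'⟩ | ⟨hb, hb'⟩
      · rfl
      · rw [e2, e1 b hb] at hab
        simp at hab
      · rw [e2, e3 b hb hb'] at hab
        cases hab
      · rw [e2, e4 b hb hb'] at hab
        simp at hab
      · rw [e2, e1 a ha] at hab
        simp at hab
      · rw [e1 a ha, e1 b hb] at hab
        have h1 : (ι ⟨a, ha⟩).1 = (ι ⟨b, hb⟩).1 := by simpa using hab
        exact congrArg Subtype.val (hι (Subtype.ext h1))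
      · rw [e1 a ha, e3 b hb hb'] at hab
        cases hab
      · rw [e1 a ha, e4 b hb hb'] at hab
        have h1 : (ι ⟨a, ha⟩).1 = (j b).1 := by simpa using hab
        exact absurd ⟨⟨a, ha⟩, h1⟩ (j b).2
      · rw [e2, e3 a ha ha'] at hab
        cases hab
      · rw [e1 b hb, e3 a ha ha'] at hab
        cases hab
      · rw [e3 a ha ha', e3 b hb hb'] at hab
        exact hg a b ha hb ha' hb' (Sum.inl_injective hab)
      · rw [e3 a ha ha', e4 b hb hb'] at hab
        cases hab
      · rw [e2, e4 a ha ha'] at hab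
        simp at hab
      · rw [e1 b hb, e4 a ha ha'] at hab
        have h1 : (j a).1 = (ι ⟨b, hb⟩).1 := by simpa using hab
        exact absurd ⟨⟨b, hb⟩, h1.symm⟩ (j a).2
      · rw [e3 b hb hb', e4 a ha ha'] at hab
        cases hab
      · rw [e4 a ha ha', e4 b hb hb'] at hab
        have h1 : (j a).1 = (j b).1 := by simpa using hab
        exact j.injective (Subtype.ext h1)
    · intro a b hab
      by_cases ha : a ∈ C
      · rcases hstar2 a ha b hab with rfl | rfl
        · rw [e2, e1 b hab]
          exact (ι ⟨b, hab⟩).2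
        · rw [e2, e1 a hab.symm]
          exact F.symm.symm _ _ (ι ⟨a, hab.symm⟩).2
      · have hb : b ∉ C := fun h => ha ((hC a b hab).2 h)
        rw [e3 a ha ⟨b, hab⟩, e3 b hb ⟨a, hab.symm⟩]
        exact hgadj a b hab ha
  by_cases hSr : ∃ ι : H.neighborSet c → S, Function.Injective ι
  · -- add an edge on the left
    obtain ⟨x, y, hxy, hx, hFxy⟩ : ∃ x y, H.Adj x y ∧ x ∉ C ∧
        ¬ F.Adj (.inl x : W ⊕ Option K) (.inl y) := by
      by_contra hno
      push Not at hno
      exact hP hSr id (fun a b _ _ _ _ h => h) (fun a b hab ha => hno a b hab ha)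
    have hy : y ∉ C := fun h => hx ((hC x y hxy).2 h)
    set I : SimpleGraph (W ⊕ Option K) := F ⊔ fromEdgeSet {s(.inl x, .inl y)} with hI
    have hIadj : ∀ a b, I.Adj a b → F.Adj a b ∨ s(a, b) = s(.inl x, .inl y) := by
      intro a b hab
      rcases hab with h | h
      · exact .inl h
      · rw [fromEdgeSet_adj] at h
        exact .inr h.1
    have hIG : I ≤ sahost H C K := by
      intro a b hab
      rcases hIadj a b hab with h | h
      · exact hF h
      · have h1 : s((.inl x : W ⊕ Option K), .inl y) ∈ (sahost H C K).edgeSet := ⟨hxy, hx, hy⟩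
        rw [← h] at h1
        exact h1
    refine ⟨I, hIG, ?_, ?_⟩
    · rintro ⟨f⟩
      have hf := f.injective
      have hfadj : ∀ a b, H.Adj a b → I.Adj (f a) (f b) := fun a b hab => f.toHom.map_adj hab
      have hfG : ∀ a b, H.Adj a b → (sahost H C K).Adj (f a) (f b) :=
        fun a b hab => hIG (hfadj a b hab)
      have hfc : f c = .inr none := by
        rcases hfc : f c with w | (_ | k)
        · exfalso
          have h1 : ∀ a : H.neighborSet c, ∃ b : H.neighborSet w, f a = .inl b.1 ∧ w ∉ C := by
            rintro ⟨a, ha⟩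
            have h2 := hfG c a ha
            rw [hfc] at h2
            rcases hfa : f a with b | b
            · rw [hfa] at h2
              exact ⟨⟨b, h2.1⟩, rfl, h2.2.1⟩
            · rw [hfa] at h2
              exact h2.elim
          choose g hg using h1
          obtain ⟨b, hb⟩ := hce
          refine hdeg w (hg ⟨b, hb⟩).2 ⟨g, ?_⟩
          intro a a' haa
          apply Subtype.ext
          apply hf
          change f a = f a'
          rw [(hg a).1, (hg a').1, haa]
        · rfl
        · exfalso
          obtain ⟨a, b, hab, ha, hb⟩ := htwo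
          have key : ∀ a, H.Adj c a → f a = .inr none := by
            intro a ha
            have h2 := hfG c a ha
            rw [hfc] at h2
            rcases hfa : f a with d | d
            · rw [hfa] at h2
              exact h2.elim
            · rw [hfa] at h2
              rcases h2 with ⟨h2, -⟩ | ⟨h2, -⟩
              · cases h2
              · rw [h2]
          exact hab (hf ((key a ha).trans (key b hb).symm))
      have hleft : ∀ a, a ∉ C → (∃ d, H.Adj a d) → ∃ w, f a = .inl w := by
        rintro a ha ⟨d, had⟩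
        rcases hfa : f a with w | w
        · exact ⟨w, rfl⟩
        · exfalso
          have h2 := hfG a d had
          rw [hfa] at h2
          rcases hfd : f d with v | v
          · rw [hfd] at h2
            exact h2.elim
          · rw [hfd] at h2
            rcases h2 with ⟨h2, -⟩ | ⟨h2, -⟩
            · rw [h2] at hfa
              exact ha (hf (hfa.trans hfc.symm) ▸ hc)
            · rw [h2] at hfd
              have : d = c := hf (hfd.trans hfc.symm)
              subst this
              exact ha ((hC a d had).2 hc)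
      have : Nonempty W := ⟨c⟩
      choose! g hg using hleft
      have hginj : ∀ a b, a ∉ C → b ∉ C → (∃ d, H.Adj a d) → (∃ d, H.Adj b d) → g a = g b →
          a = b := by
        intro a b ha hb ha' hb' h
        apply hf
        change f a = f b
        rw [hg a ha ha', hg b hb hb', h]
      have hgI : ∀ a b, H.Adj a b → a ∉ C → F.Adj (.inl (g a)) (.inl (g b)) ∨
          s(g a, g b) = s(x, y) := by
        intro a b hab ha
        have hb : b ∉ C := fun h => ha ((hC a b hab).2 h)
        have h1 := hfadj a b hab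
        rw [hg a ha ⟨b, hab⟩, hg b hb ⟨a, hab.symm⟩] at h1
        rcases hIadj _ _ h1 with h | h
        · exact .inl h
        · right
          have h2 : Sym2.map (Sum.inl : W → W ⊕ Option K) s(g a, g b) =
            Sym2.map (Sum.inl : W → W ⊕ Option K) s(x, y) := h
          exact Sym2.map.injective Sum.inl_injective h2
      by_cases hused : ∃ a b, H.Adj a b ∧ a ∉ C ∧ s(g a, g b) = s(x, y)
      · obtain ⟨a0, b0, hab0, ha0, hs0⟩ := hused
        have hb0 : b0 ∉ C := fun h => ha0 ((hC a0 b0 hab0).2 h)
        obtain ⟨h, hh1, hh2, hh3⟩ := hadd a0 b0 hab0 ha0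
        have hnon : ∀ a, (∃ d, H.Adj a d) → ∃ d, H.Adj (h a) d := by
          rintro a ⟨d, had⟩
          exact ⟨h d, (hh3 a d had).1⟩
        refine hP hSr (fun w => g (h w)) ?_ ?_
        · intro a b ha hb ha' hb' hab
          exact hh1 (hginj _ _ (hh2 a ha) (hh2 b hb) (hnon a ha') (hnon b hb') hab)
        · intro a b hab ha
          have hb : b ∉ C := fun h => ha ((hC a b hab).2 h)
          obtain ⟨h4, h5⟩ := hh3 a b hab
          rcases hgI (h a) (h b) h4 (hh2 a ha) with h6 | h6
          · exact h6
          · exfalso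
            apply h5
            rw [← hs0, Sym2.eq_iff] at h6
            rw [Sym2.eq_iff]
            have n1 := hnon a ⟨b, hab⟩
            have n2 := hnon b ⟨a, hab.symm⟩
            rcases h6 with ⟨h6, h7⟩ | ⟨h6, h7⟩
            · exact .inl ⟨hginj _ _ (hh2 a ha) ha0 n1 ⟨b0, hab0⟩ h6,
                hginj _ _ (hh2 b hb) hb0 n2 ⟨a0, hab0.symm⟩ h7⟩
            · exact .inr ⟨hginj _ _ (hh2 a ha) hb0 n1 ⟨a0, hab0.symm⟩ h6,
                hginj _ _ (hh2 b hb) ha0 n2 ⟨b0, hab0⟩ h7⟩
      · push Not at hused
        refine hP hSr g hginj ?_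
        intro a b hab ha
        exact (hgI a b hab ha).resolve_right (hused a b hab ha)
    · have h1 : F.edgeSet \ I.edgeSet = ∅ := by
        rw [Set.sdiff_eq_empty]
        exact edgeSet_mono le_sup_left
      rw [h1]
      have h2 : s((.inl x : W ⊕ Option K), .inl y) ∈ I.edgeSet \ F.edgeSet := by
        refine ⟨?_, hFxy⟩
        change I.Adj _ _
        right
        rw [fromEdgeSet_adj]
        refine ⟨rfl, ?_⟩
        intro h
        exact hxy.ne (Sum.inl_injective h)
      have h3 : Nonempty ↥(I.edgeSet \ F.edgeSet) := ⟨⟨_, h2⟩⟩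
      calc #↥(∅ : Set (Sym2 (W ⊕ Option K))) = 0 := mk_eq_zero _
        _ < _ := by
          rw [← Cardinal.one_le_iff_pos, Cardinal.one_le_iff_ne_zero, Cardinal.mk_ne_zero_iff]
          exact h3
  · -- take the star
    have hSfin : S.Finite := by
      by_contra hinf
      have hinf' : Infinite S := (Set.not_finite.1 hinf).to_subtype
      apply hSr
      have := hfin.to_subtype
      let ν : H.neighborSet c ↪ S := ((Finite.equivFin _).toEmbedding.trans
        Fin.valEmbedding).trans (Infinite.natEmbedding S)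
      exact ⟨ν, ν.injective⟩
    set I : SimpleGraph (W ⊕ Option K) := sahost (⊥ : SimpleGraph W) ∅ K with hI
    have hIadj : ∀ a b, I.Adj a b → a = .inr none ∨ b = .inr none := by
      rintro (a | a) (b | b) h
      · exact absurd h.1 (by simp)
      · exact h.elim
      · exact h.elim
      · rcases h with ⟨h, -⟩ | ⟨h, -⟩
        · exact .inl (by rw [h])
        · exact .inr (by rw [h])
    refine ⟨I, ?_, ?_, ?_⟩
    · rintro (a | a) (b | b) h
      · exact absurd h.1 (by simp)
      · exact h
      · exact h
      · exact h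
    · rintro ⟨f⟩
      obtain ⟨b, hb⟩ := hce
      have hf := f.injective
      have h1 := hIadj _ _ (f.toHom.map_adj hb)
      have h2 := hIadj _ _ (f.toHom.map_adj hxy0)
      have hbC : b ∈ C := (hC c b hb).1 hc
      have hy0 : y0 ∉ C := fun h => hx0 ((hC x0 y0 hxy0).2 h)
      rcases h1 with h1 | h1 <;> rcases h2 with h2 | h2
      · exact hx0 (hf (h2.trans h1.symm) ▸ hc)
      · exact hy0 (hf (h2.trans h1.symm) ▸ hc)
      · exact hx0 (hf (h2.trans h1.symm) ▸ hbC)
      · exact hy0 (hf (h2.trans h1.symm) ▸ hbC)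
    · have h1 : #↥(F.edgeSet \ I.edgeSet) < #K := by
        have hmem : ∀ e : ↥(F.edgeSet \ I.edgeSet), ∃ e' : Sym2 W,
            Sym2.map (Sum.inl : W → W ⊕ Option K) e' = e.1 := by
          rintro ⟨e, he⟩
          induction e using Sym2.ind with
          | _ a b =>
            obtain ⟨h1, h2⟩ := he
            have h3 := hF h1
            rcases a with a | a <;> rcases b with b | b
            · exact ⟨s(a, b), rfl⟩
            · exact h3.elim
            · exact h3.elim
            · exact absurd h3 h2
        choose g hg using hmem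
        refine hKbig _ (fun e => .inl (g e)) ?_
        intro e e' h
        have h4 : g e = g e' := by simpa using h
        apply Subtype.ext
        rw [← hg e, ← hg e', h4]
      refine h1.trans_le ?_
      have h2 : #↥Sᶜ = #K := mk_compl_of_infinite _ (hSfin.lt_aleph0.trans_le hKinf)
      rw [← h2]
      refine mk_le_of_injective (f := fun k : ↥Sᶜ =>
        (⟨s(.inr none, .inr (some k.1)), ?_, ?_⟩ : ↥(I.edgeSet \ F.edgeSet))) ?_
      · exact .inl ⟨rfl, by simp⟩
      · exact k.2
      · intro k k' h
        have h3 : s((.inr none : W ⊕ Option K), .inr (some k.1)) =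
          s(.inr none, .inr (some k'.1)) := congrArg Subtype.val h
        rw [Sym2.eq_iff] at h3
        rcases h3 with ⟨-, h3⟩ | ⟨h3, -⟩
        · exact Subtype.ext (Option.some.inj (Sum.inr_injective h3))
        · cases Sum.inr_injective h3

end

end Pool.Agent.P8H55.SM
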