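import Pool.Agent.P8H55.SM.LFb

/-!
# All locally finite graphs which are not stars fail
-/

open SimpleGraph Cardinal
open scoped Classical

set_option linter.unusedSectionVars false

namespace Pool.Agent.P8H55.SM

open Pool.Agent.Results.MP_fc2b6d_co.Forests Pool.Agent.H165R2.SM
open Pool.Agent.Results.MP_fc2b6d_co

section
variable {W : Type} {H : SimpleGraph W}

theorem not_star_two {a b c d : W} (hab : H.Adj a b) (hcd : H.Adj c d) (h1 : a ≠ c) (h2 : a ≠ d)
    (h3 : b ≠ c) (h4 : b ≠ d) : ¬ IsStar H := by
  rintro ⟨v, hv⟩
  rcases hv a b hab with rfl | rfl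
  · rcases hv c d hcd with rfl | rfl
    · exact h1 rfl
    · exact h2 rfl
  · rcases hv c d hcd with rfl | rfl
    · exact h3 rfl
    · exact h4 rfl

/-- the components of a locally finite graph without rays are finite -/
theorem comp_finite (hlf : ∀ v, (H.neighborSet v).Finite)
    (hray : ¬ ∃ r : ℕ → W, Function.Injective r ∧ ∀ n, H.Adj (r n) (r (n + 1)))
    (C : H.ConnectedComponent) : C.supp.Finite := by
  by_contra hinf
  obtain ⟨v, rfl⟩ := C.exists_rep
  apply hray
  apply exists_ray hlf (v0 := v)
  refine Set.Infinite.mono ?_ hinf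
  intro w hw
  have hr : H.Reachable v w := (ConnectedComponent.exact hw).symm
  obtain ⟨p⟩ := hr
  have key : ∀ (u w : W) (p : H.Walk u w), u ∈ cmp H Set.univ v → w ∈ cmp H Set.univ v := by
    intro u w p
    induction p with
    | nil => exact id
    | cons h _ ih => exact fun hu => ih (Relation.ReflTransGen.tail hu ⟨h, trivial, trivial⟩)
  exact key v w p mem_cmp

theorem lf_fail (hlf : ∀ v, (H.neighborSet v).Finite) (hW : Nonempty W) (hs : ¬ IsStar H) :
    Fail H := by
  -- an edge
  have hedge : ∃ a b, H.Adj a b := by
    by_contra hno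
    push Not at hno
    obtain ⟨w⟩ := hW
    exact hs ⟨w, fun a b hab => absurd hab (hno a b)⟩
  by_cases hray : ∃ r : ℕ → W, Function.Injective r ∧ ∀ n, H.Adj (r n) (r (n + 1))
  · have hray' : ¬ InfiniteGraphs.Rayless H Set.univ := by
      rw [InfiniteGraphs.Rayless, not_not]
      obtain ⟨r, h1, h2⟩ := hray
      exact ⟨r, h1, fun n => ⟨trivial, h2 n⟩⟩
    exact fail_of_not_exists (InfiniteGraphs.result H
      (.inl (InfiniteGraphs.locallyFinite_ray H hlf hray')))
  have hCfin := comp_finite hlf hray
  set up : H.ConnectedComponent → Set H.ConnectedComponent :=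
    fun C => {D | C.toSimpleGraph ⊑ D.toSimpleGraph} with hup
  set E : Set H.ConnectedComponent := {C | ∃ a b, C.toSimpleGraph.Adj a b} with hE
  have hmkE : ∀ a b, H.Adj a b → H.connectedComponentMk a ∈ E := by
    intro a b hab
    exact ⟨⟨a, rfl⟩, ⟨b, (ConnectedComponent.sound hab.reachable).symm⟩, hab⟩
  have hEdge : ∀ C ∈ E, ∃ a b, H.Adj a b ∧ H.connectedComponentMk a = C ∧
      H.connectedComponentMk b = C := by
    rintro C ⟨a, b, hab⟩
    exact ⟨a.1, b.1, hab, a.2, b.2⟩
  have hself : ∀ C, C ∈ up C := fun C => IsContained.refl _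
  have hupE : ∀ C ∈ E, ∀ D ∈ up C, D ∈ E := by
    rintro C ⟨a, b, hab⟩ D ⟨g⟩
    exact ⟨g a, g b, g.toHom.map_adj hab⟩
  -- two components with edges: not a star
  have htwoE : ∀ (A : Set H.ConnectedComponent) (C D : H.ConnectedComponent), C ∈ A → D ∈ A →
      C ≠ D → C ∈ E → D ∈ E → ¬ IsStar (H.induce {w | H.connectedComponentMk w ∈ A}) := by
    intro A C D hC hD hCD hCE hDE
    obtain ⟨a, b, hab, ha, hb⟩ := hEdge C hCE
    obtain ⟨c, d, hcd, hc, hd⟩ := hEdge D hDE
    have hne : ∀ x y, H.connectedComponentMk x = C → H.connectedComponentMk y = D → x ≠ y := by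
      rintro x y hx hy rfl
      exact hCD (hx.symm.trans hy)
    refine not_star_two (H := H.induce {w | H.connectedComponentMk w ∈ A})
      (a := ⟨a, ?_⟩) (b := ⟨b, ?_⟩) (c := ⟨c, ?_⟩) (d := ⟨d, ?_⟩) hab hcd ?_ ?_ ?_ ?_
    · change H.connectedComponentMk a ∈ A
      rw [ha]; exact hC
    · change H.connectedComponentMk b ∈ A
      rw [hb]; exact hC
    · change H.connectedComponentMk c ∈ A
      rw [hc]; exact hD
    · change H.connectedComponentMk d ∈ A
      rw [hd]; exact hD
    · exact fun h => hne a c ha hc (Subtype.mk.inj h)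
    · exact fun h => hne a d ha hd (Subtype.mk.inj h)
    · exact fun h => hne b c hb hc (Subtype.mk.inj h)
    · exact fun h => hne b d hb hd (Subtype.mk.inj h)
  -- finite sets of components closed upwards
  have hfinA : ∀ A : Set H.ConnectedComponent, A.Finite → (∀ C ∈ A, up C ⊆ A) →
      (∃ C ∈ A, C ∈ E) → ¬ IsStar (H.induce {w | H.connectedComponentMk w ∈ A}) → Fail H := by
    rintro A hA hAup ⟨C, hCA, hCE⟩ hns
    have hfin : Finite ↥{w | H.connectedComponentMk w ∈ A} := by
      have h1 : {w | H.connectedComponentMk w ∈ A} = ⋃ C ∈ A, C.supp := by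
        ext w
        simp only [Set.mem_setOf_eq, Set.mem_iUnion, ConnectedComponent.mem_supp_iff,
          exists_prop, exists_eq_right']
      rw [h1]
      exact hA.biUnion fun C _ => hCfin C
    obtain ⟨a, b, hab, ha, hb⟩ := hEdge C hCE
    refine up_step A (fun C hC D hD => hAup C hC hD) ⟨⟨a, ?_⟩, ⟨b, ?_⟩, hab⟩
      (finite_fail _ hns)
    · change H.connectedComponentMk a ∈ A
      rw [ha]; exact hCA
    · change H.connectedComponentMk b ∈ A
      rw [hb]; exact hCA
  by_contra hfail
  -- components with finite upper set are unique of their kind and stars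
  have huniq : ∀ C ∈ E, (up C).Finite → up C = {C} ∧
      IsStar (H.induce {w | H.connectedComponentMk w ∈ up C}) := by
    intro C hC hfin
    have hst : IsStar (H.induce {w | H.connectedComponentMk w ∈ up C}) := by
      by_contra hns
      exact hfail (hfinA (up C) hfin (fun D hD D' hD' => IsContained.trans hD hD')
        ⟨C, hself C, hC⟩ hns)
    refine ⟨?_, hst⟩
    by_contra hne
    obtain ⟨D, hD, hDC⟩ : ∃ D ∈ up C, D ≠ C := by
      by_contra hno
      push Not at hno
      apply hne
      ext D
      exact ⟨fun h => hno D h, fun h => by rw [Set.mem_singleton_iff.1 h]; exact hself C⟩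
    exact htwoE (up C) C D (hself C) hD hDC.symm hC (hupE C hC D hD) hst
  by_cases hinf : ∀ C ∈ E, (up C).Infinite
  · -- additive
    apply hfail
    apply fail_of_not_exists
    apply InfiniteGraphs.result H
    right
    obtain ⟨a, b, hab⟩ := hedge
    refine ⟨⟨s(a, b), hab⟩, ?_⟩
    intro e
    induction e using Sym2.ind with
    | _ x y =>
      intro hxy
      obtain ⟨f, hf, -, -, hadj⟩ := shift (H := H) Set.univ (by
        intro C _ hC
        simpa using hinf C hC) (x := x) (y := y) hxy trivial
      refine contained_of f hf ?_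
      intro a b hab
      rw [deleteEdges_adj]
      exact ⟨(hadj a b hab).1, fun h => (hadj a b hab).2 h⟩
  · push Not at hinf
    obtain ⟨C, hC, hCf⟩ := hinf
    obtain ⟨hCup, hCstar⟩ := huniq C hC hCf
    rw [hCup] at hCstar
    obtain ⟨⟨c, hc⟩, hcc⟩ := hCstar
    have hcC : H.connectedComponentMk c = C := hc
    -- the other components have infinite upper sets
    have hother : ∀ D ∈ E, D ≠ C → (up D).Infinite := by
      intro D hD hDC hfin
      obtain ⟨hDup, -⟩ := huniq D hD hfin
      apply hfail
      refine hfinA {C, D} (Set.toFinite _) ?_ ⟨C, .inl rfl, hC⟩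
        (htwoE {C, D} C D (.inl rfl) (.inr rfl) hDC.symm hC hD)
      rintro D' (rfl | rfl)
      · rw [hCup]
        rintro x rfl
        exact .inl rfl
      · rw [hDup]
        rintro x rfl
        exact .inr rfl
    -- an edge elsewhere
    have hcstar : ∀ a b, H.connectedComponentMk a = C → H.Adj a b → a = c ∨ b = c := by
      intro a b ha hab
      have hb : H.connectedComponentMk b = C := by
        rw [← ha]
        exact (ConnectedComponent.sound hab.reachable).symm
      rcases hcc ⟨a, ha⟩ ⟨b, hb⟩ hab with h | h
      · exact .inl (Subtype.mk.inj h)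
      · exact .inr (Subtype.mk.inj h)
    obtain ⟨x0, y0, hxy0, hx0⟩ : ∃ x y, H.Adj x y ∧ H.connectedComponentMk x ≠ C := by
      by_contra hno
      push Not at hno
      exact hs ⟨c, fun a b hab => hcstar a b (hno a b hab) hab⟩
    have hCadj : ∀ a b, H.Adj a b → (a ∈ C.supp ↔ b ∈ C.supp) := by
      intro a b hab
      rw [ConnectedComponent.mem_supp_iff, ConnectedComponent.mem_supp_iff,
        ConnectedComponent.sound hab.reachable]
    have hcb : ∃ b, H.Adj c b := by
      obtain ⟨a, b, hab, ha, hb⟩ := hEdge C hC
      rcases hcstar a b ha hab with rfl | rfl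
      · exact ⟨b, hab⟩
      · exact ⟨a, hab.symm⟩
    have hstar : ∀ a ∈ C.supp, a = c ∨ H.Adj c a := by
      intro a ha
      have hr : H.Reachable c a := by
        apply ConnectedComponent.exact
        rw [hcC]
        exact ha.symm
      obtain ⟨p⟩ := hr
      have key : ∀ (u v : W) (p : H.Walk u v), (u = c ∨ H.Adj c u) → (v = c ∨ H.Adj c v) := by
        intro u v p
        induction p with
        | nil => exact id
        | @cons u v _ h _ ih =>
          rintro (rfl | hu)
          · exact ih (.inr h)
          · have huC : H.connectedComponentMk u = C := by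
              rw [← hcC]
              exact (ConnectedComponent.sound hu.reachable).symm
            rcases hcstar u v huC h with e | e
            · exact absurd (e ▸ hu) (H.loopless.irrefl _)
            · exact ih (.inl e)
      exact key c a p (.inl rfl)
    refine hfail (star_add C.supp c hCadj hstar (fun a ha b hab => hcstar a b ha hab) hcC (hlf c)
      ?_ hxy0 hx0 hcb ?_)
    · -- degrees
      rintro v hv ⟨g, hg⟩
      have hD : H.connectedComponentMk v ∈ up C := by
        refine contained_of (fun a : C => (⟨if h : H.Adj c a.1 then (g ⟨a.1, h⟩).1 else v, ?_⟩ :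
          (H.connectedComponentMk v))) ?_ ?_
        · by_cases h : H.Adj c a.1
          · simp only [dif_pos h]
            exact (ConnectedComponent.sound (Adj.reachable (g ⟨a.1, h⟩).2)).symm
          · simp only [dif_neg h]
            rfl
        · intro a b hab
          have hab' : (if h : H.Adj c a.1 then (g ⟨a.1, h⟩).1 else v) =
            (if h : H.Adj c b.1 then (g ⟨b.1, h⟩).1 else v) := Subtype.mk.inj hab
          by_cases ha : H.Adj c a.1 <;> by_cases hb : H.Adj c b.1
          · rw [dif_pos ha, dif_pos hb] at hab'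
            have h1 := hg (Subtype.ext hab')
            exact Subtype.ext (Subtype.mk.inj h1)
          · rw [dif_pos ha, dif_neg hb] at hab'
            have h1 := (g ⟨a.1, ha⟩).2
            rw [hab'] at h1
            exact absurd h1 (H.loopless.irrefl _)
          · rw [dif_neg ha, dif_pos hb] at hab'
            have h1 := (g ⟨b.1, hb⟩).2
            rw [← hab'] at h1
            exact absurd h1 (H.loopless.irrefl _)
          · have e1 := (hstar a.1 a.2).resolve_right ha
            have e2 := (hstar b.1 b.2).resolve_right hb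
            exact Subtype.ext (e1.trans e2.symm)
        · intro a b hab
          have hab' : H.Adj a.1 b.1 := hab
          change H.Adj (if h : H.Adj c a.1 then (g ⟨a.1, h⟩).1 else v)
            (if h : H.Adj c b.1 then (g ⟨b.1, h⟩).1 else v)
          rcases hcstar a.1 b.1 a.2 hab' with e | e
          · have ha : ¬ H.Adj c a.1 := by rw [e]; exact H.loopless.irrefl _
            have hb : H.Adj c b.1 := e ▸ hab'
            rw [dif_neg ha, dif_pos hb]
            exact (g ⟨b.1, hb⟩).2
          · have hb : ¬ H.Adj c b.1 := by rw [e]; exact H.loopless.irrefl _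
            have ha : H.Adj c a.1 := e ▸ hab'.symm
            rw [dif_neg hb, dif_pos ha]
            exact (g ⟨a.1, ha⟩).2.symm
      rw [hCup] at hD
      exact hv hD
    · -- shifting
      intro x y hxy hx
      obtain ⟨f, hf, h1, -, h2⟩ := shift (H := H) {D | D ≠ C} (by
        intro D hD hDE
        have h3 := hother D hDE hD
        have h4 : {D' | D' ∈ {D | D ≠ C} ∧ D.toSimpleGraph ⊑ D'.toSimpleGraph} = up D \ {C} := by
          ext D'
          exact ⟨fun h => ⟨h.2, h.1⟩, fun h => ⟨h.2, h.1⟩⟩
        rw [h4]
        exact h3.diff (Set.finite_singleton C)) (x := x) (y := y) hxy hx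
      exact ⟨f, hf, fun w hw => h1 w hw, h2⟩

end

end Pool.Agent.P8H55.SM
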