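import Pool.Agent.H165R2.SM9

/-!
# Private parts: from `H[U]` to `H`
-/

open SimpleGraph
open scoped Classical

namespace Pool.Agent.P8H55.SM

open Pool.Agent.Results.MP_fc2b6d_co.Forests Pool.Agent.H165R2.SM

/-- the outer neighbourhood -/
def Nb {W : Type*} (H : SimpleGraph W) (X : Set W) : Set W := {v | v ∉ X ∧ ∃ x ∈ X, H.Adj x v}

/-- connectedness of a vertex set, by cuts -/
def Cn {W : Type*} (H : SimpleGraph W) (X : Set W) : Prop :=
  X.Nonempty ∧ ∀ Y : Set W, (∃ a ∈ X, a ∈ Y) →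
    (∀ a ∈ X, a ∈ Y → ∀ b ∈ X, H.Adj a b → b ∈ Y) → X ⊆ Y

/-- the component of `d` in `D` -/
def cmp {W : Type*} (H : SimpleGraph W) (D : Set W) (d : W) : Set W :=
  {x | Relation.ReflTransGen (fun a b => H.Adj a b ∧ a ∈ D ∧ b ∈ D) d x}

/-- `X` embeds into `P`, with the neighbours of `X` outside `P` -/
def Emb {W : Type*} (H : SimpleGraph W) (X P : Set W) : Prop :=
  ∃ φ : W → W, (∀ a ∈ X, φ a ∈ P) ∧ (∀ a ∈ Nb H X, φ a ∉ P) ∧ Set.InjOn φ (X ∪ Nb H X) ∧
    ∀ a ∈ X, ∀ b, H.Adj a b → H.Adj (φ a) (φ b)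

section
variable {W : Type*} {H : SimpleGraph W} {D X : Set W} {d : W}

theorem mem_cmp : d ∈ cmp H D d := Relation.ReflTransGen.refl

theorem cmp_sub (hd : d ∈ D) : cmp H D d ⊆ D := by
  intro x hx
  induction hx with
  | refl => exact hd
  | tail _ h _ => exact h.2.2

theorem cmp_closed (hd : d ∈ D) {x y : W} (hx : x ∈ cmp H D d) (hy : y ∈ D) (h : H.Adj x y) :
    y ∈ cmp H D d :=
  Relation.ReflTransGen.tail hx ⟨h, cmp_sub hd hx, hy⟩

theorem cmp_symm {x y : W} (h : y ∈ cmp H D x) : x ∈ cmp H D y := by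
  have key : ∀ z, z ∈ cmp H D x → x ∈ cmp H D z := by
    intro z hz
    induction hz with
    | refl => exact Relation.ReflTransGen.refl
    | tail _ h ih => exact Relation.ReflTransGen.head ⟨h.1.symm, h.2.2, h.2.1⟩ ih
  exact key y h

theorem cmp_cn (hd : d ∈ D) : Cn H (cmp H D d) := by
  refine ⟨⟨d, mem_cmp⟩, ?_⟩
  rintro Y ⟨a, ha, haY⟩ hY x hx
  have hax : x ∈ cmp H D a := (cmp_symm ha).trans hx
  have haD := cmp_sub hd ha
  have key : ∀ y, y ∈ cmp H D a → y ∈ Y := by
    intro y hy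
    induction hy with
    | refl => exact haY
    | @tail b c hab hbc ih =>
      have hb : b ∈ cmp H D d := ha.trans hab
      exact hY b hb ih c (hb.tail hbc) hbc.1
  exact key x hax

theorem Cn.cross (h : Cn H X) {Y : Set W} (h1 : ∃ a ∈ X, a ∈ Y) (h2 : ¬ X ⊆ Y) :
    ∃ a ∈ X, a ∈ Y ∧ ∃ b ∈ X, b ∉ Y ∧ H.Adj a b := by
  by_contra hcon
  apply h2
  refine h.2 Y h1 ?_
  intro a ha haY b hb hab
  by_contra hbY
  exact hcon ⟨a, ha, haY, b, hb, hbY, hab⟩

theorem cn_univ (h : H.Preconnected) (w : W) : Cn H Set.univ := by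
  refine ⟨⟨w, trivial⟩, ?_⟩
  rintro Y ⟨a, -, ha⟩ hY x -
  obtain ⟨p⟩ := h a x
  have key : ∀ (u v : W) (p : H.Walk u v), u ∈ Y → v ∈ Y := by
    intro u v p
    induction p with
    | nil => exact id
    | cons h _ ih => exact fun hu => ih (hY _ trivial hu _ trivial h)
  exact key a x p ha

theorem Cn.preconnected (h : Cn H X) : (H.induce X).Preconnected := by
  intro u v
  have h1 := h.2 {x | ∃ hx : x ∈ X, (H.induce X).Reachable u ⟨x, hx⟩} ⟨u.1, u.2, u.2, ?_⟩ ?_ v.2
  · obtain ⟨_, h1⟩ := h1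
    exact h1
  · exact Reachable.refl _
  · rintro a ha ⟨_, hr⟩ b hb hab
    refine ⟨hb, hr.trans (Adj.reachable ?_)⟩
    exact hab

/-- the reduction lemma -/
theorem pp_step {W : Type} {H : SimpleGraph W} (U : Set W) (hedge : ∃ a b : U, H.Adj a b)
    (hfail : Fail (H.induce U))
    (hC : ∀ D : Set W, (∀ X ⊆ D, Cn H X → (∀ x ∈ X, ∀ y ∈ D, H.Adj x y → y ∈ X) → Emb H X Uᶜ) →
      H.induce U ⊑ H.induce Dᶜ) : Fail H := by
  refine robust U hedge hfail ?_
  rintro V0 K I0 ⟨f⟩
  set D : Set W := {w | ∃ q, f w = .inr q} with hD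
  have h1 : H.induce U ⊑ H.induce Dᶜ := by
    refine hC D ?_
    intro X hXD hX hcl
    obtain ⟨x0, hx0⟩ := hX.1
    obtain ⟨⟨θ, κ, w0⟩, hq⟩ := hXD hx0
    have hall : X ⊆ {x | ∃ w, f x = .inr (θ, κ, w)} := by
      refine hX.2 _ ⟨x0, hx0, w0, hq⟩ ?_
      rintro a ha ⟨w, hw⟩ b hb hab
      obtain ⟨⟨θ', κ', w'⟩, hb'⟩ := hXD hb
      have h := f.toHom.map_adj hab
      change (rob H U V0 K I0).Adj (f a) (f b) at h
      rw [hw, hb'] at h
      obtain ⟨rfl, rfl, -⟩ := h
      exact ⟨w', hb'⟩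
    have hnb : ∀ b ∈ Nb H X, ∃ u : U, f b = .inl (θ u) := by
      rintro b ⟨hbX, a, ha, hab⟩
      obtain ⟨w, hw⟩ := hall ha
      have h := f.toHom.map_adj hab
      change (rob H U V0 K I0).Adj (f a) (f b) at h
      rcases hfb : f b with v | q
      · rw [hw, hfb] at h
        obtain ⟨u, hu, -⟩ := h
        exact ⟨u, by rw [hu]⟩
      · exact absurd (hcl a ha b ⟨q, hfb⟩ hab) hbX
    -- the map back
    set φ : W → W := fun w => if h : ∃ p, f w = .inr (θ, κ, p) then (Classical.choose h).1 else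
      if h : ∃ u : U, f w = .inl (θ u) then (Classical.choose h).1 else w with hφ
    have hφ1 : ∀ w p, f w = .inr (θ, κ, p) → φ w = p.1 := by
      intro w p h
      have hex : ∃ p, f w = .inr (θ, κ, p) := ⟨p, h⟩
      have h2 := Classical.choose_spec hex
      simp only [hφ, dif_pos hex]
      have h3 := h.symm.trans h2
      have := (Prod.mk.inj (Prod.mk.inj (Sum.inr_injective h3)).2).2
      exact (congrArg Subtype.val this).symm
    have hφ2 : ∀ w (u : U), f w = .inl (θ u) → φ w = u.1 := by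
      intro w u h
      have hno : ¬ ∃ p, f w = .inr (θ, κ, p) := by
        rintro ⟨p, hp⟩
        rw [h] at hp
        cases hp
      have hex : ∃ u : U, f w = .inl (θ u) := ⟨u, h⟩
      have h2 := Classical.choose_spec hex
      simp only [hφ, dif_neg hno, dif_pos hex]
      have h3 := h.symm.trans h2
      have := θ.injective (Sum.inl_injective h3)
      exact (congrArg Subtype.val this).symm
    refine ⟨φ, ?_, ?_, ?_, ?_⟩
    · intro a ha
      obtain ⟨w, hw⟩ := hall ha
      rw [hφ1 a w hw]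
      exact w.2
    · intro a ha
      obtain ⟨u, hu⟩ := hnb a ha
      rw [hφ2 a u hu]
      exact fun h => h u.2
    · intro a ha b hb hab
      rcases ha with ha | ha <;> rcases hb with hb | hb
      · obtain ⟨w, hw⟩ := hall ha
        obtain ⟨w', hw'⟩ := hall hb
        rw [hφ1 a w hw, hφ1 b w' hw'] at hab
        apply f.injective
        change f a = f b
        rw [hw, hw', Subtype.ext hab]
      · obtain ⟨w, hw⟩ := hall ha
        obtain ⟨u, hu⟩ := hnb b hb
        rw [hφ1 a w hw, hφ2 b u hu] at hab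
        exact absurd (hab ▸ u.2) w.2
      · obtain ⟨w, hw⟩ := hall hb
        obtain ⟨u, hu⟩ := hnb a ha
        rw [hφ1 b w hw, hφ2 a u hu] at hab
        exact absurd (hab ▸ u.2) w.2
      · obtain ⟨u, hu⟩ := hnb a ha
        obtain ⟨u', hu'⟩ := hnb b hb
        rw [hφ2 a u hu, hφ2 b u' hu'] at hab
        apply f.injective
        change f a = f b
        rw [hu, hu', Subtype.ext hab]
    · intro a ha b hab
      obtain ⟨w, hw⟩ := hall ha
      have h := f.toHom.map_adj hab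
      change (rob H U V0 K I0).Adj (f a) (f b) at h
      rw [hφ1 a w hw]
      by_cases hb : b ∈ X
      · obtain ⟨w', hw'⟩ := hall hb
        rw [hφ1 b w' hw']
        rw [hw, hw'] at h
        exact h.2.2
      · obtain ⟨u, hu⟩ := hnb b ⟨hb, a, ha, hab⟩
        rw [hφ2 b u hu]
        rw [hw, hu] at h
        obtain ⟨u', hu', hadj⟩ := h
        rw [← θ.injective hu']
        exact hadj.symm
  refine h1.trans ?_
  have hin : ∀ w : ↥Dᶜ, ∃ v, f w.1 = .inl v := by
    intro w
    rcases hfw : f w.1 with v | q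
    · exact ⟨v, rfl⟩
    · exact absurd ⟨q, hfw⟩ w.2
  choose g hg using hin
  refine contained_of g ?_ ?_
  · intro a b hab
    apply Subtype.ext
    apply f.injective
    change f a.1 = f b.1
    rw [hg a, hg b, hab]
  · intro a b hab
    have h := f.toHom.map_adj (show H.Adj a.1 b.1 from hab)
    change (rob H U V0 K I0).Adj (f a.1) (f b.1) at h
    rw [hg a, hg b] at h
    exact h

end

end Pool.Agent.P8H55.SM
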