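import Pool.Agent.P8H55.SM.PP

/-!
# Hosts with slots
-/

open SimpleGraph Cardinal
open scoped Classical

set_option linter.unusedSectionVars false

namespace Pool.Agent.P8H55.SM

open Pool.Agent.Results.MP_fc2b6d_co.Forests

/-- slots: `n` slots in class `n` -/
abbrev Slot : Type := Σ n : ℕ, Fin n

theorem class_finite (n : ℕ) : {x : Slot | x.1 = n}.Finite := by
  have : {x : Slot | x.1 = n} ⊆ Set.range (fun i : Fin n => (⟨n, i⟩ : Slot)) := by
    rintro ⟨m, i⟩ h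
    have h' : m = n := h
    subst h'
    exact ⟨i, rfl⟩
  exact (Set.finite_range _).subset this

/-- an infinite set of slots meets infinitely many classes -/
theorem classes_infinite {Y : Set Slot} (hY : Y.Infinite) : (Sigma.fst '' Y).Infinite := by
  intro hfin
  apply hY
  have : Y ⊆ ⋃ n ∈ Sigma.fst '' Y, {x : Slot | x.1 = n} := by
    intro x hx
    simp only [Set.mem_iUnion]
    exact ⟨x.1, ⟨x, hx, rfl⟩, rfl⟩
  exact (hfin.biUnion fun n _ => class_finite n).subset this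

/-- the general slot argument -/
theorem slot_fail {W V : Type} {H : SimpleGraph W} (G Φ : SimpleGraph V) (Gn : ℕ → SimpleGraph V)
    (sl : Slot → Sym2 V) (hsl : Function.Injective sl)
    (hG : ∀ e ∈ G.edgeSet, e ∈ Φ.edgeSet ∨ ∃ x, sl x = e) (hΦ : ∀ n, Φ ≤ Gn n)
    (hGn : ∀ n, Gn n ≤ G) (hin : ∀ x : Slot, sl x ∈ (Gn x.1).edgeSet)
    (hfree : ∀ n, ¬ H ⊑ Gn n)
    (hmany : ∀ F ≤ G, H.Free F → {x | sl x ∈ F.edgeSet}.Infinite →
      ℵ₀ < #↥(Φ.edgeSet \ F.edgeSet)) : Fail H := by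
  refine ⟨V, G, fun F hF hFree => ?_⟩
  have hΦfree : H.Free Φ := fun h => hfree 0 (h.trans (IsContained.of_le (hΦ 0)))
  set Y : Set Slot := {x | sl x ∈ F.edgeSet} with hY
  have hout : F.edgeSet \ Φ.edgeSet ⊆ sl '' Y := by
    rintro e ⟨he, he'⟩
    rcases hG e (edgeSet_mono hF he) with h | ⟨x, rfl⟩
    · exact absurd h he'
    · exact ⟨x, he, rfl⟩
  by_cases hinf : Y.Infinite
  · refine ⟨Φ, (hΦ 0).trans (hGn 0), hΦfree, ?_⟩
    refine lt_of_le_of_lt ?_ (hmany F hF hFree hinf)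
    calc #↥(F.edgeSet \ Φ.edgeSet) ≤ #↥(sl '' Y) := mk_le_mk_of_subset hout
      _ ≤ #↥Y := mk_image_le
      _ ≤ ℵ₀ := mk_le_aleph0
  · rw [Set.not_infinite] at hinf
    set m : ℕ := 2 * Y.ncard + 1 with hm
    refine ⟨Gn m, hGn m, hfree m, ?_⟩
    have h1 : #↥(F.edgeSet \ (Gn m).edgeSet) ≤ (Y.ncard : Cardinal) := by
      calc #↥(F.edgeSet \ (Gn m).edgeSet) ≤ #↥(F.edgeSet \ Φ.edgeSet) :=
            mk_le_mk_of_subset fun e he => ⟨he.1, fun h => he.2 (edgeSet_mono (hΦ m) h)⟩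
        _ ≤ #↥(sl '' Y) := mk_le_mk_of_subset hout
        _ ≤ #↥Y := mk_image_le
        _ = (Y.ncard : Cardinal) := (Set.cast_ncard hinf).symm
    have h2 : ((Y.ncard + 1 : ℕ) : Cardinal) ≤ #↥((Gn m).edgeSet \ F.edgeSet) := by
      set C : Set Slot := {x | x.1 = m} with hC
      have hCfin : C.Finite := class_finite m
      have hCcard : m ≤ C.ncard := by
        have h3 : (Set.range (fun i : Fin m => (⟨m, i⟩ : Slot))).ncard = m := by
          rw [← Set.image_univ, Set.ncard_image_of_injective _ (by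
            intro i j h
            simpa using h), Set.ncard_univ, Nat.card_fin]
        rw [← h3]
        refine Set.ncard_le_ncard ?_ hCfin
        rintro _ ⟨i, rfl⟩
        rfl
      have h4 : Y.ncard + 1 ≤ (C \ Y).ncard := by
        have := Set.ncard_le_ncard_sdiff_add_ncard C Y hinf
        omega
      have h5 : sl '' (C \ Y) ⊆ (Gn m).edgeSet \ F.edgeSet := by
        rintro _ ⟨x, ⟨hx, hx'⟩, rfl⟩
        refine ⟨?_, hx'⟩
        have h6 := hin x
        have h7 : x.1 = m := hx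
        rwa [h7] at h6
      calc ((Y.ncard + 1 : ℕ) : Cardinal) ≤ ((C \ Y).ncard : Cardinal) := Nat.cast_le.2 h4
        _ = #↥(C \ Y) := Set.cast_ncard (hCfin.subset Set.sdiff_subset)
        _ = #↥(sl '' (C \ Y)) := (mk_image_eq hsl).symm
        _ ≤ _ := mk_le_mk_of_subset h5
    exact h1.trans_lt ((Nat.cast_lt.2 (Nat.lt_succ_self _)).trans_le h2)

/-- the base graph `I0` together with private copies of `H - U`, attached along the maps `θ t` -/
def att {W : Type} (H : SimpleGraph W) (U : Set W) {T V0 : Type} (K : Type) (θ : T → U → V0)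
    (I0 : SimpleGraph V0) : SimpleGraph (V0 ⊕ (T × K × ↥(Uᶜ))) where
  Adj a b := match a, b with
    | .inl a, .inl b => I0.Adj a b
    | .inl a, .inr (t, _, w) => ∃ u : U, θ t u = a ∧ H.Adj u w
    | .inr (t, _, w), .inl a => ∃ u : U, θ t u = a ∧ H.Adj u w
    | .inr (t, κ, w), .inr (t', κ', w') => t = t' ∧ κ = κ' ∧ H.Adj w w'
  symm := ⟨by
    rintro (a | ⟨θ, κ, w⟩) (b | ⟨θ', κ', w'⟩) h
    · exact SimpleGraph.Adj.symm (G := I0) h
    · exact h
    · exact h
    · exact ⟨h.1.symm, h.2.1.symm, h.2.2.symm⟩⟩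
  loopless := ⟨by
    rintro (a | ⟨θ, κ, w⟩) h
    · exact I0.loopless.irrefl a h
    · exact H.loopless.irrefl _ h.2.2⟩

section
variable {W : Type} {H : SimpleGraph W} {U : Set W} {T V0 K : Type} {θ : T → U → V0}
  {I0 : SimpleGraph V0}

@[simp] theorem att_ll (a b : V0) : (att H U K θ I0).Adj (.inl a) (.inl b) ↔ I0.Adj a b := Iff.rfl
@[simp] theorem att_lr (a : V0) (t : T) (κ : K) (w : ↥(Uᶜ)) :
    (att H U K θ I0).Adj (.inl a) (.inr (t, κ, w)) ↔ ∃ u : U, θ t u = a ∧ H.Adj u w := Iff.rfl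
@[simp] theorem att_rl (a : V0) (t : T) (κ : K) (w : ↥(Uᶜ)) :
    (att H U K θ I0).Adj (.inr (t, κ, w)) (.inl a) ↔ ∃ u : U, θ t u = a ∧ H.Adj u w := Iff.rfl
@[simp] theorem att_rr (t t' : T) (κ κ' : K) (w w' : ↥(Uᶜ)) :
    (att H U K θ I0).Adj (.inr (t, κ, w)) (.inr (t', κ', w')) ↔
      t = t' ∧ κ = κ' ∧ H.Adj w w' := Iff.rfl

theorem att_mono {I1 : SimpleGraph V0} (h : I0 ≤ I1) : att H U K θ I0 ≤ att H U K θ I1 := by
  rintro (a | ⟨θ, κ, w⟩) (b | ⟨θ', κ', w'⟩) hab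
  · exact h hab
  · exact hab
  · exact hab
  · exact hab

/-- if `F` contains the base of the gadgets `t`, then every private copy misses an edge -/
theorem att_many {F : SimpleGraph (V0 ⊕ (T × K × ↥(Uᶜ)))} (hfree : H.Free F) (t : T)
    (hθ : Function.Injective (θ t))
    (hU : ∀ u u' : U, H.Adj u u' → F.Adj (.inl (θ t u)) (.inl (θ t u'))) :
    #K ≤ #↥((att H U K θ (⊥ : SimpleGraph V0)).edgeSet \ F.edgeSet) := by
  have hmiss : ∀ κ : K, ∃ e : Sym2 (V0 ⊕ (T × K × ↥(Uᶜ))),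
      e ∈ (att H U K θ (⊥ : SimpleGraph V0)).edgeSet ∧ e ∉ F.edgeSet ∧
        ∃ w, (Sum.inr (t, κ, w)) ∈ e := by
    intro κ
    by_contra hcon
    push Not at hcon
    apply hfree
    let f : W → V0 ⊕ (T × K × ↥(Uᶜ)) := fun w =>
      if hw : w ∈ U then .inl (θ t ⟨w, hw⟩) else .inr (t, κ, ⟨w, hw⟩)
    have fin : ∀ w (hw : w ∈ U), f w = .inl (θ t ⟨w, hw⟩) := fun w hw => dif_pos hw
    have fout : ∀ w (hw : w ∉ U), f w = .inr (t, κ, ⟨w, hw⟩) := fun w hw => dif_neg hw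
    refine contained_of f ?_ ?_
    · intro a b hab
      by_cases ha : a ∈ U <;> by_cases hb : b ∈ U
      · rw [fin a ha, fin b hb] at hab
        have := hθ (Sum.inl_injective hab)
        exact congrArg Subtype.val this
      · rw [fin a ha, fout b hb] at hab
        cases hab
      · rw [fout a ha, fin b hb] at hab
        cases hab
      · rw [fout a ha, fout b hb] at hab
        have := (Prod.mk.inj (Prod.mk.inj (Sum.inr_injective hab)).2).2
        exact congrArg Subtype.val this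
    · intro a b hab
      by_cases ha : a ∈ U <;> by_cases hb : b ∈ U
      · rw [fin a ha, fin b hb]
        exact hU _ _ hab
      · rw [fin a ha, fout b hb]
        by_contra hn
        exact hcon s(.inl (θ t ⟨a, ha⟩), .inr (t, κ, ⟨b, hb⟩)) ⟨⟨a, ha⟩, rfl, hab⟩ hn ⟨b, hb⟩
          (Sym2.mem_mk_right _ _)
      · rw [fout a ha, fin b hb]
        by_contra hn
        exact hcon s(.inr (t, κ, ⟨a, ha⟩), .inl (θ t ⟨b, hb⟩)) ⟨⟨b, hb⟩, rfl, hab.symm⟩ hn
          ⟨a, ha⟩ (Sym2.mem_mk_left _ _)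
      · rw [fout a ha, fout b hb]
        by_contra hn
        exact hcon s(.inr (t, κ, ⟨a, ha⟩), .inr (t, κ, ⟨b, hb⟩)) ⟨rfl, rfl, hab⟩ hn ⟨a, ha⟩
          (Sym2.mem_mk_left _ _)
  choose m hm1 hm2 hm3 using hmiss
  refine Cardinal.mk_le_of_injective
    (f := fun κ : K => (⟨m κ, hm1 κ, hm2 κ⟩ :
      ↥((att H U K θ (⊥ : SimpleGraph V0)).edgeSet \ F.edgeSet))) ?_
  intro κ κ' h
  have h3 : m κ = m κ' := congrArg Subtype.val h
  obtain ⟨w, hw⟩ := hm3 κ
  obtain ⟨w', hw'⟩ := hm3 κ'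
  have h4 := hm1 κ
  rw [h3] at hw h4
  generalize m κ' = e at hw hw' h4
  induction e using Sym2.ind with
  | _ a b =>
    rw [Sym2.mem_iff] at hw hw'
    rw [mem_edgeSet] at h4
    rcases hw with rfl | rfl
    · rcases hw' with hw' | rfl
      · exact (Prod.mk.inj (Prod.mk.inj (Sum.inr_injective hw')).2).1.symm
      · exact h4.2.1
    · rcases hw' with rfl | hw'
      · exact h4.2.1.symm
      · exact (Prod.mk.inj (Prod.mk.inj (Sum.inr_injective hw')).2).1.symm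

/-- the slot argument for hosts with private copies. `sb x` is the slot edge `x`; the base graph
with the slot edges in `Y` is `I Y`. -/
theorem att_fail {H : SimpleGraph W} (U : Set W) (θ : T → U → V0)
    (I : Set Slot → SimpleGraph V0) (s1 s2 : Slot → V0)
    (hsl : Function.Injective fun x => s(s1 x, s2 x))
    (hI : ∀ Y a b, (I Y).Adj a b ↔ ∃ x ∈ Y, s(s1 x, s2 x) = s(a, b))
    (hθ : ∀ t, Function.Injective (θ t))
    (hfree : ∀ n, ¬ H ⊑ att H U (Set ℕ) θ (I {x | x.1 = n}))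
    (hbase : ∀ Y : Set Slot, Y.Infinite → ∃ t : T, ∀ u u' : U, H.Adj u u' →
      ∃ x ∈ Y, s(s1 x, s2 x) = s(θ t u, θ t u')) : Fail H := by
  refine slot_fail (att H U (Set ℕ) θ (I Set.univ)) (att H U (Set ℕ) θ (⊥ : SimpleGraph V0))
    (fun n => att H U (Set ℕ) θ (I {x | x.1 = n})) (fun x => s(.inl (s1 x), .inl (s2 x))) ?_ ?_ ?_
    ?_ ?_ hfree ?_
  · intro x y hxy
    apply hsl
    have h : Sym2.map (Sum.inl : V0 → V0 ⊕ (T × Set ℕ × ↥(Uᶜ))) s(s1 x, s2 x) =
      Sym2.map (Sum.inl : V0 → V0 ⊕ (T × Set ℕ × ↥(Uᶜ))) s(s1 y, s2 y) := hxy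
    exact Sym2.map.injective Sum.inl_injective h
  · intro e he
    induction e using Sym2.ind with
    | _ a b =>
      rcases a with a | ⟨t, κ, w⟩ <;> rcases b with b | ⟨t', κ', w'⟩
      · right
        have h1 : (I Set.univ).Adj a b := he
        obtain ⟨x, -, hx⟩ := (hI _ _ _).1 h1
        refine ⟨x, ?_⟩
        have h2 := congrArg (Sym2.map (Sum.inl : V0 → V0 ⊕ (T × Set ℕ × ↥(Uᶜ)))) hx
        exact h2
      · exact .inl he
      · exact .inl he
      · exact .inl he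
  · exact fun n => att_mono bot_le
  · intro n
    refine att_mono ?_
    intro a b hab
    obtain ⟨x, -, hx⟩ := (hI _ _ _).1 hab
    exact (hI _ _ _).2 ⟨x, trivial, hx⟩
  · intro x
    change (I {y | y.1 = x.1}).Adj (s1 x) (s2 x)
    exact (hI _ _ _).2 ⟨x, rfl, rfl⟩
  · intro F hF hFree hinf
    obtain ⟨t, ht⟩ := hbase _ hinf
    refine lt_of_lt_of_le ?_ (att_many hFree t (hθ t) ?_)
    · rw [Cardinal.mk_set, Cardinal.mk_nat]
      exact Cardinal.cantor _
    · intro u u' huu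
      obtain ⟨x, hx, hx'⟩ := ht u u' huu
      have h2 := congrArg (Sym2.map (Sum.inl : V0 → V0 ⊕ (T × Set ℕ × ↥(Uᶜ)))) hx'
      have h3 : s((.inl (s1 x) : V0 ⊕ (T × Set ℕ × ↥(Uᶜ))), .inl (s2 x)) =
        s(.inl (θ t u), .inl (θ t u')) := h2
      have h4 : s((.inl (s1 x) : V0 ⊕ (T × Set ℕ × ↥(Uᶜ))), .inl (s2 x)) ∈ F.edgeSet := hx
      rw [h3] at h4
      exact h4

end

end Pool.Agent.P8H55.SM
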