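import Pool.Agent.P8H55.SM.Slot

/-!
# The star host
-/

open SimpleGraph Cardinal
open scoped Classical

set_option linter.unusedSectionVars false

namespace Pool.Agent.P8H55.SM

open Pool.Agent.Results.MP_fc2b6d_co.Forests Pool.Agent.H165R2.SM

/-- every connected set embedding into `P` (with neighbours outside) is in `P` -/
def Closed {W : Type*} (H : SimpleGraph W) (P : Set W) : Prop :=
  ∀ D, Cn H D → Emb H D P → D ⊆ P

theorem pp_closed {W : Type} {H : SimpleGraph W} {U : Set W} (hcl : Closed H Uᶜ)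
    (hedge : ∃ a b : U, H.Adj a b) (hfail : Fail (H.induce U)) : Fail H := by
  refine pp_step U hedge hfail ?_
  intro D hD
  have hDP : D ⊆ Uᶜ := by
    intro d hd
    exact hcl _ (cmp_cn hd) (hD (cmp H D d) (cmp_sub hd) (cmp_cn hd)
      (fun x hx y hy hxy => cmp_closed hd hx hy hxy)) mem_cmp
  refine contained_of (fun w => ⟨w.1, fun h => hDP h w.2⟩) ?_ ?_
  · intro a b hab
    exact Subtype.ext (Subtype.mk.inj hab)
  · intro a b hab
    exact hab

theorem closed_deg {W : Type*} [Finite W] {H : SimpleGraph W} (k : ℕ) :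
    Closed H {w | k ≤ (H.neighborSet w).ncard}ᶜ := by
  rintro D hD ⟨φ, h1, h2, h3, h4⟩ a ha hk
  apply h1 a ha
  have hk' : k ≤ (H.neighborSet a).ncard := hk
  change k ≤ (H.neighborSet (φ a)).ncard
  refine hk'.trans ?_
  refine Set.ncard_le_ncard_of_injOn φ (fun b hb => h4 a ha b hb) ?_ (Set.toFinite _)
  have hsub : ∀ b ∈ H.neighborSet a, b ∈ D ∪ Nb H D := by
    intro b hb
    by_cases hbD : b ∈ D
    · exact .inl hbD
    · exact .inr ⟨hbD, a, ha, hb⟩
  exact h3.mono hsub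

section
variable {W : Type} {H : SimpleGraph W} {U : Set W} {T V0 K : Type} {θ : T → U → V0}
  {I0 : SimpleGraph V0}

/-- the natural map of `H` to a gadget -/
noncomputable def gam (U : Set W) {T V0 K : Type} (θ : T → U → V0) (t : T) (κ : K) (w : W) :
    V0 ⊕ (T × K × ↥(Uᶜ)) :=
  if hw : w ∈ U then .inl (θ t ⟨w, hw⟩) else .inr (t, κ, ⟨w, hw⟩)

theorem gam_in (t : T) (κ : K) {w : W} (hw : w ∈ U) :
    gam U θ t κ w = .inl (θ t ⟨w, hw⟩) := dif_pos hw

theorem gam_out (t : T) (κ : K) {w : W} (hw : w ∉ U) :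
    gam U θ t κ w = .inr (t, κ, ⟨w, hw⟩) := dif_neg hw

theorem gam_inj (t : T) (κ : K) (hθ : Function.Injective (θ t)) :
    Function.Injective (gam U θ t κ) := by
  intro a b hab
  by_cases ha : a ∈ U <;> by_cases hb : b ∈ U
  · rw [gam_in t κ ha, gam_in t κ hb] at hab
    exact congrArg Subtype.val (hθ (Sum.inl_injective hab))
  · rw [gam_in t κ ha, gam_out t κ hb] at hab
    cases hab
  · rw [gam_out t κ ha, gam_in t κ hb] at hab
    cases hab
  · rw [gam_out t κ ha, gam_out t κ hb] at hab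
    exact congrArg Subtype.val (Prod.mk.inj (Prod.mk.inj (Sum.inr_injective hab)).2).2

theorem priv_adj {t : T} {κ : K} {w : ↥(Uᶜ)} {y : V0 ⊕ (T × K × ↥(Uᶜ))}
    (h : (att H U K θ I0).Adj (.inr (t, κ, w)) y) : ∃ g, y = gam U θ t κ g ∧ H.Adj w g := by
  rcases y with a | ⟨t', κ', w'⟩
  · obtain ⟨u, hu, hadj⟩ := h
    refine ⟨u.1, ?_, hadj.symm⟩
    rw [gam_in t κ u.2, hu]
  · obtain ⟨rfl, rfl, hadj⟩ := h
    exact ⟨w'.1, (gam_out t κ w'.2).symm, hadj⟩

/-- vertices which go to private `P`-vertices are in `P` -/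
theorem closed_pull {M : Set W} (hcl : Closed H Mᶜ) (hUM : U ⊆ M)
    (hθ : ∀ t, Function.Injective (θ t)) (f : W → V0 ⊕ (T × K × ↥(Uᶜ)))
    (hf : Function.Injective f) (hfadj : ∀ a b, H.Adj a b → (att H U K θ I0).Adj (f a) (f b))
    {v : W} {t : T} {κ : K} {w : ↥(Uᶜ)} (hv : f v = .inr (t, κ, w)) (hw : w.1 ∉ M) : v ∉ M := by
  set Ω : Set W := {v | ∃ (t : T) (κ : K) (w : ↥(Uᶜ)), f v = .inr (t, κ, w) ∧ w.1 ∉ M} with hΩ
  have hvΩ : v ∈ Ω := ⟨t, κ, w, hv, hw⟩
  have hcn := cmp_cn (H := H) hvΩ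
  have hall : ∀ a ∈ cmp H Ω v, ∃ w : ↥(Uᶜ), f a = .inr (t, κ, w) ∧ w.1 ∉ M := by
    refine hcn.2 {a | ∃ w : ↥(Uᶜ), f a = .inr (t, κ, w) ∧ w.1 ∉ M} ⟨v, mem_cmp, w, hv, hw⟩ ?_
    rintro a - ⟨wa, hwa, -⟩ b hb hab
    obtain ⟨t', κ', wb, hwb, hwbM⟩ := cmp_sub hvΩ hb
    have h := hfadj a b hab
    rw [hwa, hwb] at h
    obtain ⟨rfl, rfl, -⟩ := h
    exact ⟨wb, hwb, hwbM⟩
  have hnb : ∀ a ∈ cmp H Ω v, ∀ b, H.Adj a b → ∃ g, f b = gam U θ t κ g := by
    intro a ha b hab
    obtain ⟨wa, hwa, -⟩ := hall a ha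
    have h := hfadj a b hab
    rw [hwa] at h
    obtain ⟨g, hg, -⟩ := priv_adj h
    exact ⟨g, hg⟩
  set φ : W → W := fun a => if h : ∃ g, f a = gam U θ t κ g then Classical.choose h else a with hφ
  have hφ1 : ∀ a g, f a = gam U θ t κ g → φ a = g := by
    intro a g h
    have hex : ∃ g, f a = gam U θ t κ g := ⟨g, h⟩
    have h2 := Classical.choose_spec hex
    simp only [hφ, dif_pos hex]
    exact gam_inj t κ (hθ t) (h2.symm.trans h)
  have hφP : ∀ a (w : ↥(Uᶜ)), f a = .inr (t, κ, w) → φ a = w.1 := by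
    intro a w h
    apply hφ1
    rw [h, gam_out t κ w.2]
  have hE : Emb H (cmp H Ω v) Mᶜ := by
    refine ⟨φ, ?_, ?_, ?_, ?_⟩
    · intro a ha
      obtain ⟨w, hw, hwM⟩ := hall a ha
      rw [hφP a w hw]
      exact hwM
    · rintro b ⟨hb, a, ha, hab⟩
      obtain ⟨g, hg⟩ := hnb a ha b hab
      rw [hφ1 b g hg, Set.mem_compl_iff, not_not]
      by_contra hgM
      have hgU : g ∉ U := fun h => hgM (hUM h)
      rw [gam_out t κ hgU] at hg
      exact hb (cmp_closed hvΩ ha ⟨t, κ, _, hg, hgM⟩ hab)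
    · have key : ∀ a ∈ cmp H Ω v ∪ Nb H (cmp H Ω v), ∃ g, f a = gam U θ t κ g := by
        rintro a (ha | ⟨hb, a', ha', hab⟩)
        · obtain ⟨w, hw, -⟩ := hall a ha
          exact ⟨w.1, by rw [hw, gam_out t κ w.2]⟩
        · exact hnb a' ha' a hab
      intro a ha b hb hab
      obtain ⟨g, hg⟩ := key a ha
      obtain ⟨g', hg'⟩ := key b hb
      rw [hφ1 a g hg, hφ1 b g' hg'] at hab
      apply hf
      rw [hg, hg', hab]
    · intro a ha b hab
      obtain ⟨w, hw, -⟩ := hall a ha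
      have h := hfadj a b hab
      rw [hw] at h
      obtain ⟨g, hg, hadj⟩ := priv_adj h
      rw [hφP a w hw, hφ1 b g hg]
      exact hadj
  exact hcl _ hcn hE mem_cmp

end

/-- the base graph of the star host -/
def sbase (Y : Set Slot) : SimpleGraph (Option Slot) where
  Adj a b := (a = none ∧ ∃ x ∈ Y, b = some x) ∨ (b = none ∧ ∃ x ∈ Y, a = some x)
  symm := ⟨fun a b h => h.symm⟩
  loopless := ⟨by
    rintro a (⟨h, x, -, h'⟩ | ⟨h, x, -, h'⟩)
    · rw [h] at h'; cases h'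
    · rw [h] at h'; cases h'⟩

/-- walks avoiding `z` -/
def Pth {W : Type*} (H : SimpleGraph W) (z : W) (d : ℕ) (l l' : W) : Prop :=
  ∃ p : ℕ → W, p 0 = l ∧ p d = l' ∧ (∀ i < d, H.Adj (p i) (p (i + 1))) ∧ ∀ i ≤ d, p i ≠ z

theorem star_step {W : Type} [Finite W] {H : SimpleGraph W} {M : Set W} (hcl : Closed H Mᶜ)
    (z : W) (hz : z ∈ M) (hstar : ∀ a ∈ M, ∀ b ∈ M, H.Adj a b → a = z ∨ b = z)
    (l1 l2 : W) (hl1 : l1 ∈ M) (hl2 : l2 ∈ M) (hne : l1 ≠ l2) (ha1 : H.Adj z l1)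
    (ha2 : H.Adj z l2) (hconn : (H.induce {z}ᶜ).Preconnected) : Fail H := by
  set Λ : Set W := {l | l ∈ M ∧ H.Adj z l} with hΛ
  set U : Set W := insert z Λ with hU
  have hUM : U ⊆ M := by
    rintro u (rfl | hu)
    · exact hz
    · exact hu.1
  have hzΛ : z ∉ Λ := fun h => h.2.ne rfl
  let T : Type := {τ : Λ → Slot // Function.Injective fun l => (τ l).1}
  let θ : T → U → Option Slot := fun τ u => if h : u.1 ∈ Λ then some (τ.1 ⟨u.1, h⟩) else none
  have θΛ : ∀ (τ : T) (l : W) (hlU : l ∈ U) (hl : l ∈ Λ), θ τ ⟨l, hlU⟩ = some (τ.1 ⟨l, hl⟩) :=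
    fun τ l hlU hl => dif_pos hl
  have θz : ∀ (τ : T) (hzU : z ∈ U), θ τ ⟨z, hzU⟩ = none := fun τ _ => dif_neg hzΛ
  have hzU : z ∈ U := .inl rfl
  have hθ : ∀ τ, Function.Injective (θ τ) := by
    rintro τ ⟨u, hu⟩ ⟨v, hv⟩ huv
    apply Subtype.ext
    change u = v
    rcases (Set.mem_insert_iff.1 hu) with hu' | hu' <;>
      rcases (Set.mem_insert_iff.1 hv) with hv' | hv'
    · exact hu'.trans hv'.symm
    · subst hu'
      rw [θz, θΛ τ v hv hv'] at huv
      cases huv
    · subst hv'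
      rw [θz, θΛ τ u hu hu'] at huv
      cases huv
    · rw [θΛ τ u hu hu', θΛ τ v hv hv'] at huv
      have h := Option.some.inj huv
      have h' := τ.2 (congrArg Sigma.fst h)
      exact congrArg Subtype.val h'
  refine att_fail U θ sbase (fun _ => none) (fun x => some x) ?_ ?_ hθ ?_ ?_
  · intro x y hxy
    have hxy' : s((none : Option Slot), some x) = s(none, some y) := hxy
    rw [Sym2.eq_iff] at hxy'
    rcases hxy' with h | h
    · exact Option.some.inj h.2
    · cases h.1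
  · intro Y a b
    constructor
    · rintro (⟨rfl, x, hx, rfl⟩ | ⟨rfl, x, hx, rfl⟩)
      · exact ⟨x, hx, rfl⟩
      · exact ⟨x, hx, Sym2.eq_swap⟩
    · rintro ⟨x, hx, h⟩
      rw [Sym2.eq_iff] at h
      rcases h with ⟨rfl, rfl⟩ | ⟨rfl, rfl⟩
      · exact .inl ⟨rfl, x, hx, rfl⟩
      · exact .inr ⟨rfl, x, hx, rfl⟩
  · -- freeness
    rintro n ⟨f⟩
    have hf : Function.Injective f := f.injective
    have hfadj : ∀ a b, H.Adj a b →
        (att H U (Set ℕ) θ (sbase {x | x.1 = n})).Adj (f a) (f b) :=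
      fun a b hab => f.toHom.map_adj hab
    have hR : ∀ v ∈ M, ∀ t κ w, f v = .inr (t, κ, w) → w.1 ∈ M := by
      intro v hv t κ w h
      by_contra hw
      exact closed_pull hcl hUM hθ f hf hfadj h hw hv
    -- the centre and the leaves
    have hbase : ∀ a ∈ M, ∀ b ∈ M, H.Adj a b → ∃ y, f a = .inl y := by
      intro a ha b hb hab
      rcases hfa : f a with y | ⟨t, κ, w⟩
      · exact ⟨y, rfl⟩
      · exfalso
        have hwM := hR a ha t κ w hfa
        have h := hfadj a b hab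
        rw [hfa] at h
        obtain ⟨g, hg, hadj⟩ := priv_adj h
        have hgM : g ∈ M := by
          by_cases hgU : g ∈ U
          · exact hUM hgU
          · rw [gam_out t κ hgU] at hg
            exact hR b hb t κ _ hg
        rcases hstar w.1 hwM g hgM hadj with e | e
        · exact w.2 (.inl e)
        · rw [e] at hadj
          exact w.2 (.inr ⟨hwM, hadj.symm⟩)
    obtain ⟨y, hy⟩ := hbase z hz l1 hl1 ha1
    have hleaf : ∀ l ∈ Λ, ∃ y', f l = .inl y' ∧ (sbase {x | x.1 = n}).Adj y y' := by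
      intro l hl
      obtain ⟨y', hy'⟩ := hbase l hl.1 z hz hl.2.symm
      refine ⟨y', hy', ?_⟩
      have h := hfadj z l hl.2
      rw [hy, hy'] at h
      exact h
    have hynone : y = none := by
      obtain ⟨y1, e1, h1⟩ := hleaf l1 ⟨hl1, ha1⟩
      obtain ⟨y2, e2, h2⟩ := hleaf l2 ⟨hl2, ha2⟩
      rcases h1 with h1 | ⟨h1, x, -, hx⟩
      · exact h1.1
      · rcases h2 with h2 | ⟨h2, -⟩
        · exact h2.1
        · exfalso
          apply hne
          apply hf
          rw [e1, e2, h1, h2]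
    subst hynone
    have hslot : ∀ l ∈ Λ, ∃ x : Slot, f l = .inl (some x) ∧ x.1 = n := by
      intro l hl
      obtain ⟨y', e, h⟩ := hleaf l hl
      rcases h with ⟨-, x, hx, rfl⟩ | ⟨-, x, -, h⟩
      · exact ⟨x, e, hx⟩
      · cases h
    -- a shortest path between two leaves
    have hex : ∃ d, ∃ l ∈ Λ, ∃ l' ∈ Λ, l ≠ l' ∧ Pth H z d l l' := by
      have m1 : l1 ∈ ({z}ᶜ : Set W) := ha1.ne'
      have m2 : l2 ∈ ({z}ᶜ : Set W) := ha2.ne'
      obtain ⟨p⟩ := hconn ⟨l1, m1⟩ ⟨l2, m2⟩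
      refine ⟨p.length, l1, ⟨hl1, ha1⟩, l2, ⟨hl2, ha2⟩, hne, fun i => (p.getVert i).1, ?_, ?_, ?_,
        ?_⟩
      · simp only [Walk.getVert_zero]
      · simp only [Walk.getVert_length]
      · intro i hi
        exact p.adj_getVert_succ hi
      · intro i _
        exact (p.getVert i).2
    obtain ⟨l, hl, l', hl', hll, p, hp0, hpd, hpadj, hpz⟩ := Nat.find_spec hex
    set d := Nat.find hex with hd
    have hmin : ∀ m, (∃ l ∈ Λ, ∃ l' ∈ Λ, l ≠ l' ∧ Pth H z m l l') → d ≤ m :=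
      fun m h => Nat.find_min' hex h
    have hd0 : 1 ≤ d := by
      by_contra h
      have h0 : d = 0 := by omega
      rw [h0] at hpd
      exact hll (hp0.symm.trans hpd)
    obtain ⟨x0, hx0, hx0n⟩ := hslot l hl
    obtain ⟨xd, hxd, hxdn⟩ := hslot l' hl'
    have hexj : ∃ j, 1 ≤ j ∧ ∃ y : Slot, f (p j) = .inl (some y) := ⟨d, hd0, xd, by rw [hpd, hxd]⟩
    obtain ⟨hj1, yj, hyj⟩ := Nat.find_spec hexj
    set j := Nat.find hexj with hj
    have hjd : j ≤ d := Nat.find_min' hexj ⟨hd0, xd, by rw [hpd, hxd]⟩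
    have hpriv : ∀ i, 1 ≤ i → i < j → ∃ t κ w, f (p i) = .inr (t, κ, w) := by
      intro i hi hij
      rcases hfi : f (p i) with y | ⟨t, κ, w⟩
      · exfalso
        rcases y with _ | y
        · exact hpz i (by omega) (hf (hfi.trans hy.symm))
        · exact Nat.find_min hexj hij ⟨hi, y, hfi⟩
      · exact ⟨t, κ, w, rfl⟩
    have hj2 : 2 ≤ j := by
      by_contra h
      have h1 : j = 1 := by omega
      rw [h1] at hyj
      have h2 := hfadj _ _ (hpadj 0 (by omega))
      rw [hp0, hx0, Nat.zero_add, hyj] at h2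
      rcases h2 with ⟨h3, -⟩ | ⟨h3, -⟩
      · cases h3
      · cases h3
    obtain ⟨t, κ, w1, hw1⟩ := hpriv 1 le_rfl (by omega)
    have hsame : ∀ i, 1 ≤ i → i < j → ∃ w, f (p i) = .inr (t, κ, w) := by
      intro i hi
      induction i, hi using Nat.le_induction with
      | base => exact fun _ => ⟨w1, hw1⟩
      | succ i hi ih =>
        intro hij
        obtain ⟨w, hw⟩ := ih (by omega)
        obtain ⟨t', κ', w', hw'⟩ := hpriv (i + 1) (by omega) hij
        have h := hfadj _ _ (hpadj i (by omega))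
        rw [hw, hw'] at h
        obtain ⟨rfl, rfl, -⟩ := h
        exact ⟨w', hw'⟩
    -- the pull back of the path
    have hgex : ∀ i, i ≤ j → ∃ g, f (p i) = gam U θ t κ g := by
      intro i hi
      by_cases h1 : i = 0
      · subst h1
        have h := hfadj _ _ (hpadj 0 (by omega)).symm
        rw [Nat.zero_add, hw1] at h
        obtain ⟨g, hg, -⟩ := priv_adj h
        exact ⟨g, hg⟩
      by_cases h2 : i = j
      · obtain ⟨w, hw⟩ := hsame (j - 1) (by omega) (by omega)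
        have h := hfadj _ _ (hpadj (j - 1) (by omega))
        rw [hw, show j - 1 + 1 = j by omega] at h
        obtain ⟨g, hg, -⟩ := priv_adj h
        exact ⟨g, by rw [h2]; exact hg⟩
      obtain ⟨w, hw⟩ := hsame i (by omega) (by omega)
      exact ⟨w.1, by rw [hw, gam_out t κ w.2]⟩
    have : Nonempty W := ⟨z⟩
    choose! g hg using hgex
    have hginj : ∀ a b, gam U θ t κ a = gam U θ t κ b → a = b := fun a b h => gam_inj t κ (hθ t) h
    have hgp : ∀ i, 1 ≤ i → i < j → ∃ hw : g i ∉ U, f (p i) = .inr (t, κ, ⟨g i, hw⟩) := by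
      intro i hi hij
      obtain ⟨w, hw⟩ := hsame i hi hij
      have h1 := hg i (by omega)
      rw [hw] at h1
      have h2 : w.1 = g i := by
        apply hginj
        rw [gam_out t κ w.2, h1]
      have h3 : g i ∉ U := h2 ▸ w.2
      refine ⟨h3, ?_⟩
      rw [hw]
      congr 3
      exact Subtype.ext h2
    have hgadj : ∀ i < j, H.Adj (g i) (g (i + 1)) := by
      intro i hij
      by_cases hi : 1 ≤ i
      · obtain ⟨hgU, hfi⟩ := hgp i hi hij
        have h := hfadj _ _ (hpadj i (by omega))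
        rw [hfi] at h
        obtain ⟨g', hg', hadj⟩ := priv_adj h
        rw [hg (i + 1) (by omega)] at hg'
        rw [hginj _ _ hg']
        exact hadj
      · have hi0 : i = 0 := by omega
        subst hi0
        obtain ⟨hgU, hfi⟩ := hgp 1 le_rfl (by omega)
        have h := hfadj _ _ (hpadj 0 (by omega)).symm
        rw [Nat.zero_add, hfi] at h
        obtain ⟨g', hg', hadj⟩ := priv_adj h
        rw [hg 0 (by omega)] at hg'
        rw [hginj _ _ hg']
        exact hadj.symm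
    have hgz : ∀ i ≤ j, g i ≠ z := by
      intro i hi h
      have h1 := hg i hi
      rw [h, gam_in t κ hzU, θz] at h1
      exact hpz i (by omega) (hf (h1.trans hy.symm))
    have hgΛ : ∀ i ≤ j, ∀ x : Slot, f (p i) = .inl (some x) → ∃ h : g i ∈ Λ, x = t.1 ⟨g i, h⟩ := by
      intro i hi x hx
      have h1 := hg i hi
      rw [hx] at h1
      by_cases hU' : g i ∈ U
      · have hΛ' : g i ∈ Λ := hU'.resolve_left (hgz i hi)
        rw [gam_in t κ hU', θΛ t (g i) hU' hΛ'] at h1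
        exact ⟨hΛ', Option.some.inj (Sum.inl_injective h1)⟩
      · rw [gam_out t κ hU'] at h1
        cases h1
    obtain ⟨hg0, e0⟩ := hgΛ 0 (by omega) x0 (by rw [hp0, hx0])
    obtain ⟨hgj, ej⟩ := hgΛ j le_rfl yj hyj
    have hp0j : p 0 ≠ p j := by
      intro h
      have h1 := hmin (d - j) ⟨l, hl, l', hl', hll, fun i => p (i + j), ?_, ?_, ?_, ?_⟩
      · omega
      · change p (0 + j) = l
        rw [Nat.zero_add, ← h, hp0]
      · change p (d - j + j) = l'
        rw [Nat.sub_add_cancel hjd, hpd]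
      · intro i hi
        have := hpadj (i + j) (by omega)
        change H.Adj (p (i + j)) (p (i + 1 + j))
        rw [show i + 1 + j = i + j + 1 by omega]
        exact this
      · intro i hi
        exact hpz _ (by omega)
    have hg0j : g 0 ≠ g j := by
      intro h
      apply hp0j
      apply hf
      rw [hg 0 (by omega), hg j le_rfl, h]
    have hdj := hmin j ⟨g 0, hg0, g j, hgj, hg0j, g, rfl, rfl, hgadj, hgz⟩
    have hjd' : j = d := le_antisymm hjd hdj
    have hyn : yj.1 = n := by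
      rw [hjd', hpd, hxd] at hyj
      rw [← Option.some.inj (Sum.inl_injective hyj)]
      exact hxdn
    apply hg0j
    have h5 : (t.1 ⟨g 0, hg0⟩).1 = (t.1 ⟨g j, hgj⟩).1 := by
      rw [← e0, ← ej, hx0n, hyn]
    exact congrArg Subtype.val (t.2 h5)
  · -- the base condition
    intro Y hY
    have h1 := classes_infinite hY
    have : Infinite ↥(Sigma.fst '' Y) := h1.to_subtype
    have : Finite Λ := inferInstance
    let ν : Λ ↪ ↥(Sigma.fst '' Y) := ((Finite.equivFin Λ).toEmbedding.trans Fin.valEmbedding).trans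
      (Infinite.natEmbedding _)
    have h2 : ∀ l : Λ, ∃ x ∈ Y, x.1 = (ν l).1 := fun l => (ν l).2
    choose τ hτ1 hτ2 using h2
    refine ⟨⟨τ, ?_⟩, ?_⟩
    · intro l l' h
      apply ν.injective
      apply Subtype.ext
      rw [← hτ2 l, ← hτ2 l']
      exact h
    · rintro ⟨u, hu⟩ ⟨v, hv⟩ huv
      have huv' : H.Adj u v := huv
      rcases hstar u (hUM hu) v (hUM hv) huv' with h | h
      · subst h
        have hvΛ : v ∈ Λ := ⟨hUM hv, huv'⟩
        exact ⟨τ ⟨v, hvΛ⟩, hτ1 _, by rw [θz, θΛ _ v hv hvΛ]⟩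
      · subst h
        have huΛ : u ∈ Λ := ⟨hUM hu, huv'.symm⟩
        exact ⟨τ ⟨u, huΛ⟩, hτ1 _, by rw [θz, θΛ _ u hu huΛ]; exact Sym2.eq_swap⟩

end Pool.Agent.P8H55.SM
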