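import Pool.Agent.P8H55.SM.Star
import Pool.Agent.P8H55.SM.Asm

/-!
# 2-connected graphs with at least two separating edges
-/

open SimpleGraph Cardinal
open scoped Classical

set_option linter.unusedSectionVars false

namespace Pool.Agent.P8H55.SM

open Pool.Agent.Results.MP_fc2b6d_co.Forests Pool.Agent.H165R2.SM

section
variable {W : Type} [Finite W] {H : SimpleGraph W}

theorem cn_of_preconnected {Z : Set W} (hne : Z.Nonempty) (h : (H.induce Z).Preconnected) :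
    Cn H Z := by
  refine ⟨hne, ?_⟩
  rintro Y ⟨a, ha, haY⟩ hY x hx
  obtain ⟨p⟩ := h ⟨a, ha⟩ ⟨x, hx⟩
  have key : ∀ (u v : Z) (p : (H.induce Z).Walk u v), u.1 ∈ Y → v.1 ∈ Y := by
    intro u v p
    induction p with
    | nil => exact id
    | @cons u v w h _ ih => exact fun hu => ih (hY _ u.2 hu _ v.2 h)
  exact key _ _ p haY

theorem Cn.union {X Y : Set W} (hX : Cn H X) (hY : Cn H Y)
    (h : (∃ a ∈ X, a ∈ Y) ∨ ∃ a ∈ X, ∃ b ∈ Y, H.Adj a b) : Cn H (X ∪ Y) := by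
  obtain ⟨x0, hx0⟩ := hX.1
  refine ⟨⟨x0, .inl hx0⟩, ?_⟩
  rintro Z ⟨a, ha, haZ⟩ hZ
  have hXZ : (∃ a ∈ X, a ∈ Z) → X ⊆ Z := fun h =>
    hX.2 Z h fun a ha haZ b hb hab => hZ a (.inl ha) haZ b (.inl hb) hab
  have hYZ : (∃ a ∈ Y, a ∈ Z) → Y ⊆ Z := fun h =>
    hY.2 Z h fun a ha haZ b hb hab => hZ a (.inr ha) haZ b (.inr hb) hab
  rcases ha with ha | ha
  · have h1 := hXZ ⟨a, ha, haZ⟩
    refine Set.union_subset h1 (hYZ ?_)
    rcases h with ⟨b, hb, hb'⟩ | ⟨b, hb, c, hc, hbc⟩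
    · exact ⟨b, hb', h1 hb⟩
    · exact ⟨c, hc, hZ b (.inl hb) (h1 hb) c (.inr hc) hbc⟩
  · have h1 := hYZ ⟨a, ha, haZ⟩
    refine Set.union_subset (hXZ ?_) h1
    rcases h with ⟨b, hb, hb'⟩ | ⟨b, hb, c, hc, hbc⟩
    · exact ⟨b, hb, h1 hb'⟩
    · exact ⟨b, hb, hZ c (.inr hc) (h1 hc) b (.inl hb) hbc.symm⟩

theorem nb_submod (A B : Set W) :
    (Nb H (A ∩ B)).ncard + (Nb H (A ∪ B)).ncard ≤ (Nb H A).ncard + (Nb H B).ncard := by
  rw [← Set.ncard_union_add_ncard_inter (Nb H (A ∩ B)) (Nb H (A ∪ B)) (Set.toFinite _)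
    (Set.toFinite _), ← Set.ncard_union_add_ncard_inter (Nb H A) (Nb H B) (Set.toFinite _)
    (Set.toFinite _)]
  refine Nat.add_le_add (Set.ncard_le_ncard ?_ (Set.toFinite _))
    (Set.ncard_le_ncard ?_ (Set.toFinite _))
  · rintro v (⟨h1, a, ha, hav⟩ | ⟨h1, a, ha, hav⟩)
    · by_cases hv : v ∈ A
      · right
        exact ⟨fun h => h1 ⟨hv, h⟩, a, ha.2, hav⟩
      · exact .inl ⟨hv, a, ha.1, hav⟩
    · rcases ha with ha | ha
      · exact .inl ⟨fun h => h1 (.inl h), a, ha, hav⟩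
      · exact .inr ⟨fun h => h1 (.inr h), a, ha, hav⟩
  · rintro v ⟨⟨-, a, ha, hav⟩, ⟨h2, -⟩⟩
    exact ⟨⟨fun h => h2 (.inl h), a, ha.1, hav⟩, ⟨fun h => h2 (.inr h), a, ha.2, hav⟩⟩

/-- few neighbours: everything -/
theorem nb_small (hconn : H.Preconnected) (hcut : ∀ v, (H.induce {v}ᶜ).Preconnected) {Q : Set W}
    (hQ : Cn H Q) (h1 : (Nb H Q).ncard ≤ 1) : Q ∪ Nb H Q = Set.univ := by
  by_cases h0 : (Nb H Q).Nonempty
  · obtain ⟨v, hv⟩ := h0
    have huniq : ∀ w ∈ Nb H Q, w = v := by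
      intro w hw
      exact Set.ncard_le_one (Set.toFinite _) |>.1 h1 w hw v hv
    apply Set.eq_univ_of_forall
    intro w
    by_cases hwv : w = v
    · exact .inr (hwv ▸ hv)
    · left
      obtain ⟨q, hq⟩ := hQ.1
      have hqv : q ≠ v := fun h => hv.1 (h ▸ hq)
      refine (cn_of_preconnected ⟨q, hqv⟩ (hcut v)).2 Q ⟨q, hqv, hq⟩ ?_ hwv
      intro a _ haQ b hb hab
      by_contra hbQ
      exact hb (huniq b ⟨hbQ, a, haQ, hab⟩)
  · have : Q = Set.univ := by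
      refine closed_univ hconn hQ.1 ?_
      intro a ha b hab
      by_contra hb
      exact h0 ⟨b, hb, a, ha, hab⟩
    rw [this, Set.univ_union]

/-- the standing assumptions; `k` is the smallest size of a part with two outer neighbours -/
structure Setup2 (H : SimpleGraph W) (k : ℕ) : Prop where
  conn : H.Preconnected
  cut : ∀ v, (H.induce {v}ᶜ).Preconnected
  deg : ∀ v, 3 ≤ (H.neighborSet v).ncard
  min : ∀ Q, Cn H Q → (Nb H Q).ncard = 2 → k ≤ Q.ncard
  big : 2 * k + 2 ≤ Nat.card W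

structure Mb2 (H : SimpleGraph W) (k : ℕ) (Q : Set W) : Prop where
  cn : Cn H Q
  nb : (Nb H Q).ncard = 2
  card : Q.ncard = k

/-- the union of the smallest parts -/
def P2 (H : SimpleGraph W) (k : ℕ) : Set W := {w | ∃ Q, Mb2 H k Q ∧ w ∈ Q}

variable {k : ℕ} (S : Setup2 H k)
include S

theorem Setup2.ge2 {Q : Set W} (hQ : Cn H Q) (h : Q.ncard + 1 < Nat.card W) :
    2 ≤ (Nb H Q).ncard := by
  by_contra hlt
  have h1 := nb_small S.conn S.cut hQ (by omega)
  have h2 := Set.ncard_union_le Q (Nb H Q)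
  rw [h1, Set.ncard_univ] at h2
  omega

theorem Setup2.ge3 {Q : Set W} (hQ : Cn H Q) (h : Q.ncard < k) : 3 ≤ (Nb H Q).ncard := by
  have hb := S.big
  have h1 := S.ge2 hQ (by omega)
  by_contra hlt
  have h2 := S.min Q hQ (by omega)
  omega

theorem Mb2.two_le {X : Set W} (hX : Mb2 H k X) : 2 ≤ k := by
  rw [← hX.card]
  obtain ⟨a, ha⟩ := hX.cn.1
  by_contra hlt
  have h1 : X.ncard ≤ 1 := by omega
  have huniq : ∀ w ∈ X, w = a := fun w hw => Set.ncard_le_one (Set.toFinite _) |>.1 h1 w hw a ha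
  have h2 : H.neighborSet a ⊆ Nb H X := by
    intro b hb
    refine ⟨fun hbX => ?_, a, ha, hb⟩
    have := huniq b hbX
    have hb' : H.Adj a b := hb
    exact hb'.ne this.symm
  have h3 := Set.ncard_le_ncard h2 (Set.toFinite _)
  have h4 := S.deg a
  rw [hX.nb] at h3
  omega

theorem Mb2.disj {X Y : Set W} (hX : Mb2 H k X) (hY : Mb2 H k Y) (h : ∃ a ∈ X, a ∈ Y) :
    X = Y := by
  by_contra hne
  obtain ⟨a, haX, haY⟩ := h
  have hlt : (X ∩ Y).ncard < k := by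
    rw [← hX.card]
    refine Set.ncard_lt_ncard ⟨Set.inter_subset_left, fun h => ?_⟩ (Set.toFinite _)
    apply hne
    exact Set.eq_of_subset_of_ncard_le (fun x hx => (h hx).2) (by rw [hX.card, hY.card])
  have haI : a ∈ X ∩ Y := ⟨haX, haY⟩
  have hcn := cmp_cn (H := H) haI
  have hsub := cmp_sub (H := H) haI
  have h1 := S.ge3 hcn (lt_of_le_of_lt (Set.ncard_le_ncard hsub (Set.toFinite _)) hlt)
  have h2 : Nb H (cmp H (X ∩ Y) a) ⊆ Nb H (X ∩ Y) := by
    rintro v ⟨hv, b, hb, hbv⟩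
    exact ⟨fun h => hv (cmp_closed haI hb h hbv), b, hsub hb, hbv⟩
  have h3 := Set.ncard_le_ncard h2 (Set.toFinite _)
  have h4 := nb_submod (H := H) X Y
  rw [hX.nb, hY.nb] at h4
  have h5 := nb_small S.conn S.cut (hX.cn.union hY.cn (.inl ⟨a, haX, haY⟩)) (by omega)
  have h6 := Set.ncard_union_le (X ∪ Y) (Nb H (X ∪ Y))
  rw [h5, Set.ncard_univ] at h6
  have h7 := Set.ncard_union_le X Y
  rw [hX.card, hY.card] at h7
  have := S.big
  omega

theorem Mb2.nonadj {X Y : Set W} (hX : Mb2 H k X) (hY : Mb2 H k Y) {x y : W} (hx : x ∈ X)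
    (hy : y ∈ Y) (hxy : H.Adj x y) : X = Y := by
  by_contra hne
  have hdis : ∀ a ∈ X, a ∉ Y := fun a ha ha' => hne (hX.disj S hY ⟨a, ha, ha'⟩)
  have hyN : y ∈ Nb H X := ⟨fun h => hdis y h hy, x, hx, hxy⟩
  have hxN : x ∈ Nb H Y := ⟨hdis x hx, y, hy, hxy.symm⟩
  have hcn := hX.cn.union hY.cn (.inr ⟨x, hx, y, hy, hxy⟩)
  have hb := S.big
  have h7 := Set.ncard_union_le X Y
  rw [hX.card, hY.card] at h7
  have h1 := S.ge2 hcn (by omega)
  have h2 : Nb H (X ∪ Y) ⊆ (Nb H X \ Y) ∪ (Nb H Y \ X) := by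
    rintro v ⟨hv, a, ha | ha, hav⟩
    · exact .inl ⟨⟨fun h => hv (.inl h), a, ha, hav⟩, fun h => hv (.inr h)⟩
    · exact .inr ⟨⟨fun h => hv (.inr h), a, ha, hav⟩, fun h => hv (.inl h)⟩
  have h3 := (Set.ncard_le_ncard h2 (Set.toFinite _)).trans (Set.ncard_union_le _ _)
  have h4 : (Nb H X \ Y).ncard + (Nb H X ∩ Y).ncard = 2 := by
    rw [add_comm, Set.ncard_inter_add_ncard_sdiff_eq_ncard _ _ (Set.toFinite _), hX.nb]
  have h5 : (Nb H Y \ X).ncard + (Nb H Y ∩ X).ncard = 2 := by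
    rw [add_comm, Set.ncard_inter_add_ncard_sdiff_eq_ncard _ _ (Set.toFinite _), hY.nb]
  have h6 : 0 < (Nb H X ∩ Y).ncard := (Set.ncard_pos (Set.toFinite _)).2 ⟨y, hyN, hy⟩
  have h8 : 0 < (Nb H Y ∩ X).ncard := (Set.ncard_pos (Set.toFinite _)).2 ⟨x, hxN, hx⟩
  have h9 : (Nb H Y ∩ X).ncard ≤ 1 := by omega
  have h10 : ∀ a ∈ X, H.Adj a y → a = x := by
    intro a ha hay
    exact Set.ncard_le_one (Set.toFinite _) |>.1 h9 a ⟨⟨hdis a ha, y, hy, hay.symm⟩, ha⟩ x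
      ⟨hxN, hx⟩
  -- a part inside `X - x`
  have hk := hX.two_le S
  obtain ⟨w, hw, hwx⟩ : ∃ w ∈ X, w ≠ x := by
    by_contra hno
    push Not at hno
    have : X.ncard ≤ 1 := Set.ncard_le_one (Set.toFinite _) |>.2 fun a ha b hb =>
      (hno a ha).trans (hno b hb).symm
    rw [hX.card] at this
    omega
  have hwD : w ∈ X \ {x} := ⟨hw, hwx⟩
  have hcnD := cmp_cn (H := H) hwD
  have hsub := cmp_sub (H := H) hwD
  have hlt : (cmp H (X \ {x}) w).ncard < k := by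
    rw [← hX.card]
    refine Set.ncard_lt_ncard ⟨fun a ha => (hsub ha).1, fun h => ?_⟩ (Set.toFinite _)
    exact (hsub (h hx)).2 rfl
  have h11 := S.ge3 hcnD hlt
  have h12 : Nb H (cmp H (X \ {x}) w) ⊆ insert x (Nb H X \ {y}) := by
    rintro v ⟨hv, a, ha, hav⟩
    by_cases hvX : v ∈ X
    · by_cases hvx : v = x
      · exact .inl hvx
      · exact absurd (cmp_closed hwD ha ⟨hvX, hvx⟩ hav) hv
    · right
      refine ⟨⟨hvX, a, (hsub ha).1, hav⟩, ?_⟩
      intro hvy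
      have hvy' : v = y := hvy
      subst hvy'
      exact (hsub ha).2 (h10 a (hsub ha).1 hav)
  have h13 := (Set.ncard_le_ncard h12 (Set.toFinite _)).trans (Set.ncard_insert_le _ _)
  have h14 := Set.ncard_sdiff_singleton_add_one hyN (Set.toFinite _)
  rw [hX.nb] at h14
  omega

theorem closed_P2 : Closed H (P2 H k) := by
  rintro D hD ⟨φ, h1, h2, h3, h4⟩
  obtain ⟨d, hd⟩ := hD.1
  obtain ⟨Y, hY, hdY⟩ := h1 d hd
  have hall : ∀ a ∈ D, φ a ∈ Y := by
    refine hD.2 {a | φ a ∈ Y} ⟨d, hd, hdY⟩ ?_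
    intro a ha haY b hb hab
    obtain ⟨Y', hY', hbY'⟩ := h1 b hb
    have : Y = Y' := hY.nonadj S hY' haY hbY' (h4 a ha b hab)
    subst this
    exact hbY'
  have hnb : ∀ b ∈ Nb H D, φ b ∈ Nb H Y := by
    rintro b ⟨hb, a, ha, hab⟩
    refine ⟨fun h => h2 b ⟨hb, a, ha, hab⟩ ⟨Y, hY, h⟩, φ a, hall a ha, h4 a ha b hab⟩
  have hc1 : D.ncard ≤ k := by
    rw [← hY.card]
    exact Set.ncard_le_ncard_of_injOn φ hall (h3.mono Set.subset_union_left) (Set.toFinite _)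
  have hc2 : (Nb H D).ncard ≤ 2 := by
    rw [← hY.nb]
    exact Set.ncard_le_ncard_of_injOn φ hnb (h3.mono Set.subset_union_right) (Set.toFinite _)
  have hb := S.big
  have h5 := S.ge2 hD (by omega)
  have h6 := S.min D hD (by omega)
  intro a ha
  exact ⟨D, ⟨hD, by omega, by omega⟩, ha⟩

/-- separating edges do not meet the parts -/
theorem sep_notMem {a b : W} (hab : H.Adj a b) (hsep : ¬ (H.induce {a, b}ᶜ).Preconnected) :
    a ∉ P2 H k := by
  rintro ⟨Q, hQ, haQ⟩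
  unfold SimpleGraph.Preconnected at hsep
  push Not at hsep
  obtain ⟨u, v, huv⟩ := hsep
  have hdis : ∀ w ∈ cmp H {a, b}ᶜ u.1, w ∉ cmp H {a, b}ᶜ v.1 := by
    intro w hwu hwv
    apply huv
    have hr : ∀ w (h : w ∈ cmp H {a, b}ᶜ u.1), ∃ hw : w ∈ ({a, b}ᶜ : Set W),
        (H.induce {a, b}ᶜ).Reachable u ⟨w, hw⟩ := by
      intro w h
      induction h with
      | refl => exact ⟨u.2, Reachable.refl _⟩
      | tail _ h ih =>
        obtain ⟨_, ih⟩ := ih
        exact ⟨h.2.2, ih.trans (Adj.reachable h.1)⟩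
    have : v.1 ∈ cmp H {a, b}ᶜ u.1 := Relation.ReflTransGen.trans hwu (cmp_symm hwv)
    obtain ⟨_, h⟩ := hr _ this
    exact h
  have hbig := S.big
  -- the components of `H - a - b`
  have hcomp : ∀ w, w ∈ ({a, b}ᶜ : Set W) → ∃ x ∈ cmp H {a, b}ᶜ w, x ∈ Nb H Q := by
    intro w hw
    have hcn := cmp_cn (H := H) hw
    have hsub := cmp_sub (H := H) hw
    have haC : a ∉ cmp H {a, b}ᶜ w := fun h => hsub h (.inl rfl)
    have hbC : b ∉ cmp H {a, b}ᶜ w := fun h => hsub h (.inr rfl)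
    have h1 : Nb H (cmp H {a, b}ᶜ w) ⊆ {a, b} := by
      rintro y ⟨hy, c, hc, hcy⟩
      by_contra hno
      exact hy (cmp_closed hw hc hno hcy)
    have h2 := Set.ncard_le_ncard h1 (Set.toFinite _)
    rw [Set.ncard_pair hab.ne] at h2
    have h3 : (cmp H {a, b}ᶜ w).ncard + 1 < Nat.card W := by
      have h4 : (insert a (insert b (cmp H {a, b}ᶜ w))).ncard ≤ Nat.card W := by
        rw [← Set.ncard_univ]
        exact Set.ncard_le_ncard (Set.subset_univ _) (Set.toFinite _)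
      rw [Set.ncard_insert_of_notMem _ (Set.toFinite _),
        Set.ncard_insert_of_notMem hbC (Set.toFinite _)] at h4
      · omega
      · rintro (h | h)
        · exact hab.ne h
        · exact haC h
    have h4 := S.ge2 hcn h3
    have h5 := S.min _ hcn (by omega)
    have h6 : a ∈ Nb H (cmp H {a, b}ᶜ w) := by
      have : Nb H (cmp H {a, b}ᶜ w) = {a, b} :=
        Set.eq_of_subset_of_ncard_le h1 (by rw [Set.ncard_pair hab.ne]; omega)
      rw [this]
      exact .inl rfl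
    obtain ⟨-, c, hc, hca⟩ := h6
    by_cases hcQ : c ∈ Q
    · have hnot : ¬ cmp H {a, b}ᶜ w ⊆ Q := by
        intro h
        have h7 : (cmp H {a, b}ᶜ w).ncard < Q.ncard :=
          Set.ncard_lt_ncard ⟨h, fun h' => haC (h' haQ)⟩ (Set.toFinite _)
        rw [hQ.card] at h7
        omega
      obtain ⟨e, -, heQ, g, hg, hgQ, heg⟩ := hcn.cross ⟨c, hc, hcQ⟩ hnot
      exact ⟨g, hg, hgQ, e, heQ, heg⟩
    · exact ⟨c, hc, hcQ, a, haQ, hca.symm⟩
  obtain ⟨x1, hx1, hx1N⟩ := hcomp u.1 u.2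
  obtain ⟨x2, hx2, hx2N⟩ := hcomp v.1 v.2
  have hx12 : x1 ≠ x2 := fun h => hdis x1 hx1 (h ▸ hx2)
  have hN : Nb H Q = {x1, x2} := by
    symm
    refine Set.eq_of_subset_of_ncard_le ?_ ?_ (Set.toFinite _)
    · rintro y (rfl | rfl)
      · exact hx1N
      · exact hx2N
    · rw [hQ.nb, Set.ncard_pair hx12]
  have hbQ : b ∈ Q := by
    by_contra hb
    have : b ∈ Nb H Q := ⟨hb, a, haQ, hab⟩
    rw [hN] at this
    rcases this with h | h
    · exact (cmp_sub (H := H) u.2 hx1) (.inr h.symm)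
    · exact (cmp_sub (H := H) v.2 hx2) (.inr h.symm)
  -- a vertex far from `Q`
  obtain ⟨w, hw⟩ : ((Q ∪ Nb H Q)ᶜ).Nonempty := by
    rw [Set.nonempty_compl]
    intro h
    have h1 := Set.ncard_union_le Q (Nb H Q)
    rw [h, Set.ncard_univ, hQ.card, hQ.nb] at h1
    have := hQ.two_le S
    omega
  have hRsub : (Q ∪ Nb H Q)ᶜ ⊆ ({a, b}ᶜ : Set W) := by
    rintro y hy (h | h)
    · exact hy (.inl (h ▸ haQ))
    · have h' : y = b := h
      exact hy (.inl (h' ▸ hbQ))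
  have hcn := cmp_cn (H := H) hw
  have hsub := cmp_sub (H := H) hw
  have hDC : ∀ y ∈ cmp H (Q ∪ Nb H Q)ᶜ w, y ∈ cmp H {a, b}ᶜ w := by
    intro y hy
    induction hy with
    | refl => exact mem_cmp
    | @tail y y' h1 h2 ih => exact cmp_closed (hRsub hw) ih (hRsub h2.2.2) h2.1
  have hND : ∀ y ∈ Nb H (cmp H (Q ∪ Nb H Q)ᶜ w), y ∈ Nb H Q ∧ y ∈ cmp H {a, b}ᶜ w := by
    rintro y ⟨hy, c, hc, hcy⟩
    have hcR := hsub hc
    have hyQ : y ∉ Q := by
      intro h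
      exact hcR (.inr ⟨fun h' => hcR (.inl h'), y, h, hcy.symm⟩)
    have hyN : y ∈ Nb H Q := by
      by_contra h
      exact hy (cmp_closed hw hc (fun h' => h'.elim hyQ h) hcy)
    refine ⟨hyN, ?_⟩
    refine cmp_closed (hRsub hw) (hDC c hc) ?_ hcy
    rintro (h | h)
    · exact hyQ (h ▸ haQ)
    · have h' : y = b := h
      exact hyQ (h' ▸ hbQ)
  have h1 : (Nb H (cmp H (Q ∪ Nb H Q)ᶜ w)).ncard ≤ 1 := by
    refine Set.ncard_le_one (Set.toFinite _) |>.2 ?_
    intro y hy y' hy'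
    obtain ⟨hyN, hyC⟩ := hND y hy
    obtain ⟨hyN', hyC'⟩ := hND y' hy'
    rw [hN] at hyN hyN'
    have hno : ¬ (x1 ∈ cmp H {a, b}ᶜ w ∧ x2 ∈ cmp H {a, b}ᶜ w) := by
      rintro ⟨e1, e2⟩
      -- `u`, `v` in the same component
      have e3 : x2 ∈ cmp H {a, b}ᶜ u.1 := by
        have e4 : w ∈ cmp H {a, b}ᶜ x1 := cmp_symm e1
        have e5 : w ∈ cmp H {a, b}ᶜ u.1 := Relation.ReflTransGen.trans hx1 e4
        exact Relation.ReflTransGen.trans e5 e2
      exact hdis x2 e3 hx2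
    rcases hyN with rfl | rfl <;> rcases hyN' with rfl | rfl
    · rfl
    · exact absurd ⟨hyC, hyC'⟩ hno
    · exact absurd ⟨hyC', hyC⟩ hno
    · rfl
  have h2 := nb_small S.conn S.cut hcn h1
  have h3 : a ∈ cmp H (Q ∪ Nb H Q)ᶜ w ∪ Nb H (cmp H (Q ∪ Nb H Q)ᶜ w) := h2 ▸ trivial
  rcases h3 with h | h
  · exact hRsub (hsub h) (.inl rfl)
  · exact (hND a h).1.1 haQ

omit S in
/-- if the complement of a closed set has two edges -/
theorem closed_step {M : Set W} (hcl : Closed H Mᶜ) (hM : M ≠ Set.univ)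
    (hcut : ∀ v, (H.induce {v}ᶜ).Preconnected)
    (IH : ∀ U : Set W, U ≠ Set.univ → ¬ IsStar (H.induce U) → Fail (H.induce U))
    {a b c d : W} (ha : a ∈ M) (hb : b ∈ M) (hc : c ∈ M) (hd : d ∈ M) (hab : H.Adj a b)
    (hcd : H.Adj c d) (hne : s(a, b) ≠ s(c, d)) : Fail H := by
  by_cases hs : IsStar (H.induce M)
  · obtain ⟨⟨z, hz⟩, hstar⟩ := hs
    have hst : ∀ a ∈ M, ∀ b ∈ M, H.Adj a b → a = z ∨ b = z := by
      intro a ha b hb hab
      rcases hstar ⟨a, ha⟩ ⟨b, hb⟩ hab with h | h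
      · exact .inl (Subtype.mk.inj h)
      · exact .inr (Subtype.mk.inj h)
    rcases hst a ha b hb hab with rfl | rfl
    · rcases hst c hc d hd hcd with rfl | rfl
      · exact star_step hcl c hz hst b d hb hd (fun h => hne (by rw [h])) hab hcd (hcut c)
      · exact star_step hcl d hz hst b c hb hc (fun h => hne (by rw [h]; exact Sym2.eq_swap)) hab
          hcd.symm (hcut d)
    · rcases hst c hc d hd hcd with rfl | rfl
      · exact star_step hcl c hz hst a d ha hd (fun h => hne (by rw [h]; exact Sym2.eq_swap))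
          hab.symm hcd (hcut c)
      · exact star_step hcl d hz hst a c ha hc (fun h => hne (by rw [h])) hab.symm hcd.symm
          (hcut d)
  · exact pp_closed hcl ⟨⟨a, ha⟩, ⟨b, hb⟩, hab⟩ (IH M hM hs)

omit S in
/-- the ends of a separating edge have degree at least three -/
theorem sep_deg (hconn : H.Preconnected) (hcut : ∀ v, (H.induce {v}ᶜ).Preconnected) {a b : W}
    (hab : H.Adj a b) (hsep : ¬ (H.induce {a, b}ᶜ).Preconnected) :
    3 ≤ (H.neighborSet a).ncard := by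
  unfold SimpleGraph.Preconnected at hsep
  push Not at hsep
  obtain ⟨u, v, huv⟩ := hsep
  have hr : ∀ u : ↥({a, b}ᶜ : Set W), ∀ w (h : w ∈ cmp H {a, b}ᶜ u.1),
      ∃ hw : w ∈ ({a, b}ᶜ : Set W), (H.induce {a, b}ᶜ).Reachable u ⟨w, hw⟩ := by
    intro u w h
    induction h with
    | refl => exact ⟨u.2, Reachable.refl _⟩
    | tail _ h ih =>
      obtain ⟨_, ih⟩ := ih
      exact ⟨h.2.2, ih.trans (Adj.reachable h.1)⟩
  have hnb : ∀ u : ↥({a, b}ᶜ : Set W), ∃ c ∈ cmp H {a, b}ᶜ u.1, H.Adj a c := by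
    intro u
    by_contra hno
    push Not at hno
    have hua : u.1 ∈ ({b}ᶜ : Set W) := fun h => u.2 (.inr h)
    have hsub : ({b}ᶜ : Set W) ⊆ cmp H {a, b}ᶜ u.1 := by
      refine (cn_of_preconnected ⟨u.1, hua⟩ (hcut b)).2 _ ⟨u.1, hua, mem_cmp⟩ ?_
      intro c _ hc e he hce
      by_cases hea : e = a
      · subst hea
        exact absurd hce.symm (hno c hc)
      · refine cmp_closed u.2 hc ?_ hce
        rintro (h | h)
        · exact hea h
        · exact he h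
    have ha : a ∈ ({b}ᶜ : Set W) := hab.ne
    exact (cmp_sub u.2 (hsub ha)) (.inl rfl)
  obtain ⟨c, hc, hac⟩ := hnb u
  obtain ⟨d, hd, had⟩ := hnb v
  have hcd : c ≠ d := by
    rintro rfl
    obtain ⟨h1, e1⟩ := hr u c hc
    obtain ⟨h2, e2⟩ := hr v c hd
    exact huv (e1.trans e2.symm)
  have hcb : c ≠ b := fun h => (cmp_sub u.2 hc) (.inr h)
  have hdb : d ≠ b := fun h => (cmp_sub v.2 hd) (.inr h)
  have h3 : ({b, c, d} : Set W).ncard = 3 := by
    rw [Set.ncard_insert_of_notMem _ (Set.toFinite _), Set.ncard_pair hcd]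
    rintro (h | h)
    · exact hcb h.symm
    · exact hdb h.symm
  rw [← h3]
  refine Set.ncard_le_ncard ?_ (Set.toFinite _)
  rintro x (rfl | rfl | rfl)
  · exact hab
  · exact hac
  · exact had

omit S in
/-- at least two separating edges -/
theorem two_sep (hconn : H.Preconnected) (hcut : ∀ v, (H.induce {v}ᶜ).Preconnected)
    (IH : ∀ U : Set W, U ≠ Set.univ → ¬ IsStar (H.induce U) → Fail (H.induce U))
    {a b c d : W} (hab : H.Adj a b) (hcd : H.Adj c d) (hne : s(a, b) ≠ s(c, d))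
    (hs1 : ¬ (H.induce {a, b}ᶜ).Preconnected) (hs2 : ¬ (H.induce {c, d}ᶜ).Preconnected) :
    Fail H := by
  have hs1' : ¬ (H.induce {b, a}ᶜ).Preconnected := by rwa [Set.pair_comm]
  have hs2' : ¬ (H.induce {d, c}ᶜ).Preconnected := by rwa [Set.pair_comm]
  by_cases hdeg : ∀ v, 3 ≤ (H.neighborSet v).ncard
  · -- a part behind the separating edge
    obtain ⟨Q, hQ, hQ2, hQ3⟩ : ∃ Q, Cn H Q ∧ (Nb H Q).ncard = 2 ∧
        2 * Q.ncard + 2 ≤ Nat.card W := by
      have hpart : ∀ u : ↥({a, b}ᶜ : Set W), Cn H (cmp H {a, b}ᶜ u.1) ∧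
          (Nb H (cmp H {a, b}ᶜ u.1)).ncard = 2 := by
        intro u
        have hcn := cmp_cn (H := H) u.2
        have hsub := cmp_sub (H := H) u.2
        have h1 : Nb H (cmp H {a, b}ᶜ u.1) ⊆ {a, b} := by
          rintro y ⟨hy, c, hc, hcy⟩
          by_contra hno
          exact hy (cmp_closed u.2 hc hno hcy)
        have h2 := Set.ncard_le_ncard h1 (Set.toFinite _)
        rw [Set.ncard_pair hab.ne] at h2
        refine ⟨hcn, le_antisymm h2 ?_⟩
        by_contra hlt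
        have h3 := nb_small hconn hcut hcn (by omega)
        have ha : a ∈ Nb H (cmp H {a, b}ᶜ u.1) := by
          rcases (h3 ▸ trivial : a ∈ cmp H {a, b}ᶜ u.1 ∪ Nb H (cmp H {a, b}ᶜ u.1)) with h | h
          · exact absurd (.inl rfl) (hsub h)
          · exact h
        have hb : b ∈ Nb H (cmp H {a, b}ᶜ u.1) := by
          rcases (h3 ▸ trivial : b ∈ cmp H {a, b}ᶜ u.1 ∪ Nb H (cmp H {a, b}ᶜ u.1)) with h | h
          · exact absurd (.inr rfl) (hsub h)
          · exact h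
        exact hab.ne (Set.ncard_le_one (Set.toFinite _) |>.1 (by omega) a ha b hb)
      have hs := hs1
      unfold SimpleGraph.Preconnected at hs
      push Not at hs
      obtain ⟨u, v, huv⟩ := hs
      have hdisj : Disjoint (cmp H {a, b}ᶜ u.1) (cmp H {a, b}ᶜ v.1) := by
        rw [Set.disjoint_left]
        intro w hwu hwv
        apply huv
        have hr : ∀ w (h : w ∈ cmp H {a, b}ᶜ u.1), ∃ hw : w ∈ ({a, b}ᶜ : Set W),
            (H.induce {a, b}ᶜ).Reachable u ⟨w, hw⟩ := by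
          intro w h
          induction h with
          | refl => exact ⟨u.2, Reachable.refl _⟩
          | tail _ h ih =>
            obtain ⟨_, ih⟩ := ih
            exact ⟨h.2.2, ih.trans (Adj.reachable h.1)⟩
        have : v.1 ∈ cmp H {a, b}ᶜ u.1 := Relation.ReflTransGen.trans hwu (cmp_symm hwv)
        obtain ⟨_, h⟩ := hr _ this
        exact h
      have h1 : (cmp H {a, b}ᶜ u.1 ∪ cmp H {a, b}ᶜ v.1).ncard + 2 ≤ Nat.card W := by
        have h2 : (cmp H {a, b}ᶜ u.1 ∪ cmp H {a, b}ᶜ v.1).ncard ≤ (({a, b} : Set W)ᶜ).ncard := by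
          refine Set.ncard_le_ncard ?_ (Set.toFinite _)
          exact Set.union_subset (cmp_sub u.2) (cmp_sub v.2)
        have h3 := Set.ncard_add_ncard_compl ({a, b} : Set W)
        rw [Set.ncard_pair hab.ne] at h3
        omega
      rw [Set.ncard_union_eq hdisj (Set.toFinite _) (Set.toFinite _)] at h1
      by_cases h : (cmp H {a, b}ᶜ u.1).ncard ≤ (cmp H {a, b}ᶜ v.1).ncard
      · exact ⟨_, (hpart u).1, (hpart u).2, by omega⟩
      · exact ⟨_, (hpart v).1, (hpart v).2, by omega⟩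
    have hex : ∃ n, ∃ Q, Cn H Q ∧ (Nb H Q).ncard = 2 ∧ Q.ncard = n := ⟨_, Q, hQ, hQ2, rfl⟩
    obtain ⟨Q0, hQ0, hQ02, hQ03⟩ := Nat.find_spec hex
    have S : Setup2 H (Nat.find hex) := by
      refine ⟨hconn, hcut, hdeg, ?_, ?_⟩
      · intro Q' h h'
        exact Nat.find_min' hex ⟨Q', h, h', rfl⟩
      · have := Nat.find_min' hex ⟨Q, hQ, hQ2, rfl⟩
        omega
    refine closed_step (M := (P2 H (Nat.find hex))ᶜ) ?_ ?_ hcut IH (sep_notMem S hab hs1)
      (sep_notMem S hab.symm hs1') (sep_notMem S hcd hs2) (sep_notMem S hcd.symm hs2') hab hcd hne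
    · rw [compl_compl]
      exact closed_P2 S
    · intro h
      obtain ⟨q, hq⟩ := hQ0.1
      exact (h ▸ trivial : q ∈ (P2 H (Nat.find hex))ᶜ) ⟨Q0, ⟨hQ0, hQ02, hQ03⟩, hq⟩
  · push Not at hdeg
    obtain ⟨v, hv⟩ := hdeg
    refine closed_step (M := {w | 3 ≤ (H.neighborSet w).ncard}) (closed_deg 3) ?_ hcut IH
      (sep_deg hconn hcut hab hs1) (sep_deg hconn hcut hab.symm hs1')
      (sep_deg hconn hcut hcd hs2) (sep_deg hconn hcut hcd.symm hs2') hab hcd hne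
    intro h
    have : v ∈ {w | 3 ≤ (H.neighborSet w).ncard} := h ▸ trivial
    have h1 : 3 ≤ (H.neighborSet v).ncard := this
    omega

end

end Pool.Agent.P8H55.SM
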