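import Pool.Agent.P8H55.SM.Frag

/-!
# Parts attached to a star with an edge
-/

open SimpleGraph
open scoped Classical

set_option linter.unusedSectionVars false

namespace Pool.Agent.P8H55.SM

open Pool.Agent.Results.MP_fc2b6d_co.Forests Pool.Agent.H165R2.SM

/-- the vertices outside all smallest parts -/
def Inn {W : Type*} (H : SimpleGraph W) (k : ℕ) : Set W := {w | ∀ x X, Mb H k x X → w ∉ X}

/-- outside the parts there is a star, and all parts are isomorphic -/
structure Str {W : Type*} (H : SimpleGraph W) (k : ℕ) (z : W) : Prop where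
  hz : z ∈ Inn H k
  star : ∀ a ∈ Inn H k, ∀ b ∈ Inn H k, H.Adj a b → a = z ∨ b = z
  le : ∀ x X y Y, Mb H k x X → Mb H k y Y → Le H x X y Y

/-- a vertex with all its parts -/
def Qc {W : Type*} (H : SimpleGraph W) (k : ℕ) (l : W) : Set W :=
  {w | w = l ∨ ∃ X, Mb H k l X ∧ w ∈ X}

section
variable {W : Type*} [Finite W] {H : SimpleGraph W} {k : ℕ} {z : W}

theorem nb_inn {v b : W} (hv : v ∈ Inn H k) (h : H.Adj v b) :
    b ∈ Inn H k ∨ ∃ X, Mb H k v X ∧ b ∈ X := by
  by_cases hb : b ∈ Inn H k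
  · exact .inl hb
  · right
    simp only [Inn, Set.mem_setOf_eq, not_forall, not_not] at hb
    obtain ⟨x, X, hX, hbX⟩ := hb
    rcases hX.1.cl b hbX v h.symm with h' | h'
    · exact absurd h' (hv x X hX)
    · subst h'
      exact ⟨X, hX, hbX⟩

theorem Qc_cl {l c d : W} (hc : c ∈ Qc H k l) (hl : l ∈ Inn H k) (h : H.Adj c d) :
    d ∈ Qc H k l ∨ (c = l ∧ d ∈ Inn H k) := by
  rcases hc with rfl | ⟨X, hX, hcX⟩
  · rcases nb_inn hl h with h' | h'
    · exact .inr ⟨rfl, h'⟩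
    · exact .inl (.inr h')
  · left
    rcases hX.1.cl c hcX d h with h' | h'
    · exact .inr ⟨X, hX, h'⟩
    · exact .inl h'

theorem Qc_inn {l c : W} (hc : c ∈ Qc H k l) (h : c ∈ Inn H k) : c = l := by
  rcases hc with h' | ⟨X, hX, hcX⟩
  · exact h'
  · exact absurd hcX (h l X hX)

theorem root_inn (S : Setup H k) {x : W} {X : Set W} (hX : Mb H k x X) : x ∈ Inn H k :=
  fun _ _ hY => hX.root_notMem S hY

theorem root_unique {x y : W} {X : Set W} (hX : Mb H k x X) (hY : Mb H k y X) : x = y := by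
  obtain ⟨b, hb, hbx⟩ := hX.1.nb
  rcases hY.1.cl b hb x hbx with h | h
  · exact absurd h hX.1.out
  · exact h

theorem leaf_carries (S : Setup H k) (T : Str H k z) {l : W} (hl : l ∈ Inn H k) (hlz : l ≠ z) :
    ∃ X, Mb H k l X := by
  obtain ⟨a, b, hab, ha, hb⟩ := S.deg l
  rcases nb_inn hl ha with h | ⟨X, hX, -⟩
  · rcases nb_inn hl hb with h' | ⟨X, hX, -⟩
    · rcases T.star l hl a h ha with e | e
      · exact absurd e hlz
      · rcases T.star l hl b h' hb with e' | e'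
        · exact absurd e' hlz
        · exact absurd (e.trans e'.symm) hab
    · exact ⟨X, hX⟩
  · exact ⟨X, hX⟩

theorem leaf_adj (S : Setup H k) (T : Str H k z) {l : W} (hl : l ∈ Inn H k) (hlz : l ≠ z) :
    H.Adj l z := by
  by_contra hno
  have hu : Qc H k l = Set.univ := by
    refine closed_univ S.conn ⟨l, .inl rfl⟩ ?_
    intro a ha b hab
    rcases Qc_cl ha hl hab with h | ⟨rfl, h⟩
    · exact h
    · rcases T.star a hl b h hab with e | e
      · exact absurd e hlz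
      · exact absurd (e ▸ hab) hno
  have hz : z ∈ Qc H k l := hu ▸ trivial
  exact hlz (Qc_inn hz T.hz).symm

/-- copying a vertex with its parts to another vertex -/
theorem copy_parts (S : Setup H k) (T : Str H k z) {r v : W}
    (hm : Nat.card {X // Mb H k r X} ≤ Nat.card {X // Mb H k v X}) {D : Set W} (hv : v ∉ D)
    (hvD : ∀ X, Mb H k v X → ∀ a ∈ X, a ∉ D) : H.induce (Qc H k r) ⊑ H.induce Dᶜ := by
  have := Fintype.ofFinite {X // Mb H k r X}
  have := Fintype.ofFinite {X // Mb H k v X}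
  rw [Nat.card_eq_fintype_card, Nat.card_eq_fintype_card] at hm
  obtain ⟨g⟩ := Function.Embedding.nonempty_of_card_le hm
  choose φ h1 h2 h3 h4 using fun X : {X // Mb H k r X} => T.le r X.1 v (g X).1 X.2 (g X).2
  set f0 : W → W := fun w => if h : ∃ X : {X // Mb H k r X}, w ∈ X.1 then
    φ (Classical.choose h) w else v with hf0
  have e1 : ∀ (X : {X // Mb H k r X}) (w : W), w ∈ X.1 → f0 w = φ X w := by
    intro X w hw
    have hex : ∃ X : {X // Mb H k r X}, w ∈ X.1 := ⟨X, hw⟩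
    have h5 : Classical.choose hex = X :=
      Subtype.ext ((Classical.choose hex).2.disj S X.2 ⟨w, Classical.choose_spec hex, hw⟩)
    simp only [hf0, dif_pos hex, h5]
  have e2 : f0 r = v := by
    have hno : ¬ ∃ X : {X // Mb H k r X}, r ∈ X.1 := by
      rintro ⟨X, hX⟩
      exact X.2.1.out hX
    simp only [hf0, dif_neg hno]
  have e3 : ∀ (X : {X // Mb H k r X}) (w : W), w ∈ X.1 ∨ w = r → f0 w = φ X w := by
    rintro X w (hw | rfl)
    · exact e1 X w hw
    · rw [e2, h3 X]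
  have hmem : ∀ (X : {X // Mb H k r X}) (w : W), w ∈ X.1 → f0 w ∈ (g X).1 := by
    intro X w hw
    rw [e1 X w hw]
    exact h2 X w hw
  have hD : ∀ w ∈ Qc H k r, f0 w ∈ Dᶜ := by
    rintro w (rfl | ⟨X, hX, hw⟩)
    · rw [e2]
      exact hv
    · exact hvD _ (g ⟨X, hX⟩).2 _ (hmem ⟨X, hX⟩ w hw)
  refine contained_of (fun w : Qc H k r => (⟨f0 w.1, hD _ w.2⟩ : ↥Dᶜ)) ?_ ?_
  · rintro ⟨a, ha⟩ ⟨b, hb⟩ hab
    have hab' : f0 a = f0 b := Subtype.mk.inj hab
    apply Subtype.ext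
    change a = b
    rcases ha with rfl | ⟨X, hX, haX⟩ <;> rcases hb with rfl | ⟨Y, hY, hbY⟩
    · rfl
    · have := hmem ⟨Y, hY⟩ b hbY
      rw [← hab', e2] at this
      exact absurd this (g ⟨Y, hY⟩).2.1.out
    · have := hmem ⟨X, hX⟩ a haX
      rw [hab', e2] at this
      exact absurd this (g ⟨X, hX⟩).2.1.out
    · have m1 := hmem ⟨X, hX⟩ a haX
      have m2 := hmem ⟨Y, hY⟩ b hbY
      rw [← hab'] at m2
      have h5 : g ⟨X, hX⟩ = g ⟨Y, hY⟩ :=
        Subtype.ext ((g ⟨X, hX⟩).2.disj S (g ⟨Y, hY⟩).2 ⟨_, m1, m2⟩)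
      have h6 := g.injective h5
      have h7 : X = Y := Subtype.mk.inj h6
      subst h7
      rw [e1 ⟨X, hX⟩ a haX, e1 ⟨X, hX⟩ b hbY] at hab'
      exact h1 ⟨X, hX⟩ haX hbY hab'
  · rintro ⟨a, ha⟩ ⟨b, hb⟩ hab
    have hab' : H.Adj a b := hab
    change H.Adj (f0 a) (f0 b)
    rcases ha with rfl | ⟨X, hX, haX⟩
    · rcases hb with rfl | ⟨Y, hY, hbY⟩
      · exact absurd hab' (H.loopless.irrefl _)
      · rw [e3 ⟨Y, hY⟩ a (.inr rfl), e1 ⟨Y, hY⟩ b hbY]
        exact (h4 ⟨Y, hY⟩ b hbY a hab'.symm).symm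
    · rw [e1 ⟨X, hX⟩ a haX, e3 ⟨X, hX⟩ b (hX.1.cl a haX b hab')]
      exact h4 ⟨X, hX⟩ a haX b hab'

/-- `v` is the only outer neighbour of the connected set `E`, and has one neighbour in it;
then parts are inside or outside together with their root -/
theorem part_in (S : Setup H k) {v : W} {E : Set W} (hE : Fr H v E)
    (h1 : ∀ a ∈ E, ∀ b ∈ E, H.Adj v a → H.Adj v b → a = b) (hcard : E.ncard + k < Nat.card W)
    {x : W} {X : Set W} (hX : Mb H k x X) :
    ((∃ a ∈ X, a ∈ E) → X ⊆ E ∧ x ∈ E) ∧ (x ∈ E → X ⊆ E) := by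
  have hne : X ≠ E := by
    rintro rfl
    have hxv : x = v := by
      obtain ⟨b, hb, hbx⟩ := hX.1.nb
      rcases hE.cl b hb x hbx with h | h
      · exact absurd h hX.1.out
      · exact h
    subst hxv
    obtain ⟨a, ha, b, hb, hab, hxa, hxb⟩ := hX.two_nb S
    exact hab (h1 a ha b hb hxa hxb)
  have hEX : ¬ E ⊆ X := by
    intro h
    have h2 : E.ncard ≤ k := by
      rw [← hX.2]
      exact Set.ncard_le_ncard h (Set.toFinite _)
    have hEm : Mb H k v E := ⟨hE, le_antisymm h2 (S.min v E hE)⟩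
    obtain ⟨a, ha⟩ := hE.cn.1
    exact hne (hX.disj S hEm ⟨a, h ha, ha⟩)
  have key : (∃ a ∈ X, a ∈ E) → X ⊆ E ∧ x ∈ E := by
    intro hmeet
    have hmeet' : ∃ a ∈ E, a ∈ X := by
      obtain ⟨a, h, h'⟩ := hmeet
      exact ⟨a, h', h⟩
    obtain ⟨a, haE, haX, b, hbE, hbX, hab⟩ := hE.cn.cross hmeet' hEX
    have hxE : x ∈ E := by
      rcases hX.1.cl a haX b hab with h | h
      · exact absurd h hbX
      · exact h ▸ hbE
    refine ⟨?_, hxE⟩
    by_contra hno
    obtain ⟨c, hcX, hcE, d, hdX, hdE, hcd⟩ := hX.1.cn.cross hmeet hno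
    have hvX : v ∈ X := by
      rcases hE.cl c hcE d hcd with h | h
      · exact absurd h hdE
      · exact h ▸ hdX
    have hu : E ∪ X = Set.univ := by
      refine closed_univ S.conn ⟨a, .inl haE⟩ ?_
      rintro c (hc | hc) d hcd
      · rcases hE.cl c hc d hcd with h | h
        · exact .inl h
        · exact .inr (h ▸ hvX)
      · rcases hX.1.cl c hc d hcd with h | h
        · exact .inr h
        · exact .inl (h ▸ hxE)
    have h3 := Set.ncard_union_le E X
    rw [hu, Set.ncard_univ, hX.2] at h3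
    omega
  refine ⟨key, ?_⟩
  intro hxE
  by_cases hm : ∃ a ∈ X, a ∈ E
  · exact (key hm).1
  · exfalso
    obtain ⟨a, ha, b, hb, hab, hxa, hxb⟩ := hX.two_nb S
    have ha' : a = v := by
      rcases hE.cl x hxE a hxa with h | h
      · exact absurd ⟨a, ha, h⟩ hm
      · exact h
    have hb' : b = v := by
      rcases hE.cl x hxE b hxb with h | h
      · exact absurd ⟨b, hb, h⟩ hm
      · exact h
    exact hab (ha'.trans hb'.symm)

/-- connected sets avoiding `z` -/
theorem one_leaf (S : Setup H k) (T : Str H k z) {X : Set W} (hX : Cn H X) (φ : W → W)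
    (h4 : ∀ a ∈ X, ∀ b ∈ X, H.Adj a b → H.Adj (φ a) (φ b)) (hz : ∀ a ∈ X, φ a ≠ z)
    {a b : W} (ha : a ∈ X) (hb : b ∈ X) (ha' : φ a ∈ Inn H k) (hb' : φ b ∈ Inn H k) :
    φ a = φ b := by
  have hall : ∀ c ∈ X, φ c ∈ Qc H k (φ a) := by
    refine hX.2 {c | φ c ∈ Qc H k (φ a)} ⟨a, ha, .inl rfl⟩ ?_
    intro c hc hcQ d hd hcd
    rcases Qc_cl hcQ ha' (h4 c hc d hd hcd) with h | ⟨h, h'⟩
    · exact h
    · have hadj := h4 c hc d hd hcd
      rw [h] at hadj
      rcases T.star _ ha' _ h' hadj with e | e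
      · exact absurd e (hz a ha)
      · exact absurd e (hz d hd)
  exact (Qc_inn (hall b hb) hb').symm

/-- the case in which the star has an edge -/
theorem wind_step {W : Type} [Finite W] {H : SimpleGraph W} {k : ℕ} {z : W} (S : Setup H k)
    (T : Str H k z) (IH : ∀ U : Set W, U ≠ Set.univ → ¬ IsStar (H.induce U) → Fail (H.induce U))
    {l0 : W} (hl0 : l0 ∈ Inn H k) (hl0z : l0 ≠ z) : Fail H := by
  -- the vertex with the fewest parts
  obtain ⟨r, hr, hmin⟩ : ∃ r, (∃ X, Mb H k r X) ∧ ∀ v, (∃ X, Mb H k v X) →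
      Nat.card {X // Mb H k r X} ≤ Nat.card {X // Mb H k v X} := by
    obtain ⟨r, hr, hmin⟩ := Set.exists_min_image {v | ∃ X, Mb H k v X}
      (fun v => Nat.card {X // Mb H k v X}) (Set.toFinite _) ⟨l0, leaf_carries S T hl0 hl0z⟩
    exact ⟨r, hr, hmin⟩
  obtain ⟨X0, hX0⟩ := hr
  have hrI : r ∈ Inn H k := root_inn S hX0
  have hUne : Qc H k r ≠ Set.univ := by
    intro hu
    by_cases hrz : r = z
    · have : l0 ∈ Qc H k r := hu ▸ trivial
      exact hl0z ((Qc_inn this hl0).trans hrz)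
    · have : z ∈ Qc H k r := hu ▸ trivial
      exact hrz (Qc_inn this T.hz).symm
  have hns : ¬ IsStar (H.induce (Qc H k r)) :=
    not_star_of_mb S hX0 (fun a ha => .inr ⟨X0, hX0, ha⟩) (.inl rfl)
  obtain ⟨a0, ha0, har0⟩ := hX0.1.nb
  refine pp_step (Qc H k r) ⟨⟨a0, .inr ⟨X0, hX0, ha0⟩⟩, ⟨r, .inl rfl⟩, har0⟩ (IH _ hUne hns) ?_
  intro D hD
  -- the size of the private part
  have hPcard : (Qc H k r)ᶜ.ncard + k < Nat.card W := by
    have h1 : X0.ncard < (Qc H k r).ncard := by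
      refine Set.ncard_lt_ncard ⟨fun a ha => .inr ⟨X0, hX0, ha⟩, fun h => ?_⟩ (Set.toFinite _)
      exact hX0.1.out (h (.inl rfl))
    have h2 := Set.ncard_add_ncard_compl (Qc H k r)
    rw [hX0.2] at h1
    omega
  -- the components of `D`
  have hcomp : ∀ d ∈ D, ∃ v, ∃ φ : W → W, Fr H v (cmp H D d) ∧ φ v = r ∧
      (cmp H D d).ncard + k < Nat.card W ∧
      Set.InjOn φ (cmp H D d) ∧ (∀ a ∈ cmp H D d, φ a ∈ (Qc H k r)ᶜ) ∧
      (∀ a ∈ cmp H D d, ∀ b, H.Adj a b → H.Adj (φ a) (φ b)) ∧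
      (∀ a ∈ cmp H D d, ∀ b ∈ cmp H D d, H.Adj v a → H.Adj v b → a = b) := by
    intro d hd
    have hcn := cmp_cn (H := H) hd
    obtain ⟨φ, h1, h2, h3, h4⟩ := hD (cmp H D d) (cmp_sub hd) hcn
      (fun x hx y hy hxy => cmp_closed hd hx hy hxy)
    have hnb : ∀ b ∈ Nb H (cmp H D d), φ b = r := by
      rintro b ⟨hb, a, ha, hab⟩
      have hb2 := h2 b ⟨hb, a, ha, hab⟩
      have ha1 := h1 a ha
      rw [Set.mem_compl_iff, not_not] at hb2
      rcases Qc_cl hb2 hrI (h4 a ha b hab).symm with h | ⟨h, -⟩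
      · exact absurd h ha1
      · exact h
    have hcard : (cmp H D d).ncard ≤ (Qc H k r)ᶜ.ncard :=
      Set.ncard_le_ncard_of_injOn φ h1 (h3.mono Set.subset_union_left) (Set.toFinite _)
    have hcard' : (cmp H D d).ncard + k < Nat.card W := by omega
    obtain ⟨v, hv⟩ := fr_of S.conn hcn (by
      intro h
      rw [h, Set.ncard_univ] at hcard'
      omega) (fun a ha b hb => h3 (.inr ha) (.inr hb) ((hnb a ha).trans (hnb b hb).symm))
    have hvN : v ∈ Nb H (cmp H D d) := by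
      obtain ⟨a, ha, hav⟩ := hv.nb
      exact ⟨hv.out, a, ha, hav⟩
    refine ⟨v, φ, hv, hnb v hvN, hcard', h3.mono Set.subset_union_left, h1, h4, ?_⟩
    intro a ha b hb hva hvb
    apply h3 (.inl ha) (.inl hb)
    have hra : H.Adj r (φ a) := by
      have := h4 a ha v hva.symm
      rw [hnb v hvN] at this
      exact this.symm
    have hrb : H.Adj r (φ b) := by
      have := h4 b hb v hvb.symm
      rw [hnb v hvN] at this
      exact this.symm
    have hIn : ∀ c, H.Adj r c → c ∈ (Qc H k r)ᶜ → c ∈ Inn H k := by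
      intro c hc hcQ
      rcases nb_inn hrI hc with h | h
      · exact h
      · exact absurd (.inr h) hcQ
    have haI := hIn _ hra (h1 a ha)
    have hbI := hIn _ hrb (h1 b hb)
    by_cases hrz : r = z
    · refine one_leaf S T hcn φ (fun a ha b _ hab => h4 a ha b hab) ?_ ha hb haI hbI
      intro c hc hcz
      exact h1 c hc (.inl (hcz.trans hrz.symm))
    · have e1 : φ a = z := (T.star r hrI _ haI hra).resolve_left hrz
      have e2 : φ b = z := (T.star r hrI _ hbI hrb).resolve_left hrz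
      exact e1.trans e2.symm
  -- some vertex keeps all its parts
  by_contra hcon
  have hall : ∀ v, (∃ X, Mb H k v X) → v ∈ D ∧ ∀ X, Mb H k v X → X ⊆ D := by
    intro v hv
    have hvD : v ∈ D := by
      by_contra hvD
      apply hcon
      refine copy_parts S T (hmin v hv) hvD ?_
      intro X hX a ha haD
      obtain ⟨v', φ, hfr, -, hc, -, -, -, hone⟩ := hcomp a haD
      have h5 := ((part_in S hfr hone hc hX).1 ⟨a, ha, mem_cmp⟩).2
      exact hvD (cmp_sub haD h5)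
    refine ⟨hvD, ?_⟩
    intro X hX
    obtain ⟨v', φ, hfr, -, hc, -, -, -, hone⟩ := hcomp v hvD
    exact ((part_in S hfr hone hc hX).2 mem_cmp).trans (cmp_sub hvD)
  have hnotz : ∀ w, w ≠ z → w ∈ D := by
    intro w hwz
    by_cases hw : w ∈ Inn H k
    · exact (hall w (leaf_carries S T hw hwz)).1
    · simp only [Inn, Set.mem_setOf_eq, not_forall, not_not] at hw
      obtain ⟨x, X, hX, hwX⟩ := hw
      exact (hall x ⟨X, hX⟩).2 X hX hwX
  obtain ⟨v, φ, hfr, hφv, hc, hinj, hP, hadj, hone⟩ := hcomp l0 (hnotz l0 hl0z)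
  -- the outer neighbour is `z`
  have hvz : v = z := by
    by_contra hvz
    obtain ⟨a, ha, hav⟩ := hfr.nb
    exact hfr.out (cmp_closed (hnotz l0 hl0z) ha (hnotz v hvz) hav)
  subst hvz
  have hzD : v ∉ D := by
    intro hv
    obtain ⟨a, ha, hav⟩ := hfr.nb
    exact hfr.out (cmp_closed (hnotz l0 hl0z) ha hv hav)
  have hznc : ¬ ∃ X, Mb H k v X := fun h => hzD (hall v h).1
  have hrz : r ≠ v := by
    rintro rfl
    exact hznc ⟨X0, hX0⟩
  -- `l0` is mapped to `z`
  have hl0m : l0 ∈ cmp H D l0 := mem_cmp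
  have hφl : φ l0 = v := by
    have h5 := hadj l0 hl0m v (leaf_adj S T hl0 hl0z)
    rw [hφv] at h5
    rcases nb_inn hrI h5.symm with h | h
    · exact (T.star r hrI _ h h5.symm).resolve_left hrz
    · exact absurd (.inr h) (hP l0 hl0m)
  obtain ⟨X, hX⟩ := leaf_carries S T hl0 hl0z
  have hXc : X ⊆ cmp H D l0 := (part_in S hfr hone hc hX).2 hl0m
  obtain ⟨a, ha, b, hb, hab, hxa, hxb⟩ := hX.two_nb S
  have hIn : ∀ c ∈ X, H.Adj l0 c → φ c ∈ Inn H k := by
    intro c hc hlc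
    have h6 := hadj l0 hl0m c hlc
    rw [hφl] at h6
    rcases nb_inn T.hz h6 with h | ⟨Y, hY, -⟩
    · exact h
    · exact absurd ⟨Y, hY⟩ hznc
  apply hab
  apply hinj (hXc ha) (hXc hb)
  refine one_leaf S T hX.1.cn φ (fun a ha b _ hab => hadj a (hXc ha) b hab) ?_ ha hb
    (hIn a ha hxa) (hIn b hb hxb)
  intro c hc hcz
  have : c = l0 := hinj (hXc hc) hl0m (hcz.trans hφl.symm)
  exact hX.1.out (this ▸ hc)

end

end Pool.Agent.P8H55.SM
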